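import Pool.Agent.Lib.MP_a8d7f7_al.P.U1c

/-!
# MP_a8d7f7_al, prime ideals of small growth: the order, second direction (module O1c)
-/

set_option autoImplicit false
set_option linter.unusedSectionVars false
set_option linter.unusedVariables false

namespace SmallPrime

open Finset Equiv FinSym
open ThreeLetter (Ideals)
open Rank2 (On sw e IsDiff)

variable {K : Type*} [Field K] {Ω : Type*} [DecidableEq Ω] {d k : ℕ}

theorem incl_zero (f : Fin d ↪ Fin k) : incl f (0 : SAlg K d) = 0 := by
  rw [incl_eq_sum]
  apply sum_eq_zero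
  intro σ _
  rw [MonoidAlgebra.coeff_zero, Finsupp.zero_apply, zero_smul]

theorem incl_add (f : Fin d ↪ Fin k) (m n : SAlg K d) : incl f (m + n) = incl f m + incl f n := by
  rw [incl_eq_sum, incl_eq_sum, incl_eq_sum, ← sum_add_distrib]
  apply sum_congr rfl
  intro σ _
  rw [MonoidAlgebra.coeff_add, Finsupp.add_apply, add_smul]

theorem incl_smul (f : Fin d ↪ Fin k) (r : K) (n : SAlg K d) : incl f (r • n) = r • incl f n := by
  rw [incl_eq_sum, incl_eq_sum, smul_sum]
  apply sum_congr rfl
  intro σ _
  rw [MonoidAlgebra.coeff_smul, Finsupp.smul_apply, smul_smul, smul_eq_mul]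

theorem incl_of (f : Fin d ↪ Fin k) (σ : Perm (Fin d)) :
    incl f (MonoidAlgebra.of K (Perm (Fin d)) σ) =
      MonoidAlgebra.of K (Perm (Fin k)) (σ.viaFintypeEmbedding f) := by
  rw [incl_eq_sum, sum_eq_single σ]
  · rw [MonoidAlgebra.of_apply, MonoidAlgebra.coeff_single, Finsupp.single_eq_same, one_smul]
  · intro τ _ hτ
    rw [MonoidAlgebra.of_apply, MonoidAlgebra.coeff_single, Finsupp.single_eq_of_ne hτ, zero_smul]
  · intro h
    exact absurd (mem_univ _) h

/-- the symbol at two tuples with the same additional fresh letters -/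
theorem sym_extend (f : Fin d ↪ Fin k) {D : Finset Ω} {y : MonoidAlgebra K (FSym Ω)} (hy : On D y)
    {a b : Fin d → Ω} (ha : Function.Injective a) (hb : Function.Injective b) {A B : Fin k → Ω}
    (hB : Function.Injective B) (hAf : ∀ i, A (f i) = a i) (hBf : ∀ i, B (f i) = b i)
    (hAB : ∀ j, j ∉ Set.range f → A j = B j ∧ A j ∉ D) :
    sym y A B = incl f (sym y a b) := by
  refine Rank2.On.induction (D := D) (q := fun y => sym y A B = incl f (sym y a b)) ?_ ?_ ?_ ?_ hy
  · rw [sym_zero, sym_zero, incl_zero]
  · intro y z hy hz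
    rw [sym_add, sym_add, incl_add, hy, hz]
  · intro r y hy
    rw [sym_smul, sym_smul, incl_smul, hy]
  · intro g hg
    by_cases hex : ∃ σ : Perm (Fin d), ∀ i, (g : Perm Ω) (a i) = b (σ i)
    · obtain ⟨σ, hσ⟩ := hex
      rw [sym_of hb hσ, incl_of]
      apply sym_of hB
      intro j
      by_cases hj : j ∈ Set.range f
      · obtain ⟨i, rfl⟩ := hj
        rw [hAf, hσ, Perm.viaFintypeEmbedding_apply_image, hBf]
      · rw [Perm.viaFintypeEmbedding_apply_notMem_range _ _ hj, hg _ (hAB j hj).2, (hAB j hj).1]
    · rw [sym_of_eq_zero (a := a), incl_zero]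
      · apply sym_of_eq_zero
        intro σ'
        by_contra hcon
        push Not at hcon
        apply hex
        have h1 : ∀ j, j ∉ Set.range f → σ' j = j := by
          intro j hj
          have h2 := hcon j
          rw [hg _ (hAB j hj).2, (hAB j hj).1] at h2
          exact (hB h2).symm
        have h2 : ∀ i, ∃ i', f i' = σ' (f i) := by
          intro i
          by_contra h3
          have h4 : σ' (f i) ∉ Set.range f := h3
          have h5 := h1 _ h4
          exact h4 ⟨i, (σ'.injective h5).symm⟩
        choose s hs using h2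
        have hsi : Function.Injective s := by
          intro i j hij
          apply f.injective
          apply σ'.injective
          rw [← hs i, ← hs j, hij]
        refine ⟨Equiv.ofBijective s (Finite.injective_iff_bijective.mp hsi), fun i => ?_⟩
        rw [← hAf i, hcon (f i), ← hs i, hBf]
        rfl
      · intro σ
        by_contra hcon
        push Not at hcon
        exact hex ⟨σ, hcon⟩

/-- **The other direction.** Let `y ∈ PI N` and `a`, `b : Fin d → Ω` injective. Choose `a⁺`, `b⁺ : Fin k → Ω`
injective with `a⁺ ∘ f = a`, `b⁺ ∘ f = b` and equal outside the range of `f`, with letters not moved by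
`y`. Then `sym y a⁺ b⁺ = incl f (sym y a b)`: `g ∘ a⁺ = b⁺ ∘ σ` forces `σ` to fix the complement of the
range of `f`, so `σ = σ'.viaFintypeEmbedding f` with `g ∘ a = b ∘ σ'`. (By linearity `y = g`, or compare
the coefficients.) -/
theorem PI_le [Infinite Ω] {N : TwoSidedIdeal (SAlg K k)} {N' : TwoSidedIdeal (SAlg K d)}
    (f : Fin d ↪ Fin k) (h : ∀ n : SAlg K d, incl f n ∈ N → n ∈ N') : PI K Ω N ≤ PI K Ω N' := by
  classical
  intro y hy
  rw [mem_PI] at hy ⊢
  intro a b ha hb
  obtain ⟨D, hD⟩ := exists_support y
  obtain ⟨r, hr, hrD⟩ := exists_tuple (Ω := Ω) k (D ∪ univ.image a ∪ univ.image b)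
  have hr1 : ∀ j, r j ∉ D ∧ (∀ i, a i ≠ r j) ∧ ∀ i, b i ≠ r j := by
    intro j
    have := hrD j
    rw [mem_union, mem_union, not_or, not_or] at this
    exact ⟨this.1.1, fun i hi => this.1.2 (mem_image.mpr ⟨i, mem_univ _, hi⟩),
      fun i hi => this.2 (mem_image.mpr ⟨i, mem_univ _, hi⟩)⟩
  have hinj : ∀ c : Fin d → Ω, Function.Injective c → (∀ i j, c i ≠ r j) →
      Function.Injective (Function.extend f c r) := by
    intro c hc hcr i j hij
    by_cases hi : i ∈ Set.range f <;> by_cases hj : j ∈ Set.range f
    · obtain ⟨i, rfl⟩ := hi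
      obtain ⟨j, rfl⟩ := hj
      rw [f.injective.extend_apply, f.injective.extend_apply] at hij
      rw [hc hij]
    · obtain ⟨i, rfl⟩ := hi
      rw [f.injective.extend_apply, Function.extend_apply' _ _ _ hj] at hij
      exact absurd hij (hcr _ _)
    · obtain ⟨j, rfl⟩ := hj
      rw [f.injective.extend_apply, Function.extend_apply' _ _ _ hi] at hij
      exact absurd hij.symm (hcr _ _)
    · rw [Function.extend_apply' _ _ _ hi, Function.extend_apply' _ _ _ hj] at hij
      exact hr hij
  have hA := hinj a ha (fun i j => (hr1 j).2.1 i)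
  have hB := hinj b hb (fun i j => (hr1 j).2.2 i)
  apply h
  rw [← sym_extend f hD ha hb hB (fun i => f.injective.extend_apply a r i)
    (fun i => f.injective.extend_apply b r i)]
  · exact hy _ _ hA hB
  · intro j hj
    rw [Function.extend_apply' _ _ _ hj, Function.extend_apply' _ _ _ hj]
    exact ⟨rfl, (hr1 j).1⟩

end SmallPrime
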