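import Pool.Agent.Lib.MP_a8d7f7_al.P.S1

/-!
# MP_a8d7f7_al, prime ideals of small growth: prime ideals and moves (module S2)
-/

set_option autoImplicit false
set_option linter.unusedSectionVars false
set_option linter.unusedVariables false

namespace SmallPrime

open Finset Equiv FinSym
open ThreeLetter (Ideals)
open Rank2 (On sw e)

variable {K : Type*} [Field K] {Ω : Type*} [DecidableEq Ω] {d : ℕ}

/-- two injective finite families of letters are conjugate under `FSym(Ω)`. (The ranges have the same
cardinality; extend the bijection between them to a permutation of the union of the two ranges with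
`Equiv.extendSubtype`, as in `FinSym.exists_move`, and apply `FinSym.ext`.) -/
theorem exists_mv {ι : Type*} [Finite ι] (f f' : ι → Ω) (hf : Function.Injective f)
    (hf' : Function.Injective f') : ∃ g : FSym Ω, ∀ i, (g : Perm Ω) (f i) = f' i := by
  classical
  obtain ⟨hι⟩ := nonempty_fintype ι
  let W : Finset Ω := Finset.univ.image f ∪ Finset.univ.image f'
  have hW : ∀ i, f i ∈ W := fun i =>
    Finset.mem_union_left _ (Finset.mem_image_of_mem f (Finset.mem_univ i))
  have hW' : ∀ i, f' i ∈ W := fun i =>
    Finset.mem_union_right _ (Finset.mem_image_of_mem f' (Finset.mem_univ i))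
  let F : ι → W := fun i => ⟨f i, hW i⟩
  let F' : ι → W := fun i => ⟨f' i, hW' i⟩
  have hF : Function.Injective F := fun i j h => hf (congrArg Subtype.val h)
  have hF' : Function.Injective F' := fun i j h => hf' (congrArg Subtype.val h)
  let e : {x : W // x ∈ Set.range F} ≃ {x : W // x ∈ Set.range F'} :=
    (Equiv.ofInjective F hF).symm.trans (Equiv.ofInjective F' hF')
  refine ⟨ext W e.extendSubtype, fun i => ?_⟩
  rw [ext_mem W e.extendSubtype (hW i)]
  have h1 : e.extendSubtype (F i) = F' i := by
    rw [Equiv.extendSubtype_apply_of_mem e (F i) ⟨i, rfl⟩]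
    have h2 : (⟨F i, ⟨i, rfl⟩⟩ : {x : W // x ∈ Set.range F}) = Equiv.ofInjective F hF i := rfl
    rw [h2]
    change ((Equiv.ofInjective F' hF' ((Equiv.ofInjective F hF).symm
      (Equiv.ofInjective F hF i)) : Set.range F') : W) = F' i
    rw [Equiv.symm_apply_apply]
    rfl
  exact congrArg Subtype.val h1

theorem smul_mem_tsi {R : Type*} [Ring R] [Algebra K R] (N : TwoSidedIdeal R) (c : K) {x : R}
    (hx : x ∈ N) : c • x ∈ N := by
  rw [Algebra.smul_def]
  exact N.mul_mem_left _ _ hx

theorem sandwich_mem {G : Type*} [Group G] {N : TwoSidedIdeal (MonoidAlgebra K G)}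
    {x y : MonoidAlgebra K G} (h : ∀ g : G, x * MonoidAlgebra.of K G g * y ∈ N)
    (r : MonoidAlgebra K G) : x * r * y ∈ N := by
  induction r using MonoidAlgebra.induction_on with
  | of g => exact h g
  | add f g hf hg =>
    rw [mul_add, add_mul]
    exact N.add_mem hf hg
  | smul c f hf =>
    rw [mul_smul_comm, smul_mul_assoc]
    exact smul_mem_tsi N c hf

/-- a failure of `m R n ⊆ N` is seen at a permutation -/
theorem IsPrime.exists_perm {N : TwoSidedIdeal (SAlg K d)} (hN : IsPrime N) {m n : SAlg K d}
    (hm : m ∉ N) (hn : n ∉ N) : ∃ τ : Perm (Fin d), m * MonoidAlgebra.of K (Perm (Fin d)) τ * n ∉ N := by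
  by_contra hcon
  push Not at hcon
  rcases hN.2 m n (fun r => sandwich_mem hcon r) with h | h
  · exact hm h
  · exact hn h

/-- the same in `K[FSym(Ω)]` -/
theorem IsPrime.exists_fsym {P : Ideals K Ω} (hP : IsPrime P) {x y : MonoidAlgebra K (FSym Ω)}
    (hx : x ∉ P) (hy : y ∉ P) : ∃ g : FSym Ω, x * MonoidAlgebra.of K (FSym Ω) g * y ∉ P := by
  by_contra hcon
  push Not at hcon
  rcases hP.2 x y (fun r => sandwich_mem hcon r) with h | h
  · exact hx h
  · exact hy h

end SmallPrime
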