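import Pool.Agent.Lib.MP_a8d7f7_al.P.U1

/-!
# MP_a8d7f7_al, prime ideals of small growth: the symbol of zz (module U1b)
-/

set_option autoImplicit false
set_option linter.unusedSectionVars false
set_option linter.unusedVariables false

namespace SmallPrime

open Finset Equiv FinSym
open ThreeLetter (Ideals)
open Rank2 (On sw e IsDiff)

variable {K : Type*} [Field K] {Ω : Type*} [DecidableEq Ω] {d : ℕ}

/-- fresh differences on the right -/
theorem sym_mul_ud_fresh {k m : ℕ} {D : Finset Ω} {y : MonoidAlgebra K (FSym Ω)} (hy : On D y)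
    {A B : Fin m → Ω} (h : Gen A B) {c b : Fin k → Ω} (hA : ∀ i, ∃ j, c j = A i)
    (hBD : ∀ i, B i ∉ D) (hBb : ∀ i j, b j ≠ B i) : sym (y * ud K A B) c b = sym y c b := by
  induction m generalizing y D with
  | zero => rw [ud_zero, mul_one]
  | succ m ih =>
    rw [ud_succ, ← mul_assoc]
    have hBt : ∀ i : Fin m, B i.succ ∉ insert (A 0) (insert (B 0) D) := by
      intro i
      rw [mem_insert, mem_insert]
      rintro (h1 | h1 | h1)
      · exact h.ne _ _ h1.symm
      · exact Fin.succ_ne_zero i (h.inj_w h1)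
      · exact hBD _ h1
    rw [ih (D := insert (A 0) (insert (B 0) D)) (Rank2.On.mul (hy.mono ((subset_insert _ _).trans
      (subset_insert _ _))) (Rank2.e_On (by simp) (by simp))) h.tail (fun i => hA i.succ)
      hBt (fun i j => hBb _ j)]
    unfold Rank2.e
    rw [mul_sub, mul_one, sym_sub, sym_mul_of]
    obtain ⟨j, hj⟩ := hA 0
    have h1 : mv (sw (A 0) (B 0)) c j = B 0 := by
      rw [mv_apply, hj, Rank2.sw_val, swap_apply_left]
    have h2 : sym y (mv (sw (A 0) (B 0)) c) b = 0 :=
      sym_eq_zero_right hy j (by rw [h1]; exact hBD 0) (fun i => by rw [h1]; exact hBb 0 i)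
    rw [h2, sub_zero]

/-- fresh differences on the left -/
theorem sym_ud_mul_fresh {k m : ℕ} {D : Finset Ω} {y : MonoidAlgebra K (FSym Ω)} (hy : On D y)
    {A B : Fin m → Ω} (h : Gen A B) {c b : Fin k → Ω} (hA : ∀ i, ∃ j, b j = A i)
    (hBD : ∀ i, B i ∉ D) (hBc : ∀ i j, c j ≠ B i) : sym (ud K A B * y) c b = sym y c b := by
  induction m generalizing y D with
  | zero => rw [ud_zero, one_mul]
  | succ m ih =>
    have hcm : e K (A 0) (B 0) * ud K (Fin.tail A) (Fin.tail B) =
        ud K (Fin.tail A) (Fin.tail B) * e K (A 0) (B 0) :=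
      Rank2.e_mul_comm (ud_on _ _) (U0_a_notMem h) (U0_w_notMem h)
    rw [ud_succ, hcm, mul_assoc]
    have hBt : ∀ i : Fin m, B i.succ ∉ insert (A 0) (insert (B 0) D) := by
      intro i
      rw [mem_insert, mem_insert]
      rintro (h1 | h1 | h1)
      · exact h.ne _ _ h1.symm
      · exact Fin.succ_ne_zero i (h.inj_w h1)
      · exact hBD _ h1
    rw [ih (D := insert (A 0) (insert (B 0) D)) (Rank2.On.mul (Rank2.e_On (by simp) (by simp))
      (hy.mono ((subset_insert _ _).trans (subset_insert _ _)))) h.tail (fun i => hA i.succ)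
      hBt (fun i j => hBc _ j)]
    unfold Rank2.e
    rw [sub_mul, one_mul, sym_sub, sym_of_mul]
    obtain ⟨j, hj⟩ := hA 0
    have h1 : mv (sw (A 0) (B 0))⁻¹ b j = B 0 := by
      rw [mv_apply, hj, Rank2.sw_inv, Rank2.sw_val, swap_apply_left]
    have h2 : sym y c (mv (sw (A 0) (B 0))⁻¹ b) = 0 :=
      sym_eq_zero_left hy j (by rw [h1]; exact hBD 0) (fun i => by rw [h1]; exact hBc 0 i)
    rw [h2, sub_zero]

theorem sym_emb (a : Fin d ↪ Ω) (n : SAlg K d) : sym (emb K a n) a a = n := by
  conv_lhs => rw [expand n (subset_refl _)]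
  conv_rhs => rw [expand n (subset_refl _)]
  rw [map_sum, sym_sum]
  apply sum_congr rfl
  intro σ _
  rw [map_smul, sym_smul, emb_of, sym_of a.injective (rho_apply a σ)]

/-- **The symbol of `zz` at `a`.** By linearity `n = σ`. Remove the factors `1 - (a i, w' i)` of
`ud a w'` from the right one at a time (`ud_succ` read from the right, or induction over a list of
indices): the term with the transposition is `sym (y r') (t a) a` where `t a` contains `w' i`, a letter
which is not moved by `y r'` (`y` moves `a`, `w` and the remaining `w' j`) and not in `a`: it is `0` by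
`sym_eq_zero_right`. Then remove the factors of `ud a w` from the left (`sym_eq_zero_left`). There
remains `sym (rho a σ) a a = σ`. A convenient form of the induction (on `m`, with `ud_succ`, for all
`D`, `y`): if `A B : Fin m → Ω`, `Gen A B`, every `A i` is a letter of `c`, and the letters `B` are not
in `D`, not in `c` and not in `b`, and `On D y`, then `sym (y * ud A B) c b = sym y c b`; and the mirror
image for `ud A B * y` (every `A i` a letter of `b`). -/
theorem sym_zz {a : Fin d ↪ Ω} {w w' : Fin d → Ω} (h : Gen a w) (h' : Gen a w')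
    (hw : ∀ i j, w i ≠ w' j) (n : SAlg K d) : sym (zz a w w' n) a a = n := by
  unfold zz
  have h1 : On (lets a w ∪ univ.image a) (ud K a w * emb K a n) :=
    Rank2.On.mul ((ud_on _ _).mono subset_union_left) ((emb_on a n).mono subset_union_right)
  rw [sym_mul_ud_fresh h1 h' (fun i => ⟨i, rfl⟩) ?_ (fun i j => h'.ne j i),
    sym_ud_mul_fresh (emb_on a n) h (fun i => ⟨i, rfl⟩) ?_ (fun i j => h.ne j i), sym_emb]
  · intro i hi
    obtain ⟨j, -, hj⟩ := mem_image.mp hi
    exact h.ne j i hj
  · intro i hi
    rcases mem_union.mp hi with h2 | h2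
    · rcases mem_lets.mp h2 with ⟨j, hj⟩ | ⟨j, hj⟩
      · exact h'.ne j i hj
      · exact hw j i hj
    · obtain ⟨j, -, hj⟩ := mem_image.mp h2
      exact h'.ne j i hj

end SmallPrime
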