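import Pool.Agent.Lib.MP_a8d7f7_al.P.U0

/-!
# MP_a8d7f7_al, prime ideals of small growth: tuples of letters (module U0b)
-/

set_option autoImplicit false
set_option linter.unusedSectionVars false
set_option linter.unusedVariables false

namespace SmallPrime

open Finset Equiv FinSym
open ThreeLetter (Ideals)
open Rank2 (On sw e IsDiff)

variable {K : Type*} [Field K] {Ω : Type*} [DecidableEq Ω] {d : ℕ}

/-- every product of differences is of this form (induction on `IsDiff`, `Fin.cons`) -/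
theorem exists_gen {S : Finset Ω} {u : MonoidAlgebra K (FSym Ω)} (h : IsDiff K d S u) :
    ∃ a w : Fin d → Ω, Gen a w ∧ lets a w = S ∧ ud K a w = u := by
  induction h with
  | zero =>
    refine ⟨Fin.elim0, Fin.elim0, ⟨fun i => i.elim0, fun i => i.elim0, fun i => i.elim0⟩, ?_, ?_⟩
    · ext z
      rw [mem_lets]
      constructor
      · rintro (⟨i, -⟩ | ⟨i, -⟩) <;> exact i.elim0
      · intro h; exact absurd h (notMem_empty z)
    · rw [ud_zero]
  | succ c S u x y hxy hx hy h ih =>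
    obtain ⟨a, w, haw, hS, hu⟩ := ih
    subst hS
    have hxa : ∀ i, a i ≠ x := fun i hi => hx (mem_lets.mpr (Or.inl ⟨i, hi⟩))
    have hxw : ∀ i, w i ≠ x := fun i hi => hx (mem_lets.mpr (Or.inr ⟨i, hi⟩))
    have hya : ∀ i, a i ≠ y := fun i hi => hy (mem_lets.mpr (Or.inl ⟨i, hi⟩))
    have hyw : ∀ i, w i ≠ y := fun i hi => hy (mem_lets.mpr (Or.inr ⟨i, hi⟩))
    refine ⟨Fin.cons x a, Fin.cons y w, ⟨?_, ?_, ?_⟩, ?_, ?_⟩
    · rw [Fin.cons_injective_iff]
      exact ⟨fun ⟨i, hi⟩ => hxa i hi, haw.inj_a⟩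
    · rw [Fin.cons_injective_iff]
      exact ⟨fun ⟨i, hi⟩ => hyw i hi, haw.inj_w⟩
    · intro i j
      refine Fin.cases ?_ (fun i => ?_) i <;> refine Fin.cases ?_ (fun j => ?_) j
      · rw [Fin.cons_zero, Fin.cons_zero]; exact hxy
      · rw [Fin.cons_zero, Fin.cons_succ]; exact (hxw j).symm
      · rw [Fin.cons_zero, Fin.cons_succ]; exact hya i
      · rw [Fin.cons_succ, Fin.cons_succ]; exact haw.ne i j
    · rw [U0_lets_succ, Fin.cons_zero, Fin.cons_zero, Fin.tail_cons, Fin.tail_cons]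
    · rw [ud_succ, Fin.cons_zero, Fin.cons_zero, Fin.tail_cons, Fin.tail_cons, hu]

/-! ## permuting the letters of a tuple -/

/-- the permutation `a i ↦ a (σ i)` of the letters of a tuple (`Equiv.Perm.viaEmbeddingHom`; it moves
only letters `a i`) -/
noncomputable def rho {Ω : Type*} {d : ℕ} (a : Fin d ↪ Ω) : Perm (Fin d) →* FSym Ω :=
  (Equiv.Perm.viaEmbeddingHom a).codRestrict (FSym Ω) (by
    intro σ
    rw [mem_FSym]
    refine (Set.finite_range a).subset ?_
    intro z hz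
    by_contra h
    apply hz
    rw [Equiv.Perm.viaEmbeddingHom_apply]
    exact Equiv.Perm.viaEmbedding_apply_of_notMem σ a z h)

theorem rho_apply (a : Fin d ↪ Ω) (σ : Perm (Fin d)) (i : Fin d) :
    (rho a σ : Perm Ω) (a i) = a (σ i) :=
  Equiv.Perm.viaEmbedding_apply σ a i

theorem rho_fix (a : Fin d ↪ Ω) (σ : Perm (Fin d)) {z : Ω} (hz : ∀ i, a i ≠ z) :
    (rho a σ : Perm Ω) z = z :=
  Equiv.Perm.viaEmbedding_apply_of_notMem σ a z (fun ⟨i, hi⟩ => hz i hi)

/-- the embedding `K[S_d] → K[FSym(Ω)]` along a tuple -/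
noncomputable def emb (K : Type*) [Field K] {Ω : Type*} {d : ℕ} (a : Fin d ↪ Ω) :
    SAlg K d →ₐ[K] MonoidAlgebra K (FSym Ω) :=
  MonoidAlgebra.lift K _ _ ((MonoidAlgebra.of K (FSym Ω)).comp (rho a))

theorem emb_of (a : Fin d ↪ Ω) (σ : Perm (Fin d)) :
    emb K a (MonoidAlgebra.of K _ σ) = MonoidAlgebra.of K (FSym Ω) (rho a σ) :=
  MonoidAlgebra.lift_of _ _

theorem emb_on (a : Fin d ↪ Ω) (n : SAlg K d) : On (univ.image a) (emb K a n) := by
  rw [expand n (subset_refl _), map_sum]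
  apply Rank2.On.sum
  intro σ _
  rw [map_smul, emb_of]
  apply Rank2.On.smul
  apply Rank2.On.of
  intro z hz
  apply rho_fix
  intro i hi
  exact hz (mem_image.mpr ⟨i, mem_univ _, hi⟩)

/-- the element with symbol `n`: differences, `n`, differences -/
noncomputable def zz (a : Fin d ↪ Ω) (w w' : Fin d → Ω) (n : SAlg K d) :
    MonoidAlgebra K (FSym Ω) := ud K a w * emb K a n * ud K a w'

end SmallPrime
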