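import Pool.Agent.Lib.MP_a8d7f7_al.P.S0

/-!
# MP_a8d7f7_al, prime ideals of small growth: linear dependence (module G0c)
-/

set_option autoImplicit false
set_option linter.unusedSectionVars false
set_option linter.unusedVariables false

namespace SmallPrime

open Finset Equiv FinSym
open ThreeLetter (Ideals)
open Rank2 (On sw e IsDiff)

variable {K : Type*} [Field K] {Ω : Type*} [DecidableEq Ω]

theorem exists_phi_of_on {D : Finset Ω} {y : MonoidAlgebra K (FSym Ω)} (hy : On D y) :
    ∃ z : MonoidAlgebra K (Perm D), phi K D z = y := by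
  classical
  have h1 : ∀ σ : FSym Ω, ∃ τ : Perm D, σ ∈ y.coeff.support → ext D τ = σ := by
    intro σ
    by_cases hσ : σ ∈ y.coeff.support
    · obtain ⟨τ, hτ⟩ := exists_ext D σ (hy σ hσ)
      exact ⟨τ, fun _ => hτ⟩
    · exact ⟨1, fun h => absurd h hσ⟩
  choose τ hτ using h1
  refine ⟨∑ σ ∈ y.coeff.support, y.coeff σ • MonoidAlgebra.of K (Perm D) (τ σ), ?_⟩
  rw [map_sum]
  conv_rhs => rw [Rank2.expand_on y]
  refine Finset.sum_congr rfl fun σ hσ => ?_
  rw [map_smul]
  congr 1
  have h2 := phi_o (K := K) D (τ σ)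
  rw [hτ σ hσ] at h2
  exact h2

/-- **Linear dependence.** If the codimension of `I ∩ K[Sym D]` is smaller than the number of the
elements `E i ∈ K[Sym D]`, a nontrivial combination of them lies in `I`. (`E i = phi K D (E' i)`, by
`On` and `exists_ext`; `codimIn` is the `finrank` of the quotient by `restr I D`, see `Growth.lean`;
`exists_nontrivial_relation...` or `LinearIndependent.fintype_card_le_finrank`.) -/
theorem exists_rel {I : Ideals K Ω} {D : Finset Ω} {ι : Type*} [Fintype ι]
    (E : ι → MonoidAlgebra K (FSym Ω)) (hE : ∀ i, On D (E i)) (h : codimIn I D < Fintype.card ι) :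
    ∃ c : ι → K, (∃ i, c i ≠ 0) ∧ ∑ i, c i • E i ∈ I := by
  classical
  choose E' hE' using fun i => exists_phi_of_on (hE i)
  have hfin : Module.Finite K (MonoidAlgebra K (Perm D)) := inferInstance
  have hdep : ¬ LinearIndependent K fun i => (restr I D).mkQ (E' i) := by
    intro hli
    have := hli.fintype_card_le_finrank
    unfold codimIn codim at h
    omega
  rw [Fintype.not_linearIndependent_iff] at hdep
  obtain ⟨c, hc, i, hi⟩ := hdep
  refine ⟨c, ⟨i, hi⟩, ?_⟩
  have h1 : (restr I D).mkQ (∑ i, c i • E' i) = 0 := by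
    rw [map_sum, ← hc]
    exact Finset.sum_congr rfl fun j _ => map_smul _ _ _
  rw [Submodule.mkQ_apply, Submodule.Quotient.mk_eq_zero] at h1
  have h2 : phi K D (∑ i, c i • E' i) ∈ I := h1
  rw [map_sum] at h2
  have h3 : ∑ i, phi K D (c i • E' i) = ∑ i, c i • E i := by
    refine Finset.sum_congr rfl fun j _ => ?_
    rw [map_smul, hE' j]
  rw [h3] at h2
  exact h2

/-- with orthogonal quasi-idempotents: multiply the relation by `E i` with `c i ≠ 0` -/
theorem exists_mem_of_orth {I : Ideals K Ω} {D : Finset Ω} {ι : Type*} [Fintype ι]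
    (E : ι → MonoidAlgebra K (FSym Ω)) (hE : ∀ i, On D (E i)) (h : codimIn I D < Fintype.card ι)
    {r : K} (hr : r ≠ 0) (h1 : ∀ i, E i * E i = r • E i) (h2 : ∀ i j, i ≠ j → E i * E j = 0) :
    ∃ i, E i ∈ I := by
  classical
  obtain ⟨c, ⟨i, hi⟩, hc⟩ := exists_rel E hE h
  refine ⟨i, ?_⟩
  have h3 : E i * ∑ j, c j • E j = (c i * r) • E i := by
    rw [Finset.mul_sum, Finset.sum_eq_single i]
    · rw [mul_smul_comm, h1, smul_smul]
    · intro j _ hj
      rw [mul_smul_comm, h2 i j (fun h => hj h.symm), smul_zero]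
    · intro hni
      exact absurd (Finset.mem_univ i) hni
  have h4 : (c i * r) • E i ∈ I := by
    rw [← h3]
    exact I.mul_mem_left _ _ hc
  have h5 : E i = (c i * r)⁻¹ • ((c i * r) • E i) := by
    rw [smul_smul, inv_mul_cancel₀ (mul_ne_zero hi hr), one_smul]
  rw [h5, ← one_mul ((c i * r) • E i), ← smul_mul_assoc]
  exact I.mul_mem_left _ _ h4

end SmallPrime
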