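import Pool.Agent.Lib.MP_a8d7f7_al.P.U1b

/-!
# MP_a8d7f7_al, prime ideals of small growth: symbols of zz at longer tuples (module U1c)
-/

set_option autoImplicit false
set_option linter.unusedSectionVars false
set_option linter.unusedVariables false

namespace SmallPrime

open Finset Equiv FinSym
open ThreeLetter (Ideals)
open Rank2 (On sw e IsDiff)

variable {K : Type*} [Field K] {Ω : Type*} [DecidableEq Ω] {d : ℕ}

theorem exists_extend {k : ℕ} (f f' : Fin d ↪ Fin k) : ∃ τ : Perm (Fin k), ∀ i, τ (f i) = f' i := by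
  classical
  let e1 : {x // x ∈ Set.range f} ≃ {x // x ∈ Set.range f'} :=
    (Equiv.ofInjective f f.injective).symm.trans (Equiv.ofInjective f' f'.injective)
  refine ⟨e1.extendSubtype, fun i => ?_⟩
  rw [Equiv.extendSubtype_apply_of_mem e1 (f i) ⟨i, rfl⟩]
  have h1 : (⟨f i, i, rfl⟩ : {x // x ∈ Set.range f}) = Equiv.ofInjective f f.injective i := rfl
  rw [h1]
  change ((Equiv.ofInjective f' f'.injective) ((Equiv.ofInjective f f.injective).symm
    (Equiv.ofInjective f f.injective i)) : Fin k) = f' i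
  rw [Equiv.symm_apply_apply]
  rfl

theorem via_conj {k : ℕ} (f f' : Fin d ↪ Fin k) {τ : Perm (Fin k)} (h : ∀ i, τ (f i) = f' i)
    (σ : Perm (Fin d)) : σ.viaFintypeEmbedding f' = τ * σ.viaFintypeEmbedding f * τ⁻¹ := by
  apply Equiv.ext
  intro x
  rw [Perm.mul_apply, Perm.mul_apply]
  by_cases hx : x ∈ Set.range f'
  · obtain ⟨i, rfl⟩ := hx
    have h1 : τ⁻¹ (f' i) = f i := by rw [Perm.inv_eq_iff_eq, h]
    rw [h1, Perm.viaFintypeEmbedding_apply_image, Perm.viaFintypeEmbedding_apply_image, h]
  · have h2 : τ (τ⁻¹ x) = x := τ.apply_symm_apply x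
    rw [Perm.viaFintypeEmbedding_apply_notMem_range _ _ hx,
      Perm.viaFintypeEmbedding_apply_notMem_range, h2]
    rintro ⟨i, hi⟩
    apply hx
    refine ⟨i, ?_⟩
    rw [← h, hi, h2]

theorem incl_eq_sum {k : ℕ} (f : Fin d ↪ Fin k) (n : SAlg K d) :
    incl f n = ∑ σ : Perm (Fin d), n.coeff σ • MonoidAlgebra.of K (Perm (Fin k))
      (σ.viaFintypeEmbedding f) := by
  unfold incl
  apply sum_congr rfl
  intro σ _
  rw [MonoidAlgebra.of_apply, MonoidAlgebra.smul_single', mul_one]

/-- the two inclusions along two embeddings are conjugate (`Equiv.extendSubtype` gives `τ` with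
`f' = τ ∘ f`, and `incl f' n = τ * incl f n * τ⁻¹`) -/
theorem incl_mem {k : ℕ} {N : TwoSidedIdeal (SAlg K k)} {f : Fin d ↪ Fin k} {n : SAlg K d}
    (hn : incl f n ∈ N) (f' : Fin d ↪ Fin k) : incl f' n ∈ N := by
  obtain ⟨τ, hτ⟩ := exists_extend f f'
  have h1 : incl f' n = MonoidAlgebra.of K (Perm (Fin k)) τ * incl f n *
      MonoidAlgebra.of K (Perm (Fin k)) τ⁻¹ := by
    rw [incl_eq_sum, incl_eq_sum, mul_sum, sum_mul]
    apply sum_congr rfl
    intro σ _
    rw [via_conj f f' hτ, map_mul, map_mul, mul_smul_comm, smul_mul_assoc]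
  rw [h1]
  exact N.mul_mem_right _ _ (N.mul_mem_left _ _ hn)

/-- **Symbols of `zz` at longer tuples avoiding `w`.** The permutations in the support of `ud a w'` fix
the letters `w`, so by `sym_mul_right_mem` it is enough to treat `ud a w * emb a n` (for all `c`
avoiding `w`). If `c` misses the letter `a i` then `sym (ud a w * rho a σ) c b =
sym (ud a w) (rho a σ c) b`, and `rho a σ c` misses `a (σ i)` and `w (σ i)`: it is `0`
(`sym_mul_ud`, with `y = 1`). Otherwise `c ∘ f' = a` for an embedding `f'` and `mv (rho a σ) c =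
c ∘ (σ.viaFintypeEmbedding f')`, so `sym (ud a w * emb a n) c b = sym (ud a w) c b * incl f' n`. -/
theorem sym_zz_mem {k : ℕ} {N : TwoSidedIdeal (SAlg K k)} {f : Fin d ↪ Fin k} {n : SAlg K d}
    (hn : incl f n ∈ N) {a : Fin d ↪ Ω} {w w' : Fin d → Ω} (h : Gen a w) (h' : Gen a w')
    (hw : ∀ i j, w i ≠ w' j) {c : Fin k → Ω} (hc : Function.Injective c) (hcw : ∀ i j, c i ≠ w j)
    (b : Fin k → Ω) : sym (zz a w w' n) c b ∈ N := by
  unfold zz
  apply sym_mul_right_mem
  intro g hg
  have hgw : ∀ j, (g : Perm Ω) (w j) = w j := by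
    intro j
    apply ud_on a w' g hg
    rw [mem_lets]
    rintro (⟨i, hi⟩ | ⟨i, hi⟩)
    · exact h.ne i j hi
    · exact hw j i hi.symm
  have hc' : Function.Injective (mv g c) := mv_inj g hc
  have hcw' : ∀ i j, mv g c i ≠ w j := by
    intro i j hij
    rw [← hgw j] at hij
    exact hcw i j ((g : Perm Ω).injective hij)
  generalize mv g c = c' at hc' hcw'
  have hexp : ud K a w * emb K a n = ∑ σ : Perm (Fin d), n.coeff σ •
      (ud K a w * MonoidAlgebra.of K (FSym Ω) (rho a σ)) := by
    conv_lhs => rw [expand n (subset_univ _)]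
    rw [map_sum, mul_sum]
    apply sum_congr rfl
    intro σ _
    rw [map_smul, emb_of, mul_smul_comm]
  rw [hexp, sym_sum]
  simp only [sym_smul, sym_mul_of]
  by_cases hall : ∀ i, ∃ j, c' j = a i
  · choose f' hf' using hall
    have hf'i : Function.Injective f' := by
      intro i j hij
      apply a.injective
      rw [← hf' i, ← hf' j, hij]
    have h1 : ∀ σ : Perm (Fin d), mv (rho a σ) c' =
        c' ∘ (σ.viaFintypeEmbedding ⟨f', hf'i⟩) := by
      intro σ
      funext j
      by_cases hj : j ∈ Set.range f'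
      · obtain ⟨i, rfl⟩ := hj
        have h2 : σ.viaFintypeEmbedding ⟨f', hf'i⟩ (f' i) = f' (σ i) :=
          Perm.viaFintypeEmbedding_apply_image σ ⟨f', hf'i⟩ i
        rw [mv_apply, Function.comp_apply, h2, hf', hf', rho_apply]
      · have h2 : σ.viaFintypeEmbedding ⟨f', hf'i⟩ j = j :=
          Perm.viaFintypeEmbedding_apply_notMem_range σ ⟨f', hf'i⟩ hj
        rw [mv_apply, Function.comp_apply, h2]
        apply rho_fix
        intro i hi
        apply hj
        exact ⟨i, hc' ((hf' i).trans hi)⟩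
    have h3 : ∑ σ : Perm (Fin d), n.coeff σ • sym (ud K a w) (mv (rho a σ) c') b =
        sym (ud K a w) c' b * incl ⟨f', hf'i⟩ n := by
      rw [incl_eq_sum, mul_sum]
      apply sum_congr rfl
      intro σ _
      rw [h1, sym_comp_right, mul_smul_comm]
    rw [h3]
    exact N.mul_mem_left _ _ (incl_mem hn _)
  · push Not at hall
    obtain ⟨i, hi⟩ := hall
    apply sum_mem_ideal
    intro σ _
    apply smul_mem
    have h1 := sym_mul_ud (K := K) h 1 (mv (rho a σ) c') b (σ i) ?_ ?_
    · rw [one_mul] at h1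
      rw [h1]
      exact N.zero_mem
    · intro j hj
      rw [← rho_apply a σ i] at hj
      exact hi j ((rho a σ : Perm Ω).injective hj)
    · intro j hj
      have h2 : (rho a σ : Perm Ω) (w (σ i)) = w (σ i) := rho_fix a σ (fun l => h.ne l _)
      rw [← h2] at hj
      exact hcw' j (σ i) ((rho a σ : Perm Ω).injective hj)

/-- `k = d` in `sym_zz_mem` (`incl (refl) n = n`); if `c` contains a letter of `w` then it misses a pair
of `a`, `w'` (`d` letters, `d` pairs): `sym_mul_ud` -/
theorem zz_mem_PI {N : TwoSidedIdeal (SAlg K d)} {n : SAlg K d} (hn : n ∈ N) {a : Fin d ↪ Ω}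
    {w w' : Fin d → Ω} (h : Gen a w) (h' : Gen a w') (hw : ∀ i j, w i ≠ w' j) :
    zz a w w' n ∈ PI K Ω N := by
  classical
  rw [mem_PI]
  intro c b hc hb
  have hn' : incl (Function.Embedding.refl (Fin d)) n ∈ N := by
    have h1 : incl (Function.Embedding.refl (Fin d)) n = n := by
      rw [incl_eq_sum]
      conv_rhs => rw [expand n (subset_univ _)]
      apply sum_congr rfl
      intro σ _
      have h2 : σ.viaFintypeEmbedding (Function.Embedding.refl (Fin d)) = σ := by
        apply Equiv.ext
        intro x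
        exact Perm.viaFintypeEmbedding_apply_image σ (Function.Embedding.refl (Fin d)) x
      rw [h2]
    rw [h1]
    exact hn
  by_cases hcw : ∀ i j, c i ≠ w j
  · exact sym_zz_mem hn' h h' hw hc hcw b
  · push Not at hcw
    obtain ⟨i₀, j₀, h0⟩ := hcw
    -- some pair of `a`, `w'` is missed
    have hmiss : ∃ i, (∀ j, c j ≠ a i) ∧ ∀ j, c j ≠ w' i := by
      by_contra hcon
      push Not at hcon
      have h1 : ∀ i, ∃ j, c j = a i ∨ c j = w' i := by
        intro i
        by_cases h2 : ∀ j, c j ≠ a i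
        · obtain ⟨j, hj⟩ := hcon i h2
          exact ⟨j, Or.inr hj⟩
        · push Not at h2
          obtain ⟨j, hj⟩ := h2
          exact ⟨j, Or.inl hj⟩
      choose f hf using h1
      have hfi : Function.Injective f := by
        intro i j hij
        have h2 := hf i
        have h3 := hf j
        rw [← hij] at h3
        rcases h2 with h2 | h2 <;> rcases h3 with h3 | h3
        · exact h'.inj_a (h2.symm.trans h3)
        · exact absurd (h2.symm.trans h3) (h'.ne i j)
        · exact absurd (h3.symm.trans h2) (h'.ne j i)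
        · exact h'.inj_w (h2.symm.trans h3)
      have hfs : Function.Surjective f := (Finite.injective_iff_surjective.mp hfi)
      obtain ⟨i, hi⟩ := hfs i₀
      rcases hf i with h2 | h2
      · rw [hi, h0] at h2
        exact h.ne i j₀ h2.symm
      · rw [hi, h0] at h2
        exact hw j₀ i h2
    obtain ⟨i, hi, hi'⟩ := hmiss
    unfold zz
    rw [sym_mul_ud h' _ c b i hi hi']
    exact N.zero_mem

end SmallPrime
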