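import Pool.Agent.Lib.MP_a8d7f7_al.P.U0b

/-!
# MP_a8d7f7_al, prime ideals of small growth: reduction to zz (module U2)
-/

set_option autoImplicit false
set_option linter.unusedSectionVars false
set_option linter.unusedVariables false

namespace SmallPrime

open Finset Equiv FinSym
open ThreeLetter (Ideals)
open Rank2 (On sw e IsDiff)

variable {K : Type*} [Field K] {Ω : Type*} [DecidableEq Ω] {d : ℕ}

/-- `(1 - h) * ud a w' ∈ P` if `h` fixes the letters `a`, `w'` and `P` contains the products of `d + 1`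
differences. Induction over `h` (`Rank2.fsym_induction`, with a finite set `D` disjoint from the letters
`a`, `w'`): `1 - t h = (1 - t) + t (1 - h)` and `(1 - t) * ud a w'` is a product of `d + 1`
differences. -/
theorem fix_mul_ud {P : Ideals K Ω} (hP : ∀ (S : Finset Ω) (u : MonoidAlgebra K (FSym Ω)),
      IsDiff K (d + 1) S u → u ∈ P) {a w' : Fin d → Ω} (h' : Gen a w') {h : FSym Ω}
    (ha : ∀ i, (h : Perm Ω) (a i) = a i) (hw : ∀ i, (h : Perm Ω) (w' i) = w' i) :
    ud K a w' - MonoidAlgebra.of K (FSym Ω) h * ud K a w' ∈ P := by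
  classical
  -- the moved letters
  have hfin : {x | (h : Perm Ω) x ≠ x}.Finite := h.2
  set D : Finset Ω := hfin.toFinset with hD
  have hmem : ∀ z, z ∈ D ↔ (h : Perm Ω) z ≠ z := by
    intro z
    rw [hD, Set.Finite.mem_toFinset]
    rfl
  have hDl : ∀ z ∈ D, z ∉ lets a w' := by
    intro z hz hz'
    rw [hmem] at hz
    rcases mem_lets.mp hz' with ⟨i, rfl⟩ | ⟨i, rfl⟩
    · exact hz (ha i)
    · exact hz (hw i)
  refine Rank2.fsym_induction (D := D) (q := fun h => ud K a w' -
    MonoidAlgebra.of K (FSym Ω) h * ud K a w' ∈ P) ?_ ?_ (g := h) ?_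
  · rw [map_one, one_mul, sub_self]
    exact P.zero_mem
  · intro x hx y hy hxy g _ ih
    have h1 : ud K a w' - MonoidAlgebra.of K (FSym Ω) (sw x y * g) * ud K a w' =
        e K x y * ud K a w' + MonoidAlgebra.of K (FSym Ω) (sw x y) *
          (ud K a w' - MonoidAlgebra.of K (FSym Ω) g * ud K a w') := by
      unfold Rank2.e
      rw [map_mul]
      noncomm_ring
    rw [h1]
    refine P.add_mem ?_ (P.mul_mem_left _ _ ih)
    exact hP _ _ (IsDiff.succ _ _ _ _ _ hxy (hDl x hx) (hDl y hy) (ud_isDiff h'))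
  · intro z hz
    by_contra h1
    exact hz ((hmem z).mpr h1)

/-- **Reduction to `zz`.** By linearity `y = g` (`y` is a combination of elements `g` moving only letters
of `F`, `FinSym.expand`; both sides are linear in `y`). If `g ∘ a = b ∘ σ` for some `σ`, then
`g = π * rho a σ * h` with `h = (rho a σ)⁻¹ π⁻¹ g` fixing the letters `a`, `w'`; so
`ud b w * g * ud a w' ≡ ud b w * π * rho a σ * ud a w' = π * ud a w * rho a σ * ud a w'` modulo `P`
(`fix_mul_ud`, `of_mul_ud`). Otherwise `sym g a b = 0` and some `g (a i)` is not in `b`; then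
`ud b w * g * ud a w' = ud b w * ud (g a) w' * g` and `ud (g a) w' = (1 - (g (a i), w' i)) * r`
(`ud_factor`), and `ud b w * (1 - (g (a i), w' i))` is a product of `d + 1` differences (commute it to
the front, `Rank2.e_mul_comm`), so it is in `P`. -/
theorem reduce_zz {P : Ideals K Ω} (hP : ∀ (S : Finset Ω) (u : MonoidAlgebra K (FSym Ω)),
      IsDiff K (d + 1) S u → u ∈ P) {a b : Fin d ↪ Ω} {w w' : Fin d → Ω} (haw : Gen a w)
    (haw' : Gen a w') (hbw : Gen b w) (hbw' : Gen b w') (hww' : ∀ i j, w i ≠ w' j) {F : Finset Ω}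
    {y : MonoidAlgebra K (FSym Ω)} (hy : On F y) (hwF : ∀ i, w i ∉ F) (hw'F : ∀ i, w' i ∉ F)
    {π : FSym Ω} (hπ : ∀ i, (π : Perm Ω) (a i) = b i) (hπw : ∀ i, (π : Perm Ω) (w i) = w i)
    (hπw' : ∀ i, (π : Perm Ω) (w' i) = w' i) :
    ud K b w * y * ud K a w' - MonoidAlgebra.of K (FSym Ω) π * zz a w w' (sym y a b) ∈ P := by
  classical
  have hb : mv π (a : Fin d → Ω) = b := funext hπ
  have hw : mv π w = w := funext hπw
  have hπu : ud K (b : Fin d → Ω) w * MonoidAlgebra.of K (FSym Ω) π =
      MonoidAlgebra.of K (FSym Ω) π * ud K (a : Fin d → Ω) w := by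
    rw [of_mul_ud, hb, hw]
  refine Rank2.On.induction (D := F) (q := fun y => ud K b w * y * ud K a w' -
    MonoidAlgebra.of K (FSym Ω) π * zz a w w' (sym y a b) ∈ P) ?_ ?_ ?_ ?_ hy
  · rw [sym_zero]
    unfold zz
    rw [map_zero, mul_zero, zero_mul, mul_zero, zero_mul, mul_zero, sub_zero]
    exact P.zero_mem
  · intro y z hy hz
    have h1 : ud K b w * (y + z) * ud K a w' -
        MonoidAlgebra.of K (FSym Ω) π * zz a w w' (sym (y + z) a b) =
        (ud K b w * y * ud K a w' - MonoidAlgebra.of K (FSym Ω) π * zz a w w' (sym y a b)) +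
        (ud K b w * z * ud K a w' - MonoidAlgebra.of K (FSym Ω) π * zz a w w' (sym z a b)) := by
      unfold zz
      rw [sym_add, map_add]
      noncomm_ring
    rw [h1]
    exact P.add_mem hy hz
  · intro r y hy
    have h1 : ud K b w * (r • y) * ud K a w' -
        MonoidAlgebra.of K (FSym Ω) π * zz a w w' (sym (r • y) a b) =
        r • (ud K b w * y * ud K a w' - MonoidAlgebra.of K (FSym Ω) π * zz a w w' (sym y a b)) := by
      unfold zz
      rw [sym_smul, map_smul]
      simp only [mul_smul_comm, smul_mul_assoc, smul_sub]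
    rw [h1]
    exact Rank2.smul_mem' P r hy
  · intro g hg
    have hgw' : ∀ i, (g : Perm Ω) (w' i) = w' i := fun i => hg _ (hw'F i)
    have hgw : ∀ i, (g : Perm Ω) (w i) = w i := fun i => hg _ (hwF i)
    by_cases hex : ∃ σ : Perm (Fin d), ∀ i, (g : Perm Ω) (a i) = b (σ i)
    · obtain ⟨σ, hσ⟩ := hex
      rw [sym_of b.injective hσ]
      unfold zz
      rw [emb_of]
      set h : FSym Ω := (rho a σ)⁻¹ * π⁻¹ * g with hh
      have hg' : g = π * rho a σ * h := by
        rw [hh]; group
      have hrw : ∀ i, (rho a σ : Perm Ω) (w' i) = w' i :=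
        fun i => rho_fix a σ (fun j => haw'.ne j i)
      have hha : ∀ i, (h : Perm Ω) (a i) = a i := by
        intro i
        change (rho a σ : Perm Ω)⁻¹ ((π : Perm Ω)⁻¹ ((g : Perm Ω) (a i))) = a i
        rw [Perm.inv_eq_iff_eq, Perm.inv_eq_iff_eq, rho_apply, hπ, hσ]
      have hhw : ∀ i, (h : Perm Ω) (w' i) = w' i := by
        intro i
        change (rho a σ : Perm Ω)⁻¹ ((π : Perm Ω)⁻¹ ((g : Perm Ω) (w' i))) = w' i
        rw [Perm.inv_eq_iff_eq, Perm.inv_eq_iff_eq, hrw, hπw', hgw']
      have h1 := fix_mul_ud hP haw' hha hhw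
      have h2 : ud K b w * MonoidAlgebra.of K (FSym Ω) g * ud K a w' -
          MonoidAlgebra.of K (FSym Ω) π * (ud K a w * MonoidAlgebra.of K (FSym Ω) (rho a σ) *
            ud K a w') = -(MonoidAlgebra.of K (FSym Ω) π * ud K a w *
            MonoidAlgebra.of K (FSym Ω) (rho a σ) *
            (ud K a w' - MonoidAlgebra.of K (FSym Ω) h * ud K a w')) := by
        rw [hg', map_mul, map_mul]
        rw [← mul_assoc (ud K b w), ← mul_assoc (ud K b w), hπu]
        noncomm_ring
      rw [h2]
      exact P.neg_mem (P.mul_mem_left _ _ h1)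
    · have h0 : sym (MonoidAlgebra.of K (FSym Ω) g) a b = 0 := by
        apply sym_of_eq_zero
        intro σ
        by_contra hcon
        push Not at hcon
        exact hex ⟨σ, hcon⟩
      rw [h0]
      unfold zz
      rw [map_zero, mul_zero, zero_mul, mul_zero, sub_zero]
      have hex2 : ∃ i, ∀ j, b j ≠ (g : Perm Ω) (a i) := by
        by_contra hcon
        push Not at hcon
        apply hex
        choose f hf using hcon
        have hfi : Function.Injective f := by
          intro i j hij
          apply a.injective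
          apply (g : Perm Ω).injective
          rw [← hf i, ← hf j, hij]
        refine ⟨Equiv.ofBijective f (Finite.injective_iff_bijective.mp hfi), fun i => ?_⟩
        exact (hf i).symm
      obtain ⟨i, hi⟩ := hex2
      have hmw' : mv g w' = w' := funext hgw'
      have hmw : mv g w = w := funext hgw
      have hgen : Gen (mv g a) w' := by
        have := haw'.mv g
        rwa [hmw'] at this
      obtain ⟨r, -, hr, -⟩ := ud_factor (K := K) hgen i
      have h2 : ud K b w * MonoidAlgebra.of K (FSym Ω) g * ud K a w' =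
          (e K (mv g a i) (w' i) * ud K b w) * (r * MonoidAlgebra.of K (FSym Ω) g) := by
        rw [mul_assoc, of_mul_ud, hmw', hr, Rank2.e_mul_comm (ud_on (K := K) b w)]
        · simp only [mul_assoc]
        · rw [mem_lets]
          rintro (⟨j, hj⟩ | ⟨j, hj⟩)
          · exact hi j hj
          · have h3 : (g : Perm Ω) (w j) = (g : Perm Ω) (a i) := by rw [hgw, hj]; rfl
            exact haw.ne i j ((g : Perm Ω).injective h3).symm
        · rw [mem_lets]
          rintro (⟨j, hj⟩ | ⟨j, hj⟩)
          · exact hbw'.ne j i hj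
          · exact hww' j i hj
      rw [h2]
      apply P.mul_mem_right
      refine hP _ _ (IsDiff.succ _ _ _ _ _ (hgen.ne i i) ?_ ?_ (ud_isDiff hbw))
      · rw [mem_lets]
        rintro (⟨j, hj⟩ | ⟨j, hj⟩)
        · exact hi j hj
        · have h3 : (g : Perm Ω) (w j) = (g : Perm Ω) (a i) := by rw [hgw, hj]; rfl
          exact haw.ne i j ((g : Perm Ω).injective h3).symm
      · rw [mem_lets]
        rintro (⟨j, hj⟩ | ⟨j, hj⟩)
        · exact hbw'.ne j i hj
        · exact hww' j i hj

end SmallPrime
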