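import Pool.Agent.Lib.MP_a8d7f7_al.P.U1c
import Pool.Agent.Lib.MP_a8d7f7_al.P.U2
import Pool.Agent.Lib.MP_a8d7f7_al.P.S2

/-!
# MP_a8d7f7_al, prime ideals of small growth: the ideal of the symbols (module C1)
-/

set_option autoImplicit false
set_option linter.unusedSectionVars false
set_option linter.unusedVariables false

namespace SmallPrime

open Finset Equiv FinSym
open ThreeLetter (Ideals)
open Rank2 (On sw e IsDiff)

variable {K : Type*} [Field K] {Ω : Type*} [DecidableEq Ω] {d : ℕ}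

theorem C1_mv_rho (a : Fin d ↪ Ω) (σ : Perm (Fin d)) : mv (rho a σ) a = a ∘ σ := by
  funext i
  exact rho_apply a σ i

theorem C1_emb_mul (a : Fin d ↪ Ω) (m : SAlg K d) (y : MonoidAlgebra K (FSym Ω)) :
    sym (emb K a m * y) a a = m * sym y a a := by
  induction m using MonoidAlgebra.induction_on with
  | of σ =>
    rw [emb_of, sym_of_mul, ← map_inv, C1_mv_rho, sym_comp_left, inv_inv]
  | add f g hf hg => rw [map_add, add_mul, sym_add, hf, hg, add_mul]
  | smul r f hf => rw [map_smul, smul_mul_assoc, sym_smul, hf, smul_mul_assoc]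

theorem C1_mul_emb (a : Fin d ↪ Ω) (m : SAlg K d) (y : MonoidAlgebra K (FSym Ω)) :
    sym (y * emb K a m) a a = sym y a a * m := by
  induction m using MonoidAlgebra.induction_on with
  | of σ => rw [emb_of, sym_mul_of, C1_mv_rho, sym_comp_right]
  | add f g hf hg => rw [map_add, mul_add, sym_add, hf, hg, mul_add]
  | smul r f hf => rw [map_smul, mul_smul_comm, sym_smul, hf, mul_smul_comm]

/-- the symbols at `a` of the elements of `P` -/
noncomputable def symIdeal (P : Ideals K Ω) (a : Fin d ↪ Ω) : TwoSidedIdeal (SAlg K d) :=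
  TwoSidedIdeal.mk' {n | ∃ y ∈ P, sym y a a = n}
    ⟨0, P.zero_mem, by exact sym_zero _ _⟩
    (by
      rintro x y ⟨u, hu, rfl⟩ ⟨v, hv, rfl⟩
      exact ⟨u + v, P.add_mem hu hv, sym_add _ _ _ _⟩)
    (by
      rintro x ⟨u, hu, rfl⟩
      refine ⟨-u, P.neg_mem hu, ?_⟩
      have h1 : -u = (-1 : K) • u := by rw [neg_smul, one_smul]
      rw [h1, sym_smul, neg_smul, one_smul])
    (by
      -- left multiplication: by linearity (induction on the group algebra) by `σ`:
      -- `sym (rho a σ * y) a a = σ * sym y a a`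
      rintro x y ⟨u, hu, rfl⟩
      exact ⟨emb K a x * u, P.mul_mem_left _ _ hu, C1_emb_mul a x u⟩)
    (by
      rintro x y ⟨u, hu, rfl⟩
      exact ⟨u * emb K a y, P.mul_mem_right _ _ hu, C1_mul_emb a y u⟩)

theorem mem_symIdeal {P : Ideals K Ω} {a : Fin d ↪ Ω} {n : SAlg K d} :
    n ∈ symIdeal P a ↔ ∃ y ∈ P, sym y a a = n := by
  unfold symIdeal
  rw [TwoSidedIdeal.mem_mk']
  rfl

theorem C1_conj (y : MonoidAlgebra K (FSym Ω)) (g h : FSym Ω) (a b : Fin d → Ω) :
    sym (MonoidAlgebra.of K (FSym Ω) h⁻¹ * y * MonoidAlgebra.of K (FSym Ω) g) a b =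
      sym y (mv g a) (mv h b) := by
  rw [sym_mul_of, sym_of_mul, inv_inv]

/-- all symbols of elements of `P` lie in `symIdeal P a`: move the tuples with `exists_mv` -/
theorem sym_mem_symIdeal {P : Ideals K Ω} (a : Fin d ↪ Ω) {y : MonoidAlgebra K (FSym Ω)} (hy : y ∈ P)
    {b c : Fin d → Ω} (hb : Function.Injective b) (hc : Function.Injective c) :
    sym y b c ∈ symIdeal P a := by
  obtain ⟨g, hg⟩ := exists_mv a b a.injective hb
  obtain ⟨h, hh⟩ := exists_mv a c a.injective hc
  rw [mem_symIdeal]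
  refine ⟨MonoidAlgebra.of K (FSym Ω) h⁻¹ * y * MonoidAlgebra.of K (FSym Ω) g,
    P.mul_mem_right _ _ (P.mul_mem_left _ _ hy), ?_⟩
  have e1 : mv g a = b := funext hg
  have e2 : mv h a = c := funext hh
  rw [C1_conj, e1, e2]

theorem le_PI_symIdeal (P : Ideals K Ω) (a : Fin d ↪ Ω) : P ≤ PI K Ω (symIdeal P a) := by
  intro y hy
  rw [mem_PI]
  intro b c hb hc
  exact sym_mem_symIdeal a hy hb hc

theorem C1_comm (b : Fin d ↪ Ω) {g : FSym Ω} (hg : ∀ i, (g : Perm Ω) (b i) = b i) (n : SAlg K d) :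
    MonoidAlgebra.of K (FSym Ω) g * emb K b n = emb K b n * MonoidAlgebra.of K (FSym Ω) g := by
  induction n using MonoidAlgebra.induction_on with
  | of σ =>
    rw [emb_of, ← map_mul, ← map_mul]
    congr 1
    apply Subtype.ext
    apply Equiv.ext
    intro z
    show (g : Perm Ω) ((rho b σ : Perm Ω) z) = (rho b σ : Perm Ω) ((g : Perm Ω) z)
    by_cases hz : ∃ i, b i = z
    · obtain ⟨i, rfl⟩ := hz
      rw [rho_apply, hg, hg, rho_apply]
    · push Not at hz
      have h1 : ∀ i, b i ≠ (g : Perm Ω) z := by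
        intro i hi
        rw [← hg i] at hi
        exact hz i ((g : Perm Ω).injective hi)
      rw [rho_fix b σ hz, rho_fix b σ h1]
  | add f h hf hh => rw [map_add, mul_add, add_mul, hf, hh]
  | smul r f hf => rw [map_smul, mul_smul_comm, smul_mul_assoc, hf]

theorem C1_inj3 {a : Fin d → Ω} {w w' : Fin d → Ω} (h : Gen a w) (h' : Gen a w')
    (hw : ∀ i j, w i ≠ w' j) : Function.Injective (Sum.elim a (Sum.elim w w')) := by
  refine Function.Injective.sumElim h.inj_a (Function.Injective.sumElim h.inj_w h'.inj_w hw) ?_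
  rintro i (j | j)
  · exact h.ne i j
  · exact h'.ne i j

/-- `n ∈ symIdeal P a` implies `zz a w w' n ∈ P`: write `n = sym y a a` with `y ∈ P`, choose `v`, `v'`
outside the letters of `y`; `reduce_zz` (with `π = 1`) gives `zz a v v' n ∈ P`, and `zz a w w' n` is
conjugate to it by an element fixing the letters `a` and moving `v`, `v'` to `w`, `w'`
(`exists_mv`). Also for another tuple `b`: `n = sym y a a` is also a symbol at `b` of an element of
`P` (`mem_symIdeal`, `sym_mem_symIdeal`). -/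
theorem zz_mem [Infinite Ω] {P : Ideals K Ω} (hP : ∀ (S : Finset Ω) (u : MonoidAlgebra K (FSym Ω)),
      IsDiff K (d + 1) S u → u ∈ P) {a : Fin d ↪ Ω} {n : SAlg K d} (hn : n ∈ symIdeal P a)
    {b : Fin d ↪ Ω} {w w' : Fin d → Ω} (h : Gen b w) (h' : Gen b w') (hw : ∀ i j, w i ≠ w' j) :
    zz b w w' n ∈ P := by
  have hn' : n ∈ symIdeal P b := by
    obtain ⟨y, hy, rfl⟩ := mem_symIdeal.1 hn
    exact sym_mem_symIdeal b hy a.injective a.injective
  obtain ⟨y, hy, rfl⟩ := mem_symIdeal.1 hn'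
  obtain ⟨F, hF⟩ := Rank2.exists_On y
  obtain ⟨v, hv, hv2⟩ := exists_tuple (Ω := Ω) d (F ∪ univ.image b)
  obtain ⟨v', hv', hv2'⟩ := exists_tuple (Ω := Ω) d (F ∪ univ.image b ∪ univ.image v)
  have g1 : Gen b v := ⟨b.injective, hv, fun i j hij => hv2 j (mem_union_right _
    (mem_image.2 ⟨i, mem_univ _, hij⟩))⟩
  have g2 : Gen b v' := ⟨b.injective, hv', fun i j hij => hv2' j (mem_union_left _
    (mem_union_right _ (mem_image.2 ⟨i, mem_univ _, hij⟩)))⟩
  have g3 : ∀ i j, v i ≠ v' j := fun i j hij => hv2' j (mem_union_right _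
    (mem_image.2 ⟨i, mem_univ _, hij⟩))
  have h1 := reduce_zz hP g1 g2 g1 g2 g3 hF (fun i hi => hv2 i (mem_union_left _ hi))
    (fun i hi => hv2' i (mem_union_left _ (mem_union_left _ hi))) (π := 1) (fun _ => rfl)
    (fun _ => rfl) (fun _ => rfl)
  have h2 : ud K b v * y * ud K b v' ∈ P := P.mul_mem_right _ _ (P.mul_mem_left _ _ hy)
  have h3 : zz b v v' (sym y b b) ∈ P := by
    have h4 := P.sub_mem h2 h1
    rw [sub_sub_cancel, map_one, one_mul] at h4
    exact h4
  obtain ⟨g, hg⟩ := exists_mv (Sum.elim b (Sum.elim v v')) (Sum.elim b (Sum.elim w w'))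
    (C1_inj3 g1 g2 g3) (C1_inj3 h h' hw)
  have k1 : ∀ i, (g : Perm Ω) (b i) = b i := fun i => hg (Sum.inl i)
  have k2 : mv g v = w := funext fun i => hg (Sum.inr (Sum.inl i))
  have k3 : mv g v' = w' := funext fun i => hg (Sum.inr (Sum.inr i))
  have k4 : mv g b = b := funext k1
  have e1 : zz b w w' (sym y b b) * MonoidAlgebra.of K (FSym Ω) g =
      MonoidAlgebra.of K (FSym Ω) g * zz b v v' (sym y b b) := by
    unfold zz
    have h5 := of_mul_ud (K := K) g b v
    have h6 := of_mul_ud (K := K) g b v'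
    rw [k4, k2] at h5
    rw [k4, k3] at h6
    obtain ⟨E, hE⟩ : ∃ E, E = emb K b (sym y b b) := ⟨_, rfl⟩
    have h7 := C1_comm b k1 (sym y b b)
    rw [← hE] at h7 ⊢
    calc ud K b w * E * ud K b w' * MonoidAlgebra.of K (FSym Ω) g
        = ud K b w * E * (ud K b w' * MonoidAlgebra.of K (FSym Ω) g) := by rw [mul_assoc]
      _ = ud K b w * (E * MonoidAlgebra.of K (FSym Ω) g) * ud K b v' := by
        rw [← h6]
        simp only [mul_assoc]
      _ = (ud K b w * MonoidAlgebra.of K (FSym Ω) g) * E * ud K b v' := by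
        rw [← h7]
        simp only [mul_assoc]
      _ = MonoidAlgebra.of K (FSym Ω) g * (ud K b v * E * ud K b v') := by
        rw [← h5]
        simp only [mul_assoc]
  have h7 : zz b w w' (sym y b b) * MonoidAlgebra.of K (FSym Ω) g *
      MonoidAlgebra.of K (FSym Ω) g⁻¹ ∈ P := by
    rw [e1]
    exact P.mul_mem_right _ _ (P.mul_mem_left _ _ h3)
  rw [mul_assoc, ← map_mul, mul_inv_cancel, map_one, mul_one] at h7
  exact h7

end SmallPrime
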