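import Pool.Agent.Lib.MP_a8d7f7_al.P.S1

/-!
# MP_a8d7f7_al, prime ideals of small growth: products of symbols (module S1b)
-/

set_option autoImplicit false
set_option linter.unusedSectionVars false
set_option linter.unusedVariables false

namespace SmallPrime

open Finset Equiv FinSym
open ThreeLetter (Ideals)
open Rank2 (On sw e)

variable {K : Type*} [Field K] {Ω : Type*} [DecidableEq Ω] {d : ℕ}

/-- one orbit -/
theorem sym_mul_orbit (y z : MonoidAlgebra K (FSym Ω)) (a b : Fin d → Ω) {r : Fin d → Ω}
    (hr : Function.Injective r) [DecidablePred fun g : FSym Ω => ∃ σ : Perm (Fin d), mv g a = r ∘ σ] :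
    sym y r b * sym z a r =
      ∑ g ∈ z.coeff.support.filter (fun g : FSym Ω => ∃ σ : Perm (Fin d), mv g a = r ∘ σ),
        z.coeff g • sym y (mv g a) b := by
  classical
  have h1 : ∀ σ : Perm (Fin d), sym y r b * MonoidAlgebra.single σ
      (∑ g ∈ z.coeff.support.filter (fun g : FSym Ω => ∀ i, (g : Perm Ω) (a i) = r (σ i)),
        z.coeff g) = ∑ g ∈ z.coeff.support, if mv g a = r ∘ σ then z.coeff g • sym y (mv g a) b
          else 0 := by
    intro σ
    rw [← sum_filter]
    have h2 : z.coeff.support.filter (fun g : FSym Ω => ∀ i, (g : Perm Ω) (a i) = r (σ i)) =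
        z.coeff.support.filter (fun g : FSym Ω => mv g a = r ∘ σ) := by
      apply filter_congr
      intro g _
      exact ⟨fun h => funext h, fun h i => congrFun h i⟩
    rw [h2]
    have h3 : MonoidAlgebra.single σ (∑ g ∈ z.coeff.support.filter
        (fun g : FSym Ω => mv g a = r ∘ σ), z.coeff g) =
        (∑ g ∈ z.coeff.support.filter (fun g : FSym Ω => mv g a = r ∘ σ), z.coeff g) •
          MonoidAlgebra.of K (Perm (Fin d)) σ := by
      rw [MonoidAlgebra.of_apply, MonoidAlgebra.smul_single', mul_one]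
    rw [h3, mul_smul_comm, ← sym_comp_right, sum_smul]
    apply sum_congr rfl
    intro g hg
    rw [(mem_filter.mp hg).2]
  unfold sym at *
  rw [mul_sum, sum_congr rfl (fun σ _ => h1 σ), sum_comm, sum_filter]
  apply sum_congr rfl
  intro g _
  by_cases hg : ∃ σ : Perm (Fin d), mv g a = r ∘ σ
  · rw [if_pos hg]
    obtain ⟨σ, hσ⟩ := hg
    rw [sum_eq_single σ]
    · rw [if_pos hσ]
    · intro τ _ hτ
      rw [if_neg]
      intro h
      apply hτ
      apply Equiv.ext
      intro i
      apply hr
      have := congrFun (h.symm.trans hσ) i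
      exact this
    · intro h
      exact absurd (mem_univ _) h
  · rw [if_neg hg]
    apply sum_eq_zero
    intro σ _
    rw [if_neg (fun h => hg ⟨σ, h⟩)]

/-- tuples with the same letters -/
theorem exists_perm_of_image {c r : Fin d → Ω} (hc : Function.Injective c)
    (hr : Function.Injective r) (h : univ.image c = univ.image r) :
    ∃ σ : Perm (Fin d), c = r ∘ σ := by
  have h1 : ∀ i, ∃ j, r j = c i := by
    intro i
    have : c i ∈ univ.image r := by
      rw [← h]; exact mem_image_of_mem _ (mem_univ _)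
    obtain ⟨j, -, hj⟩ := mem_image.mp this
    exact ⟨j, hj⟩
  choose f hf using h1
  have hfi : Function.Injective f := by
    intro i j hij
    apply hc
    rw [← hf i, ← hf j, hij]
  refine ⟨Equiv.ofBijective f (Finite.injective_iff_bijective.mp hfi), ?_⟩
  funext i
  exact (hf i).symm

/-- **Product of symbols.** Choose for every tuple `c` a representative `r(c)` of its orbit
`{c ∘ τ}` (`Quotient.out`, or: an enumeration of the set of its letters) and `τ(c)` with
`c = r(c) ∘ τ(c)`. By `sym_mul_right` and `sym_comp_right`,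
`sym (y * z) a b = ∑_g z_g • sym y (r(ga)) b * τ(ga)`; grouping by `r = r(ga)` this is
`∑_r sym y r b * sym z a r`, because `sym z a r = ∑_{g : ga = r ∘ τ} z_g τ`. -/
theorem PI_mul {N₁ N₂ N₃ : TwoSidedIdeal (SAlg K d)} (h : ∀ m ∈ N₁, ∀ n ∈ N₂, m * n ∈ N₃)
    {y z : MonoidAlgebra K (FSym Ω)} (hy : y ∈ PI K Ω N₁) (hz : z ∈ PI K Ω N₂) :
    y * z ∈ PI K Ω N₃ := by
  classical
  rw [mem_PI] at hy hz ⊢
  intro a b ha hb
  rw [sym_mul_right, ← sum_fiberwise_of_maps_to
    (t := z.coeff.support.image fun g => univ.image (mv g a)) (g := fun g => univ.image (mv g a))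
    (fun g hg => mem_image_of_mem _ hg)]
  apply sum_mem_ideal
  intro T hT
  obtain ⟨g₀, hg₀, rfl⟩ := mem_image.mp hT
  have h1 : z.coeff.support.filter (fun g : FSym Ω => univ.image (mv g a) = univ.image (mv g₀ a)) =
      z.coeff.support.filter (fun g : FSym Ω => ∃ σ : Perm (Fin d), mv g a = mv g₀ a ∘ σ) := by
    apply filter_congr
    intro g _
    constructor
    · intro hg
      exact exists_perm_of_image (mv_inj g ha) (mv_inj g₀ ha) hg
    · rintro ⟨σ, hσ⟩
      rw [hσ]
      ext x
      simp only [mem_image, mem_univ, true_and, Function.comp]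
      constructor
      · rintro ⟨i, hi⟩
        exact ⟨σ i, hi⟩
      · rintro ⟨i, hi⟩
        exact ⟨σ.symm i, by rw [Equiv.apply_symm_apply]; exact hi⟩
  rw [h1, ← sym_mul_orbit y z a b (mv_inj g₀ ha)]
  exact h _ (hy _ _ (mv_inj g₀ ha) hb) _ (hz _ _ ha (mv_inj g₀ ha))

end SmallPrime
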