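import Pool.Agent.Lib.MP_a8d7f7_al.P.U3
import Pool.Agent.Lib.MP_a8d7f7_al.P.S2

/-!
# MP_a8d7f7_al, prime ideals of small growth: refinement (module U3b)
-/

set_option autoImplicit false
set_option linter.unusedSectionVars false
set_option linter.unusedVariables false

namespace SmallPrime

open Finset Equiv FinSym
open ThreeLetter (Ideals)
open Rank2 (On sw e IsDiff)

variable {K : Type*} [Field K] {Ω : Type*} [DecidableEq Ω] {d : ℕ}

theorem U3b_inj {a v a' : Fin d → Ω} (h : Gen a v) (ha' : ∀ i, a' i = a i ∨ a' i = v i) :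
    Function.Injective a' := by
  intro i j hij
  rcases ha' i with h1 | h1 <;> rcases ha' j with h2 | h2 <;> rw [h1, h2] at hij
  · exact h.inj_a hij
  · exact absurd hij (h.ne i j)
  · exact absurd hij.symm (h.ne j i)
  · exact h.inj_w hij

theorem U3b_lets {a v a' : Fin d → Ω} (ha' : ∀ i, a' i = a i ∨ a' i = v i) (i : Fin d) :
    a' i ∈ lets a v := by
  rw [mem_lets]
  rcases ha' i with h1 | h1
  · exact Or.inl ⟨i, h1.symm⟩
  · exact Or.inr ⟨i, h1.symm⟩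

/-- **Refinement.** `P` is prime, so `ud a₀ w₀ * g * y ∉ P` for some `g` (`IsPrime.exists_fsym`), hence
`ud b₁ w₁ * y ∉ P` with `b₁ = g⁻¹ a₀`, `w₁ = g⁻¹ w₀` (`of_mul_ud`); likewise
`ud b₁ w₁ * y * ud a₁ v₁ ∉ P` for some `a₁`, `v₁`. Choose `w'` fresh (outside `F` and all letters so
far, `exists_tuple`) and refine on the right: `ud b₁ w₁ * y * ud a w' ∉ P`. Choose `w` fresh (also with
respect to `w'`) and refine on the left: `ud b w * y * ud a w' ∉ P`. The letters of `a` are letters of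
`a₁`, `v₁`, the letters of `b` are letters of `b₁`, `w₁`, so all disjointness conditions hold; `a` is
injective because `Gen a₁ v₁`. -/
theorem exists_refine [Infinite Ω] {P : Ideals K Ω} (hP : IsPrime P)
    (hu : ∃ a w : Fin d → Ω, Gen a w ∧ ud K a w ∉ P) {y : MonoidAlgebra K (FSym Ω)} (hy : y ∉ P)
    (F : Finset Ω) : ∃ (a b : Fin d ↪ Ω) (w w' : Fin d → Ω), Gen a w ∧ Gen a w' ∧ Gen b w ∧ Gen b w' ∧
      (∀ i j, w i ≠ w' j) ∧ (∀ i, w i ∉ F) ∧ (∀ i, w' i ∉ F) ∧ ud K b w * y * ud K a w' ∉ P := by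
  obtain ⟨a0, w0, hG0, h0⟩ := hu
  -- on the left
  obtain ⟨b1, w1, hG1, h1⟩ : ∃ b1 w1 : Fin d → Ω, Gen b1 w1 ∧ ud K b1 w1 * y ∉ P := by
    obtain ⟨g, hg⟩ := hP.exists_fsym h0 hy
    refine ⟨mv g⁻¹ a0, mv g⁻¹ w0, hG0.mv _, fun h1 => hg ?_⟩
    have h2 := of_mul_ud (K := K) g (mv g⁻¹ a0) (mv g⁻¹ w0)
    rw [mv_mv_inv, mv_mv_inv] at h2
    rw [← h2, mul_assoc]
    exact P.mul_mem_left _ _ h1
  -- on the right
  obtain ⟨a1, v1, hG2, h2⟩ : ∃ a1 v1 : Fin d → Ω, Gen a1 v1 ∧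
      ud K b1 w1 * y * ud K a1 v1 ∉ P := by
    obtain ⟨g, hg⟩ := hP.exists_fsym h1 h0
    refine ⟨mv g a0, mv g w0, hG0.mv _, fun h2 => hg ?_⟩
    rw [mul_assoc (ud K b1 w1 * y), of_mul_ud, ← mul_assoc]
    exact P.mul_mem_right _ _ h2
  obtain ⟨w', hw', hw2'⟩ := exists_tuple (Ω := Ω) d (F ∪ lets a1 v1 ∪ lets b1 w1)
  have k1 : ∀ i, w' i ∉ F := fun i hi => hw2' i (mem_union_left _ (mem_union_left _ hi))
  have k2 : ∀ i, w' i ∉ lets a1 v1 := fun i hi =>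
    hw2' i (mem_union_left _ (mem_union_right _ hi))
  have k3 : ∀ i, w' i ∉ lets b1 w1 := fun i hi => hw2' i (mem_union_right _ hi)
  obtain ⟨a, ha, h3⟩ := refine_right (P := P) (ud K b1 w1 * y) hG2 h2 hw'
    (fun i j hij => k2 i (by rw [mem_lets]; exact Or.inl ⟨j, hij.symm⟩))
    (fun i j hij => k2 i (by rw [mem_lets]; exact Or.inr ⟨j, hij.symm⟩))
  obtain ⟨w, hw, hw2⟩ := exists_tuple (Ω := Ω) d (F ∪ lets a1 v1 ∪ lets b1 w1 ∪ univ.image w')
  have l1 : ∀ i, w i ∉ F := fun i hi =>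
    hw2 i (mem_union_left _ (mem_union_left _ (mem_union_left _ hi)))
  have l2 : ∀ i, w i ∉ lets a1 v1 := fun i hi =>
    hw2 i (mem_union_left _ (mem_union_left _ (mem_union_right _ hi)))
  have l3 : ∀ i, w i ∉ lets b1 w1 := fun i hi =>
    hw2 i (mem_union_left _ (mem_union_right _ hi))
  have l4 : ∀ i j, w i ≠ w' j := fun i j hij =>
    hw2 i (mem_union_right _ (mem_image.2 ⟨j, mem_univ _, hij.symm⟩))
  rw [mul_assoc] at h3
  obtain ⟨b, hb, h4⟩ := refine_left (P := P) (y * ud K a w') hG1 h3 hw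
    (fun i j hij => l3 i (by rw [mem_lets]; exact Or.inl ⟨j, hij.symm⟩))
    (fun i j hij => l3 i (by rw [mem_lets]; exact Or.inr ⟨j, hij.symm⟩))
  have ia := U3b_inj hG2 ha
  have ib := U3b_inj hG1 hb
  refine ⟨⟨a, ia⟩, ⟨b, ib⟩, w, w', ⟨ia, hw, fun i j hij => ?_⟩, ⟨ia, hw', fun i j hij => ?_⟩,
    ⟨ib, hw, fun i j hij => ?_⟩, ⟨ib, hw', fun i j hij => ?_⟩, l4, l1, k1, ?_⟩
  · exact l2 j (by rw [← hij]; exact U3b_lets ha i)
  · exact k2 j (by rw [← hij]; exact U3b_lets ha i)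
  · exact l3 j (by rw [← hij]; exact U3b_lets hb i)
  · exact k3 j (by rw [← hij]; exact U3b_lets hb i)
  · rw [mul_assoc]
    exact h4

end SmallPrime
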