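import Pool.Agent.Lib.MP_a8d7f7_al.P.C1
import Pool.Agent.Lib.MP_a8d7f7_al.P.U3b
import Pool.Agent.Lib.MP_a8d7f7_al.P.S1b

/-!
# MP_a8d7f7_al, prime ideals of small growth: the prime ideals containing products of differences (module C1b)
-/

set_option autoImplicit false
set_option linter.unusedSectionVars false
set_option linter.unusedVariables false

namespace SmallPrime

open Finset Equiv FinSym
open ThreeLetter (Ideals)
open Rank2 (On sw e IsDiff)

variable {K : Type*} [Field K] {Ω : Type*} [DecidableEq Ω] {d : ℕ}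

/-- If `y ∈ PI (symIdeal P a)` were not in `P`, `exists_refine` gives `b`, `c`, `w`, `w'` with
`ud c w * y * ud b w' ∉ P`, `w`, `w'` outside the letters of `y`; by `reduce_zz` (`π` from `exists_mv`
with `ι = Fin d ⊕ Fin d ⊕ Fin d`) `zz b w w' (sym y b c) ∉ P`, but `sym y b c ∈ symIdeal P a` and
`zz_mem`. -/
theorem PI_symIdeal_le [Infinite Ω] {P : Ideals K Ω} (hPr : IsPrime P)
    (hP : ∀ (S : Finset Ω) (u : MonoidAlgebra K (FSym Ω)), IsDiff K (d + 1) S u → u ∈ P)
    (hu : ∃ a w : Fin d → Ω, Gen a w ∧ ud K a w ∉ P) (a : Fin d ↪ Ω) :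
    PI K Ω (symIdeal P a) ≤ P := by
  intro y hy
  by_contra hyP
  obtain ⟨F, hF⟩ := Rank2.exists_On y
  obtain ⟨a1, b1, w, w', g1, g2, g3, g4, hw, hwF, hwF', hne⟩ := exists_refine hPr hu hyP F
  obtain ⟨π, hπ⟩ := exists_mv (Sum.elim a1 (Sum.elim w w')) (Sum.elim b1 (Sum.elim w w'))
    (C1_inj3 g1 g2 hw) (C1_inj3 g3 g4 hw)
  have h1 := reduce_zz hP g1 g2 g3 g4 hw hF hwF hwF' (π := π) (fun i => hπ (Sum.inl i))
    (fun i => hπ (Sum.inr (Sum.inl i))) (fun i => hπ (Sum.inr (Sum.inr i)))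
  have h2 := mem_PI.1 hy a1 b1 a1.injective b1.injective
  have h3 := zz_mem hP h2 g1 g2 hw
  apply hne
  have h4 := P.add_mem h1 (P.mul_mem_left (MonoidAlgebra.of K (FSym Ω) π) _ h3)
  rw [sub_add_cancel] at h4
  exact h4

/-- **The prime ideals which contain the products of `d + 1` differences but not those of `d`.**
`N = symIdeal P a`. `N ≠ ⊤` since `PI ⊤ = ⊤`. If `m R n ⊆ N` let `x = zz a w w' m`, `y = zz a w w' n`:
they lie in `PI N₁`, `PI N₂` (`zz_mem_PI`), where `N₁ = {m' | ∀ r, m' * r * n ∈ N}` and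
`N₂ = {n' | ∀ m' ∈ N₁, m' * n' ∈ N}` are two-sided ideals with `m ∈ N₁`, `n ∈ N₂`, `N₁ N₂ ⊆ N`. So
`x * r * y ∈ PI N = P` for all `r` (`PI_mul`); hence `x ∈ P` or `y ∈ P`, and `m = sym x a a` or
`n = sym y a a` is in `N` (`sym_zz`). -/
theorem classify [Infinite Ω] {P : Ideals K Ω} (hPr : IsPrime P)
    (hP : ∀ (S : Finset Ω) (u : MonoidAlgebra K (FSym Ω)), IsDiff K (d + 1) S u → u ∈ P)
    (hu : ∃ a w : Fin d → Ω, Gen a w ∧ ud K a w ∉ P) :
    ∃ N : TwoSidedIdeal (SAlg K d), IsPrime N ∧ P = PI K Ω N := by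
  obtain ⟨a0, ha0, -⟩ := exists_tuple (Ω := Ω) d ∅
  obtain ⟨a, -⟩ : ∃ a : Fin d ↪ Ω, ∀ i, a i = a0 i := ⟨⟨a0, ha0⟩, fun _ => rfl⟩
  have hPI : P = PI K Ω (symIdeal P a) :=
    le_antisymm (le_PI_symIdeal P a) (PI_symIdeal_le hPr hP hu a)
  refine ⟨symIdeal P a, ⟨?_, ?_⟩, hPI⟩
  · intro htop
    apply hPr.1
    rw [eq_top_iff]
    intro y _
    rw [hPI, mem_PI]
    intro b c _ _
    rw [htop]
    trivial
  · intro m n hmn
    let N₁ : TwoSidedIdeal (SAlg K d) := TwoSidedIdeal.mk' {m' | ∀ r, m' * r * n ∈ symIdeal P a}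
      (by
        intro r
        rw [zero_mul, zero_mul]
        exact (symIdeal P a).zero_mem)
      (by
        intro x y hx hy r
        rw [add_mul, add_mul]
        exact (symIdeal P a).add_mem (hx r) (hy r))
      (by
        intro x hx r
        rw [neg_mul, neg_mul]
        exact (symIdeal P a).neg_mem (hx r))
      (by
        intro x y hy r
        rw [mul_assoc x, mul_assoc x]
        exact (symIdeal P a).mul_mem_left _ _ (hy r))
      (by
        intro x y hx r
        rw [mul_assoc x]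
        exact hx (y * r))
    have hN₁ : ∀ x, x ∈ N₁ ↔ ∀ r, x * r * n ∈ symIdeal P a := by
      intro x
      rw [TwoSidedIdeal.mem_mk']
      rfl
    let N₂ : TwoSidedIdeal (SAlg K d) := TwoSidedIdeal.mk'
      {n' | ∀ m' ∈ N₁, m' * n' ∈ symIdeal P a}
      (by
        intro r _
        rw [mul_zero]
        exact (symIdeal P a).zero_mem)
      (by
        intro x y hx hy r hr
        rw [mul_add]
        exact (symIdeal P a).add_mem (hx r hr) (hy r hr))
      (by
        intro x hx r hr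
        rw [mul_neg]
        exact (symIdeal P a).neg_mem (hx r hr))
      (by
        intro x y hy r hr
        rw [← mul_assoc]
        exact hy _ (N₁.mul_mem_right _ _ hr))
      (by
        intro x y hx r hr
        rw [← mul_assoc]
        exact (symIdeal P a).mul_mem_right _ _ (hx r hr))
    have hN₂ : ∀ x, x ∈ N₂ ↔ ∀ m' ∈ N₁, m' * x ∈ symIdeal P a := by
      intro x
      rw [TwoSidedIdeal.mem_mk']
      rfl
    have hm : m ∈ N₁ := (hN₁ m).2 hmn
    have hn : n ∈ N₂ := by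
      rw [hN₂]
      intro m' hm'
      have h1 := (hN₁ m').1 hm' 1
      rw [mul_one] at h1
      exact h1
    obtain ⟨w, hw, hw2⟩ := exists_tuple (Ω := Ω) d (univ.image a)
    obtain ⟨w', hw', hw2'⟩ := exists_tuple (Ω := Ω) d (univ.image a ∪ univ.image w)
    have g1 : Gen a w := ⟨a.injective, hw, fun i j hij => hw2 j
      (mem_image.2 ⟨i, mem_univ _, hij⟩)⟩
    have g2 : Gen a w' := ⟨a.injective, hw', fun i j hij => hw2' j (mem_union_left _
      (mem_image.2 ⟨i, mem_univ _, hij⟩))⟩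
    have g3 : ∀ i j, w i ≠ w' j := fun i j hij => hw2' j (mem_union_right _
      (mem_image.2 ⟨i, mem_univ _, hij⟩))
    have hx := zz_mem_PI hm g1 g2 g3
    have hy := zz_mem_PI hn g1 g2 g3
    have hxy : ∀ r, zz a w w' m * r * zz a w w' n ∈ P := by
      intro r
      rw [hPI]
      exact PI_mul (fun m' hm' n' hn' => (hN₂ n').1 hn' m' hm')
        ((PI K Ω N₁).mul_mem_right _ _ hx) hy
    rcases hPr.2 _ _ hxy with h1 | h1
    · left
      exact mem_symIdeal.2 ⟨_, h1, sym_zz g1 g2 g3 m⟩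
    · right
      exact mem_symIdeal.2 ⟨_, h1, sym_zz g1 g2 g3 n⟩

end SmallPrime
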