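import Pool.Agent.Lib.MP_a8d7f7_al.P.G0

/-!
# MP_a8d7f7_al, prime ideals of small growth: products of differences avoiding letters (module G0b)
-/

set_option autoImplicit false
set_option linter.unusedSectionVars false
set_option linter.unusedVariables false

namespace SmallPrime

open Finset Equiv FinSym
open ThreeLetter (Ideals)
open Rank2 (On sw e IsDiff)

variable {K : Type*} [Field K] {Ω : Type*} [DecidableEq Ω]

theorem G0b_avoid {n : ℕ} {S : Finset Ω} {X : MonoidAlgebra K (FSym Ω)} (h : IsDiff K n S X) :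
    ∀ (c j : ℕ) (T : Finset Ω), n = c + j → T.card ≤ j →
      ∃ (S₁ : Finset Ω) (x₁ r : MonoidAlgebra K (FSym Ω)), S₁ ⊆ S ∧ Disjoint S₁ T ∧
        IsDiff K c S₁ x₁ ∧ On S r ∧ X = r * x₁ := by
  induction h with
  | zero =>
    intro c j T hn hT
    obtain rfl : c = 0 := by omega
    exact ⟨∅, 1, 1, subset_refl _, disjoint_empty_left _, IsDiff.zero, On.one _, (mul_one _).symm⟩
  | succ n S u a b hab ha hb h ih =>
    intro c j T hn hT
    rcases c with _ | c
    · refine ⟨∅, 1, e K a b * u, empty_subset _, disjoint_empty_left _, IsDiff.zero, ?_,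
        (mul_one _).symm⟩
      exact (IsDiff.succ n S u a b hab ha hb h).on
    · by_cases hT' : a ∈ T ∨ b ∈ T
      · obtain ⟨t, ht, htT⟩ : ∃ t, t ∉ S ∧ t ∈ T := by
          rcases hT' with h1 | h1
          · exact ⟨a, ha, h1⟩
          · exact ⟨b, hb, h1⟩
        have hpos : 0 < T.card := card_pos.mpr ⟨t, htT⟩
        obtain ⟨S₁, x₁, r, h1, h2, h3, h4, h5⟩ := ih (c + 1) (j - 1) (T.erase t) (by omega)
          (by rw [card_erase_of_mem htT]; omega)
        refine ⟨S₁, x₁, e K a b * r, h1.trans ((subset_insert _ _).trans (subset_insert _ _)), ?_,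
          h3, ?_, ?_⟩
        · rw [disjoint_left] at h2 ⊢
          intro z hz hzT
          have hzt : z ≠ t := by
            rintro rfl
            exact ht (h1 hz)
          exact h2 hz (mem_erase.mpr ⟨hzt, hzT⟩)
        · exact (Rank2.e_On (mem_insert_self _ _) (mem_insert_of_mem (mem_insert_self _ _))).mul
            (h4.mono ((subset_insert _ _).trans (subset_insert _ _)))
        · rw [h5, mul_assoc]
      · rw [not_or] at hT'
        obtain ⟨S₁, x₁, r, h1, h2, h3, h4, h5⟩ := ih c j T (by omega) hT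
        refine ⟨insert a (insert b S₁), e K a b * x₁, r, ?_, ?_, ?_, ?_, ?_⟩
        · exact insert_subset_insert _ (insert_subset_insert _ h1)
        · rw [disjoint_insert_left, disjoint_insert_left]
          exact ⟨hT'.1, hT'.2, h2⟩
        · exact IsDiff.succ c S₁ x₁ a b hab (fun h => ha (h1 h)) (fun h => hb (h1 h)) h3
        · exact h4.mono ((subset_insert _ _).trans (subset_insert _ _))
        · rw [h5, ← mul_assoc, Rank2.e_mul_comm h4 ha hb, mul_assoc]

/-- more differences: an ideal containing the products of `m` differences contains those of `m + 1` -/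
theorem isDiff_mem_mono {m k : ℕ} (hmk : m ≤ k) {S S' : Finset Ω} {u u' : MonoidAlgebra K (FSym Ω)}
    {P : Ideals K Ω} (hu : IsDiff K m S u) (hP : u ∈ P) (hu' : IsDiff K k S' u') : u' ∈ P := by
  obtain ⟨S₁, x₁, r, -, -, h1, -, rfl⟩ := G0b_avoid hu' m (k - m) ∅ (by omega) (by simp)
  exact P.mul_mem_left _ _ (isDiff_mem_of hu hP h1)

/-- among `c + j` pairs, at least `c` avoid a set `T` of `j` letters. Induction on `IsDiff` (for all
`c`, `j`, `T`): if the first pair meets `T`, drop it and remove one letter of the pair from `T`;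
otherwise keep it if `c > 0` (the case `c = 0` is trivial, `x₁ = 1`). -/
theorem isDiff_avoid {c j : ℕ} {S : Finset Ω} {X : MonoidAlgebra K (FSym Ω)}
    (h : IsDiff K (c + j) S X) (T : Finset Ω) (hT : T.card ≤ j) :
    ∃ (S₁ : Finset Ω) (x₁ r : MonoidAlgebra K (FSym Ω)), S₁ ⊆ S ∧ Disjoint S₁ T ∧
      IsDiff K c S₁ x₁ ∧ X = r * x₁ := by
  obtain ⟨S₁, x₁, r, h1, h2, h3, -, h4⟩ := G0b_avoid h c j T rfl hT
  exact ⟨S₁, x₁, r, h1, h2, h3, h4⟩

end SmallPrime
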