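import Pool.Agent.Lib.MP_a8d7f7_al.P.U0b

/-!
# MP_a8d7f7_al, prime ideals of small growth: refinement of one factor (module U3)
-/

set_option autoImplicit false
set_option linter.unusedSectionVars false
set_option linter.unusedVariables false

namespace SmallPrime

open Finset Equiv FinSym
open ThreeLetter (Ideals)
open Rank2 (On sw e IsDiff)

variable {K : Type*} [Field K] {Ω : Type*} [DecidableEq Ω] {d : ℕ}

theorem sw_eq {x w v : Ω} (hxw : x ≠ w) (hvw : v ≠ w) :
    (sw x w : FSym Ω) = sw x v * sw w v * sw x v := by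
  have h1 := Rank2.conj_sw (sw x v : FSym Ω) w v
  rw [Rank2.sw_inv, Rank2.sw_val, swap_apply_right, swap_apply_of_ne_of_ne hxw.symm hvw.symm,
    Rank2.sw_comm w x] at h1
  exact h1.symm

theorem sw_on {x y : Ω} {D : Finset Ω} (hx : x ∈ D) (hy : y ∈ D) :
    On D (MonoidAlgebra.of K (FSym Ω) (sw x y)) := Rank2.On.of (Rank2.sw_fix hx hy)

/-- `1 - (x w) = (1 - (x v)) + (1 - (w v)) (x v) + (1 - (x v)) (w v) (x v)`, since
`(x w) = (x v) (w v) (x v)` for a letter `v ≠ x, w` -/
theorem e_split_right {x w v : Ω} (hxw : x ≠ w) (hvx : v ≠ x) (hvw : v ≠ w) :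
    ∃ α β : MonoidAlgebra K (FSym Ω), On {x, w, v} α ∧ On {x, w, v} β ∧
      e K x w = e K x v * α + e K w v * β := by
  have hx : x ∈ ({x, w, v} : Finset Ω) := by simp
  have hw : w ∈ ({x, w, v} : Finset Ω) := by simp
  have hv : v ∈ ({x, w, v} : Finset Ω) := by simp
  refine ⟨1 + MonoidAlgebra.of K (FSym Ω) (sw w v) * MonoidAlgebra.of K (FSym Ω) (sw x v),
    MonoidAlgebra.of K (FSym Ω) (sw x v), (Rank2.On.one _).add ((sw_on hw hv).mul (sw_on hx hv)),
    sw_on hx hv, ?_⟩
  unfold Rank2.e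
  rw [sw_eq (v := v) hxw hvw, map_mul, map_mul]
  noncomm_ring

/-- the mirror image -/
theorem e_split_left {x w v : Ω} (hxw : x ≠ w) (hvx : v ≠ x) (hvw : v ≠ w) :
    ∃ α β : MonoidAlgebra K (FSym Ω), On {x, w, v} α ∧ On {x, w, v} β ∧
      e K x w = α * e K x v + β * e K w v := by
  have hx : x ∈ ({x, w, v} : Finset Ω) := by simp
  have hw : w ∈ ({x, w, v} : Finset Ω) := by simp
  have hv : v ∈ ({x, w, v} : Finset Ω) := by simp
  refine ⟨1 + MonoidAlgebra.of K (FSym Ω) (sw x v) * MonoidAlgebra.of K (FSym Ω) (sw w v),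
    MonoidAlgebra.of K (FSym Ω) (sw x v), (Rank2.On.one _).add ((sw_on hx hv).mul (sw_on hw hv)),
    sw_on hx hv, ?_⟩
  unfold Rank2.e
  rw [sw_eq (v := v) hxw hvw, map_mul, map_mul]
  noncomm_ring

/-- **Refinement on the right.** Induction on `d` for all `y`: `y * ud a w = (y * e (a 0) (w 0)) *
ud (tail a) (tail w)`; by induction there is `a'` for the tails with
`y * e (a 0) (w 0) * ud a' (tail v) ∉ P`. The two factors commute. Insert `e_split_right` with
`v = v 0`: one of `y * ud a' (tail v) * e (a 0) (v 0)`, `y * ud a' (tail v) * e (w 0) (v 0)` is not in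
`P` (else the product with `α`, `β` is). Commute back and use `Fin.cons`. -/
theorem refine_right {P : Ideals K Ω} (y : MonoidAlgebra K (FSym Ω)) {a w : Fin d → Ω} (h : Gen a w)
    (hy : y * ud K a w ∉ P) {v : Fin d → Ω} (hv : Function.Injective v) (hva : ∀ i j, v i ≠ a j)
    (hvw : ∀ i j, v i ≠ w j) :
    ∃ a' : Fin d → Ω, (∀ i, a' i = a i ∨ a' i = w i) ∧ y * ud K a' v ∉ P := by
  induction d generalizing y with
  | zero =>
    refine ⟨a, fun i => i.elim0, ?_⟩
    rw [ud_zero] at hy ⊢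
    exact hy
  | succ d ih =>
    rw [ud_succ, ← mul_assoc] at hy
    obtain ⟨a', ha', hy'⟩ := ih (y * e K (a 0) (w 0)) h.tail hy (v := Fin.tail v)
      (fun i j hij => Fin.succ_injective _ (hv hij)) (fun i j => hva _ _) (fun i j => hvw _ _)
    have hn : ∀ z, (∀ i : Fin d, a i.succ ≠ z) → (∀ i : Fin d, w i.succ ≠ z) →
        (∀ i : Fin d, v i.succ ≠ z) → z ∉ lets a' (Fin.tail v) := by
      intro z h1 h2 h3 hz
      rcases mem_lets.mp hz with ⟨i, hi⟩ | ⟨i, hi⟩
      · rcases ha' i with h4 | h4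
        · exact h1 i (h4.symm.trans hi)
        · exact h2 i (h4.symm.trans hi)
      · exact h3 i hi
    have ha0 : a 0 ∉ lets a' (Fin.tail v) :=
      hn _ (fun i hi => Fin.succ_ne_zero i (h.inj_a hi)) (fun i hi => h.ne _ _ hi.symm)
        (fun i => hva _ _)
    have hw0 : w 0 ∉ lets a' (Fin.tail v) :=
      hn _ (fun i hi => h.ne _ _ hi) (fun i hi => Fin.succ_ne_zero i (h.inj_w hi))
        (fun i => hvw _ _)
    have hv0 : v 0 ∉ lets a' (Fin.tail v) :=
      hn _ (fun i hi => hva _ _ hi.symm) (fun i hi => hvw _ _ hi.symm)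
        (fun i hi => Fin.succ_ne_zero i (hv hi))
    have hon := ud_on (K := K) a' (Fin.tail v)
    obtain ⟨α, β, -, -, hsplit⟩ := e_split_right (K := K) (h.ne 0 0) (hva 0 0) (hvw 0 0)
    have hexp : y * e K (a 0) (w 0) * ud K a' (Fin.tail v) =
        y * (ud K a' (Fin.tail v) * e K (a 0) (v 0)) * α +
          y * (ud K a' (Fin.tail v) * e K (w 0) (v 0)) * β := by
      rw [mul_assoc, Rank2.e_mul_comm hon ha0 hw0, hsplit]
      noncomm_ring
    rw [hexp] at hy'
    have hor : y * (ud K a' (Fin.tail v) * e K (a 0) (v 0)) ∉ P ∨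
        y * (ud K a' (Fin.tail v) * e K (w 0) (v 0)) ∉ P := by
      by_contra hcon
      push Not at hcon
      exact hy' (P.add_mem (P.mul_mem_right _ _ hcon.1) (P.mul_mem_right _ _ hcon.2))
    rcases hor with h1 | h1
    · refine ⟨Fin.cons (a 0) a', ?_, ?_⟩
      · intro i
        refine Fin.cases ?_ (fun i => ?_) i
        · left; rw [Fin.cons_zero]
        · rw [Fin.cons_succ]; exact ha' i
      · rw [ud_succ, Fin.cons_zero, Fin.tail_cons, Rank2.e_mul_comm hon ha0 hv0]
        exact h1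
    · refine ⟨Fin.cons (w 0) a', ?_, ?_⟩
      · intro i
        refine Fin.cases ?_ (fun i => ?_) i
        · right; rw [Fin.cons_zero]
        · rw [Fin.cons_succ]; exact ha' i
      · rw [ud_succ, Fin.cons_zero, Fin.tail_cons, Rank2.e_mul_comm hon hw0 hv0]
        exact h1

/-- the mirror image -/
theorem refine_left {P : Ideals K Ω} (y : MonoidAlgebra K (FSym Ω)) {a w : Fin d → Ω} (h : Gen a w)
    (hy : ud K a w * y ∉ P) {v : Fin d → Ω} (hv : Function.Injective v) (hva : ∀ i j, v i ≠ a j)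
    (hvw : ∀ i j, v i ≠ w j) :
    ∃ a' : Fin d → Ω, (∀ i, a' i = a i ∨ a' i = w i) ∧ ud K a' v * y ∉ P := by
  induction d generalizing y with
  | zero =>
    refine ⟨a, fun i => i.elim0, ?_⟩
    rw [ud_zero] at hy ⊢
    exact hy
  | succ d ih =>
    have hcm : e K (a 0) (w 0) * ud K (Fin.tail a) (Fin.tail w) =
        ud K (Fin.tail a) (Fin.tail w) * e K (a 0) (w 0) :=
      Rank2.e_mul_comm (ud_on _ _) (U0_a_notMem h) (U0_w_notMem h)
    rw [ud_succ, hcm, mul_assoc] at hy
    obtain ⟨a', ha', hy'⟩ := ih (e K (a 0) (w 0) * y) h.tail hy (v := Fin.tail v)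
      (fun i j hij => Fin.succ_injective _ (hv hij)) (fun i j => hva _ _) (fun i j => hvw _ _)
    have hn : ∀ z, (∀ i : Fin d, a i.succ ≠ z) → (∀ i : Fin d, w i.succ ≠ z) →
        (∀ i : Fin d, v i.succ ≠ z) → z ∉ lets a' (Fin.tail v) := by
      intro z h1 h2 h3 hz
      rcases mem_lets.mp hz with ⟨i, hi⟩ | ⟨i, hi⟩
      · rcases ha' i with h4 | h4
        · exact h1 i (h4.symm.trans hi)
        · exact h2 i (h4.symm.trans hi)
      · exact h3 i hi
    have ha0 : a 0 ∉ lets a' (Fin.tail v) :=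
      hn _ (fun i hi => Fin.succ_ne_zero i (h.inj_a hi)) (fun i hi => h.ne _ _ hi.symm)
        (fun i => hva _ _)
    have hw0 : w 0 ∉ lets a' (Fin.tail v) :=
      hn _ (fun i hi => h.ne _ _ hi) (fun i hi => Fin.succ_ne_zero i (h.inj_w hi))
        (fun i => hvw _ _)
    have hv0 : v 0 ∉ lets a' (Fin.tail v) :=
      hn _ (fun i hi => hva _ _ hi.symm) (fun i hi => hvw _ _ hi.symm)
        (fun i hi => Fin.succ_ne_zero i (hv hi))
    have hon := ud_on (K := K) a' (Fin.tail v)
    obtain ⟨α, β, -, -, hsplit⟩ := e_split_left (K := K) (h.ne 0 0) (hva 0 0) (hvw 0 0)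
    rw [← mul_assoc, ← Rank2.e_mul_comm hon ha0 hw0, hsplit, add_mul, add_mul, mul_assoc α,
      mul_assoc β, mul_assoc α, mul_assoc β] at hy'
    have hor : e K (a 0) (v 0) * ud K a' (Fin.tail v) * y ∉ P ∨
        e K (w 0) (v 0) * ud K a' (Fin.tail v) * y ∉ P := by
      by_contra hcon
      push Not at hcon
      exact hy' (P.add_mem (P.mul_mem_left _ _ hcon.1) (P.mul_mem_left _ _ hcon.2))
    rcases hor with h1 | h1
    · refine ⟨Fin.cons (a 0) a', ?_, ?_⟩
      · intro i
        refine Fin.cases ?_ (fun i => ?_) i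
        · left; rw [Fin.cons_zero]
        · rw [Fin.cons_succ]; exact ha' i
      · rw [ud_succ, Fin.cons_zero, Fin.tail_cons]
        exact h1
    · refine ⟨Fin.cons (w 0) a', ?_, ?_⟩
      · intro i
        refine Fin.cases ?_ (fun i => ?_) i
        · right; rw [Fin.cons_zero]
        · rw [Fin.cons_succ]; exact ha' i
      · rw [ud_succ, Fin.cons_zero, Fin.tail_cons]
        exact h1

end SmallPrime
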