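import Pool.Agent.Lib.MP_a8d7f7_al.P.G2
import Pool.Agent.Lib.MP_a8d7f7_al.P.U3

/-!
# MP_a8d7f7_al, prime ideals of small growth: small codimension, characteristic 2 (module G2b)
-/

set_option autoImplicit false
set_option linter.unusedSectionVars false
set_option linter.unusedVariables false

namespace SmallPrime

open Finset Equiv FinSym
open ThreeLetter (Ideals)
open Rank2 (On sw e IsDiff)

variable {K : Type*} [Field K] {Ω : Type*} [DecidableEq Ω]

/-- the product of the `ff (a i) (b i) (c i)` -/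
noncomputable def G2b_uf (K : Type*) [Field K] {Ω : Type*} [DecidableEq Ω] {d : ℕ}
    (a b c : Fin d → Ω) : MonoidAlgebra K (FSym Ω) :=
  (List.ofFn fun i => ff K (a i) (b i) (c i)).prod

theorem G2b_uf_zero (a b c : Fin 0 → Ω) : G2b_uf K a b c = 1 := by
  simp [G2b_uf]

theorem G2b_uf_succ {d : ℕ} (a b c : Fin (d + 1) → Ω) :
    G2b_uf K a b c = ff K (a 0) (b 0) (c 0) * G2b_uf K (Fin.tail a) (Fin.tail b) (Fin.tail c) := by
  unfold G2b_uf
  rw [List.ofFn_succ, List.prod_cons]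
  rfl

theorem G2b_of_mul_ff (g : FSym Ω) (x y z : Ω) :
    MonoidAlgebra.of K (FSym Ω) g * ff K x y z =
      ff K ((g : Perm Ω) x) ((g : Perm Ω) y) ((g : Perm Ω) z) * MonoidAlgebra.of K (FSym Ω) g := by
  unfold ff
  rw [← mul_assoc, U0_of_mul_e, mul_assoc, U0_of_mul_e, ← mul_assoc]

theorem G2b_of_mul_uf {d : ℕ} (g : FSym Ω) (a b c : Fin d → Ω) :
    MonoidAlgebra.of K (FSym Ω) g * G2b_uf K a b c =
      G2b_uf K (mv g a) (mv g b) (mv g c) * MonoidAlgebra.of K (FSym Ω) g := by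
  induction d with
  | zero => rw [G2b_uf_zero, G2b_uf_zero, mul_one, one_mul]
  | succ d ih =>
    have e1 : Fin.tail (mv g a) = mv g (Fin.tail a) := rfl
    have e2 : Fin.tail (mv g b) = mv g (Fin.tail b) := rfl
    have e3 : Fin.tail (mv g c) = mv g (Fin.tail c) := rfl
    rw [G2b_uf_succ, G2b_uf_succ, ← mul_assoc, G2b_of_mul_ff, mul_assoc, ih, ← mul_assoc, e1, e2, e3]
    rfl

/-- the letters are different and lie in `S` -/
structure G2b_Gen {Ω : Type*} {d : ℕ} (S : Finset Ω) (a b c : Fin d → Ω) : Prop where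
  inj_a : Function.Injective a
  inj_b : Function.Injective b
  inj_c : Function.Injective c
  ab : ∀ i j, a i ≠ b j
  ac : ∀ i j, a i ≠ c j
  bc : ∀ i j, b i ≠ c j
  memA : ∀ i, a i ∈ S
  memB : ∀ i, b i ∈ S
  memC : ∀ i, c i ∈ S

theorem G2b_cons_inj {d : ℕ} {x : Ω} {a : Fin d → Ω} {S : Finset Ω} (hx : x ∉ S)
    (ha : Function.Injective a) (hm : ∀ i, a i ∈ S) :
    Function.Injective (Fin.cons x a : Fin (d + 1) → Ω) := by
  rw [Fin.cons_injective_iff]
  exact ⟨fun ⟨i, hi⟩ => hx (hi ▸ hm i), ha⟩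

theorem G2b_cons_ne {d : ℕ} {x y : Ω} {a b : Fin d → Ω} {S : Finset Ω} (hxy : x ≠ y) (hx : x ∉ S)
    (hy : y ∉ S) (hab : ∀ i j, a i ≠ b j) (ha : ∀ i, a i ∈ S) (hb : ∀ i, b i ∈ S)
    (i j : Fin (d + 1)) : (Fin.cons x a : Fin (d + 1) → Ω) i ≠ (Fin.cons y b : Fin (d + 1) → Ω) j := by
  refine Fin.cases ?_ (fun i => ?_) i <;> refine Fin.cases ?_ (fun j => ?_) j
  · rw [Fin.cons_zero, Fin.cons_zero]; exact hxy
  · rw [Fin.cons_zero, Fin.cons_succ]; exact fun h => hx (h ▸ hb j)
  · rw [Fin.cons_zero, Fin.cons_succ]; exact fun h => hy (h ▸ ha i)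
  · rw [Fin.cons_succ, Fin.cons_succ]; exact hab i j

theorem G2b_cons_mem {d : ℕ} {x : Ω} {a : Fin d → Ω} {S S' : Finset Ω} (hx : x ∈ S')
    (hS : S ⊆ S') (ha : ∀ i, a i ∈ S) (i : Fin (d + 1)) :
    (Fin.cons x a : Fin (d + 1) → Ω) i ∈ S' := by
  refine Fin.cases ?_ (fun i => ?_) i
  · rw [Fin.cons_zero]; exact hx
  · rw [Fin.cons_succ]; exact hS (ha i)

theorem G2b_exists_gen {k : ℕ} {S : Finset Ω} {u : MonoidAlgebra K (FSym Ω)} (h : IsF K k S u) :
    ∃ a b c : Fin k → Ω, G2b_Gen S a b c ∧ G2b_uf K a b c = u := by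
  induction h with
  | zero =>
    exact ⟨Fin.elim0, Fin.elim0, Fin.elim0, ⟨fun i => i.elim0, fun i => i.elim0, fun i => i.elim0,
      fun i => i.elim0, fun i => i.elim0, fun i => i.elim0, fun i => i.elim0, fun i => i.elim0,
      fun i => i.elim0⟩, G2b_uf_zero _ _ _⟩
  | succ k S u x y z hxy hxz hyz hx hy hz h ih =>
    obtain ⟨a, b, c, hG, hu⟩ := ih
    have hS : S ⊆ insert x (insert y (insert z S)) :=
      ((subset_insert _ _).trans (subset_insert _ _)).trans (subset_insert _ _)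
    have mx : x ∈ insert x (insert y (insert z S)) := mem_insert_self _ _
    have my : y ∈ insert x (insert y (insert z S)) := mem_insert_of_mem (mem_insert_self _ _)
    have mz : z ∈ insert x (insert y (insert z S)) :=
      mem_insert_of_mem (mem_insert_of_mem (mem_insert_self _ _))
    refine ⟨Fin.cons x a, Fin.cons y b, Fin.cons z c,
      ⟨G2b_cons_inj hx hG.inj_a hG.memA, G2b_cons_inj hy hG.inj_b hG.memB,
        G2b_cons_inj hz hG.inj_c hG.memC, G2b_cons_ne hxy hx hy hG.ab hG.memA hG.memB,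
        G2b_cons_ne hxz hx hz hG.ac hG.memA hG.memC, G2b_cons_ne hyz hy hz hG.bc hG.memB hG.memC,
        G2b_cons_mem mx hS hG.memA, G2b_cons_mem my hS hG.memB, G2b_cons_mem mz hS hG.memC⟩, ?_⟩
    rw [G2b_uf_succ, Fin.cons_zero, Fin.cons_zero, Fin.cons_zero, Fin.tail_cons, Fin.tail_cons,
      Fin.tail_cons, hu]

theorem G2b_inj {k : ℕ} {S : Finset Ω} {a b c : Fin k → Ω} (h : G2b_Gen S a b c) :
    Function.Injective (Sum.elim a (Sum.elim b c)) := by
  refine h.inj_a.sumElim (h.inj_b.sumElim h.inj_c h.bc) ?_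
  intro i j
  rcases j with j | j
  · exact h.ab i j
  · exact h.ac i j

/-- two products of this form are conjugate -/
theorem isF_mem_of {k : ℕ} {S S' : Finset Ω} {u u' : MonoidAlgebra K (FSym Ω)} {P : Ideals K Ω}
    (hu : IsF K k S u) (hP : u ∈ P) (hu' : IsF K k S' u') : u' ∈ P := by
  obtain ⟨a, b, c, hG, rfl⟩ := G2b_exists_gen hu
  obtain ⟨a', b', c', hG', rfl⟩ := G2b_exists_gen hu'
  obtain ⟨g, hg⟩ := exists_mv _ _ (G2b_inj hG) (G2b_inj hG')
  have e1 : mv g a = a' := funext fun i => hg (Sum.inl i)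
  have e2 : mv g b = b' := funext fun i => hg (Sum.inr (Sum.inl i))
  have e3 : mv g c = c' := funext fun i => hg (Sum.inr (Sum.inr i))
  have h1 : MonoidAlgebra.of K (FSym Ω) g * G2b_uf K a b c * MonoidAlgebra.of K (FSym Ω) g⁻¹ ∈ P :=
    P.mul_mem_right _ _ (P.mul_mem_left _ _ hP)
  rw [G2b_of_mul_uf, e1, e2, e3, mul_assoc, ← map_mul, mul_inv_cancel, map_one, mul_one] at h1
  exact h1

/-- `(1 - (x y))(1 - (z v)) = ff x y z * α + ff x y v * β`, since
`1 - (z v) = (1 - (y z)) + (1 - (y v)) (y z) + (1 - (y z)) (y v) (y z)` -/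
theorem ee_split {x y z v : Ω} (hxy : x ≠ y) (hxz : x ≠ z) (hxv : x ≠ v) (hyz : y ≠ z) (hyv : y ≠ v)
    (hzv : z ≠ v) : ∃ α β : MonoidAlgebra K (FSym Ω), On {x, y, z, v} α ∧ On {x, y, z, v} β ∧
      e K x y * e K z v = ff K x y z * α + ff K x y v * β := by
  obtain ⟨α, β, hα, hβ, h⟩ := e_split_right (K := K) hzv hyz hyv
  have hsub : ({z, v, y} : Finset Ω) ⊆ {x, y, z, v} := by
    intro w hw
    simp only [mem_insert, mem_singleton] at hw ⊢
    tauto
  refine ⟨α, β, hα.mono hsub, hβ.mono hsub, ?_⟩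
  unfold ff
  rw [h, Rank2.e_comm z y, Rank2.e_comm v y]
  noncomm_ring

theorem G2b_disj {D : Finset Ω} {x y z v : Ω} (hx : x ∉ D) (hy : y ∉ D) (hz : z ∉ D) (hv : v ∉ D) :
    Disjoint ({x, y, z, v} : Finset Ω) D := by
  rw [disjoint_left]
  intro w hw
  simp only [mem_insert, mem_singleton] at hw
  rcases hw with rfl | rfl | rfl | rfl <;> assumption

theorem G2b_step {k : ℕ} {P : Ideals K Ω}
    (hP : ∀ (S : Finset Ω) (u : MonoidAlgebra K (FSym Ω)), IsF K k S u → u ∈ P) (j : ℕ) :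
    ∀ (i : ℕ) (S T : Finset Ω) (f u : MonoidAlgebra K (FSym Ω)), i + j = k → IsF K i S f →
      IsDiff K (2 * j) T u → Disjoint S T → f * u ∈ P := by
  induction j with
  | zero =>
    intro i S T f u hk hf hu hST
    have hk' : i = k := by omega
    subst hk'
    exact P.mul_mem_right _ _ (hP S f hf)
  | succ j ih =>
    intro i S T f u hk hf hu hST
    have e1 : 2 * (j + 1) = 2 * j + 1 + 1 := by ring
    rw [e1] at hu
    cases hu with
    | succ _ T₁ u₁ x y hxy hx hy hu₁ =>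
      cases hu₁ with
      | succ _ T₂ u₂ z v hzv hz hv hu₂ =>
        simp only [mem_insert, not_or] at hx hy
        rw [disjoint_insert_right, disjoint_insert_right, disjoint_insert_right,
          disjoint_insert_right] at hST
        obtain ⟨s1, s2, s3, s4, s5⟩ := hST
        obtain ⟨α, β, hα, hβ, hs⟩ := ee_split (K := K) hxy hx.1 hx.2.1 hy.1 hy.2.1 hzv
        have hd := G2b_disj hx.2.2 hy.2.2 hz hv
        have cα : α * u₂ = u₂ * α := On.commute hd hα hu₂.on
        have cβ : β * u₂ = u₂ * β := On.commute hd hβ hu₂.on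
        have c1 : ff K x y z * f = f * ff K x y z :=
          On.commute (g2_disj s1 s2 s3) (g2_ff_on (by simp) (by simp) (by simp)) hf.on
        have c2 : ff K x y v * f = f * ff K x y v :=
          On.commute (g2_disj s1 s2 s4) (g2_ff_on (by simp) (by simp) (by simp)) hf.on
        have k1 : ff K x y z * f * u₂ ∈ P := by
          refine ih (i + 1) _ T₂ _ u₂ (by omega)
            (IsF.succ i S f x y z hxy hx.1 hy.1 s1 s2 s3 hf) hu₂ ?_
          rw [disjoint_insert_left, disjoint_insert_left, disjoint_insert_left]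
          exact ⟨hx.2.2, hy.2.2, hz, s5⟩
        have k2 : ff K x y v * f * u₂ ∈ P := by
          refine ih (i + 1) _ T₂ _ u₂ (by omega)
            (IsF.succ i S f x y v hxy hx.2.1 hy.2.1 s1 s2 s4 hf) hu₂ ?_
          rw [disjoint_insert_left, disjoint_insert_left, disjoint_insert_left]
          exact ⟨hx.2.2, hy.2.2, hv, s5⟩
        have h1 : f * (e K x y * (e K z v * u₂)) =
            ff K x y z * f * u₂ * α + ff K x y v * f * u₂ * β := by
          rw [← mul_assoc (e K x y), hs, c1, c2, add_mul, mul_assoc (ff K x y z), cα,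
            mul_assoc (ff K x y v), cβ, mul_add]
          simp only [mul_assoc]
        rw [h1]
        exact P.add_mem (P.mul_mem_right _ _ k1) (P.mul_mem_right _ _ k2)

/-- Let `P` contain the products of `k` elements `ff`. Claim for `j ≤ k`: `f * u ∈ P` for `f` a product
of `k - j` elements `ff` and `u` a product of `2 j` differences, with disjoint letters. Induction on
`j`: write `u = e x y * e z v * u'` (`IsDiff` twice), commute, and use `ee_split`. For `j = k` this is
the statement. -/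
theorem isDiff_mem_of_isF {k : ℕ} {P : Ideals K Ω}
    (hP : ∀ (S : Finset Ω) (u : MonoidAlgebra K (FSym Ω)), IsF K k S u → u ∈ P) {S : Finset Ω}
    {u : MonoidAlgebra K (FSym Ω)} (hu : IsDiff K (2 * k) S u) : u ∈ P := by
  have h := G2b_step hP k 0 ∅ S 1 u (by omega) IsF.zero hu (disjoint_empty_left _)
  rw [one_mul] at h
  exact h

/-- **Small codimension, characteristic 2** (`exists_mem_of_orth` with `r = 1`). -/
theorem mem_of_codim_lt_two [Infinite Ω] (h2 : (2 : K) = 0) {I : Ideals K Ω} {D : Finset Ω}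
    (h : codimIn I D < 2 ^ (D.card / 3)) :
    ∃ (m : ℕ) (S : Finset Ω) (u : MonoidAlgebra K (FSym Ω)), IsDiff K m S u ∧ u ∈ I := by
  obtain ⟨E, h1, h3, h4⟩ := exists_ff_family (K := K) h2 (D.card / 3) D (by omega)
  obtain ⟨i, hi⟩ := exists_mem_of_orth E (fun s => by
      obtain ⟨S, hS, hm⟩ := h1 s
      exact hm.on.mono hS) (by simpa using h) (one_ne_zero (α := K))
      (fun s => by rw [h3, one_smul]) h4
  obtain ⟨S, hS, hm⟩ := h1 i
  obtain ⟨T, u, -, hu⟩ := exists_isDiff (K := K) (Ω := Ω) (2 * (D.card / 3)) ∅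
  exact ⟨_, T, u, hu, isDiff_mem_of_isF (fun S' u' hu' => isF_mem_of hm hi hu') hu⟩

end SmallPrime
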