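import Pool.Agent.Lib.MP_a8d7f7_al.P.G1
import Pool.Agent.Lib.MP_a8d7f7_al.P.G2b
import Pool.Agent.Lib.MP_a8d7f7_al.P.G0b

/-!
# MP_a8d7f7_al, prime ideals of small growth: prime ideals of small codimension (module G3)
-/

set_option autoImplicit false
set_option linter.unusedSectionVars false
set_option linter.unusedVariables false

namespace SmallPrime

open Finset Equiv FinSym
open ThreeLetter (Ideals)
open Rank2 (On sw e IsDiff)

variable {K : Type*} [Field K] {Ω : Type*} [DecidableEq Ω]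

/-- Let the ideal `I` contain `u * theta v`, `u` a product of `c` and `v` of `c'` differences with
disjoint letters; then it contains all such products (`isDiff_conj₂`, `theta_conj`). Now `g * theta v' =
theta v'' * g` with `v'' = g v' g⁻¹` (a product of `c'` differences with letters `T`, `#T = 2 c'`), and
`X = r * x₁` with `x₁` a product of `c` differences avoiding `T` (`isDiff_avoid`). -/
theorem mul_mem_of_split {I : Ideals K Ω} {c c' : ℕ}
    {S₁ S₂ : Finset Ω} {u v : MonoidAlgebra K (FSym Ω)} (hS : Disjoint S₁ S₂)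
    (hu : IsDiff K c S₁ u) (hv : IsDiff K c' S₂ v) (h : u * theta K Ω v ∈ I)
    {S T : Finset Ω} {X v' : MonoidAlgebra K (FSym Ω)} (hX : IsDiff K (c + 2 * c') S X)
    (hv' : IsDiff K c' T v') (g : FSym Ω) :
    X * MonoidAlgebra.of K (FSym Ω) g * theta K Ω v' ∈ I := by
  obtain ⟨a, w, haw, -, rfl⟩ := exists_gen hv'
  have hgg : MonoidAlgebra.of K (FSym Ω) g * MonoidAlgebra.of K (FSym Ω) g⁻¹ = 1 := by
    rw [← map_mul, mul_inv_cancel, map_one]
  have hgg' : MonoidAlgebra.of K (FSym Ω) g⁻¹ * MonoidAlgebra.of K (FSym Ω) g = 1 := by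
    rw [← map_mul, inv_mul_cancel, map_one]
  have hv2 : MonoidAlgebra.of K (FSym Ω) g * ud K a w * MonoidAlgebra.of K (FSym Ω) g⁻¹ =
      ud K (mv g a) (mv g w) := by
    rw [of_mul_ud, mul_assoc, hgg, mul_one]
  have hd2 := ud_isDiff (K := K) (haw.mv g)
  obtain ⟨S', x₁, r, -, hS', hx₁, rfl⟩ := isDiff_avoid hX (lets (mv g a) (mv g w))
    (card_lets (haw.mv g)).le
  obtain ⟨q, h1, h2⟩ := isDiff_conj₂ hu hv hS hx₁ hd2 hS'
  have hhh : MonoidAlgebra.of K (FSym Ω) q⁻¹ * MonoidAlgebra.of K (FSym Ω) q = 1 := by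
    rw [← map_mul, inv_mul_cancel, map_one]
  have h3 : x₁ * theta K Ω (ud K (mv g a) (mv g w)) ∈ I := by
    rw [← h1, ← h2, theta_conj]
    have h4 : MonoidAlgebra.of K (FSym Ω) q * u * MonoidAlgebra.of K (FSym Ω) q⁻¹ *
        (MonoidAlgebra.of K (FSym Ω) q * theta K Ω v * MonoidAlgebra.of K (FSym Ω) q⁻¹) =
        MonoidAlgebra.of K (FSym Ω) q * (u * theta K Ω v) * MonoidAlgebra.of K (FSym Ω) q⁻¹ := by
      calc _ = MonoidAlgebra.of K (FSym Ω) q * u * (MonoidAlgebra.of K (FSym Ω) q⁻¹ *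
            MonoidAlgebra.of K (FSym Ω) q) * theta K Ω v * MonoidAlgebra.of K (FSym Ω) q⁻¹ := by
            simp only [mul_assoc]
        _ = _ := by rw [hhh, mul_one]; simp only [mul_assoc]
    rw [h4]
    exact I.mul_mem_right _ _ (I.mul_mem_left _ _ h)
  have h5 : MonoidAlgebra.of K (FSym Ω) g * theta K Ω (ud K a w) =
      theta K Ω (ud K (mv g a) (mv g w)) * MonoidAlgebra.of K (FSym Ω) g := by
    rw [← hv2, theta_conj, mul_assoc, hgg', mul_one]
  have h6 : r * x₁ * MonoidAlgebra.of K (FSym Ω) g * theta K Ω (ud K a w) =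
      r * (x₁ * theta K Ω (ud K (mv g a) (mv g w))) * MonoidAlgebra.of K (FSym Ω) g := by
    rw [mul_assoc (r * x₁), h5]
    simp only [mul_assoc]
  rw [h6]
  exact I.mul_mem_right _ _ (I.mul_mem_left _ _ h3)

/-- `mul_mem_of_split` and `IsPrime.exists_fsym`: `X ∈ P` or `theta v ∈ P` -/
theorem IsPrime.dichotomy [Infinite Ω] {P : Ideals K Ω} (hP : IsPrime P) {c c' : ℕ}
    {S₁ S₂ : Finset Ω} {u v : MonoidAlgebra K (FSym Ω)} (hS : Disjoint S₁ S₂)
    (hu : IsDiff K c S₁ u) (hv : IsDiff K c' S₂ v) (h : u * theta K Ω v ∈ P) :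
    (∃ (m : ℕ) (S : Finset Ω) (x : MonoidAlgebra K (FSym Ω)), IsDiff K m S x ∧ x ∈ P) ∨
      theta K Ω v ∈ P := by
  by_cases hθ : theta K Ω v ∈ P
  · exact Or.inr hθ
  · left
    obtain ⟨S, X, -, hX⟩ := exists_isDiff (K := K) (Ω := Ω) (c + 2 * c') ∅
    refine ⟨_, S, X, hX, ?_⟩
    by_contra hXP
    obtain ⟨g, hg⟩ := hP.exists_fsym hXP hθ
    exact hg (mul_mem_of_split hS hu hv h hX hv g)

/-- `theta` is multiplicative and involutive (`FinSym.theta_theta`) -/
theorem isPrime_tw {P : Ideals K Ω} (hP : IsPrime P) : IsPrime (tw P) := by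
  constructor
  · intro h
    apply hP.1
    rw [← tw_tw P, h]
    rw [eq_top_iff]
    intro y _
    rw [mem_tw]
    trivial
  · intro x y h
    rw [mem_tw, mem_tw]
    apply hP.2
    intro r
    have h1 := h (theta K Ω r)
    rw [mem_tw, map_mul, map_mul, theta_theta] at h1
    exact h1

/-- **Prime ideals of small codimension.** (`mem_of_codim_lt`, `IsPrime.dichotomy` if `2 ≠ 0`,
`mem_of_codim_lt_two` if `2 = 0`; `theta v ∈ P` says `v ∈ tw P`, `FinSym.mem_tw`.) -/
theorem exists_isDiff_mem [Infinite Ω] {P : Ideals K Ω} (hP : IsPrime P) {D : Finset Ω}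
    (h : codimIn P D < 2 ^ (D.card / 3)) :
    (∃ (m : ℕ) (S : Finset Ω) (x : MonoidAlgebra K (FSym Ω)), IsDiff K m S x ∧ x ∈ P) ∨
      ∃ (m : ℕ) (S : Finset Ω) (x : MonoidAlgebra K (FSym Ω)), IsDiff K m S x ∧ x ∈ tw P := by
  by_cases h2 : (2 : K) = 0
  · exact Or.inl (mem_of_codim_lt_two h2 h)
  · obtain ⟨c, c', S₁, S₂, u, v, hS, hu, hv, huv⟩ := mem_of_codim_lt h2 h
    rcases hP.dichotomy hS hu hv huv with h3 | h3
    · exact Or.inl h3
    · exact Or.inr ⟨c', S₂, v, hv, mem_tw.mpr h3⟩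

end SmallPrime
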