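import Pool.Agent.Lib.MP_a8d7f7_al.P.H1

/-!
# MP_a8d7f7_al, ideals of small growth: straightening (module H1b)
-/

set_option autoImplicit false
set_option linter.unusedSectionVars false
set_option linter.unusedVariables false

namespace SmallPrime

open Finset Equiv FinSym
open ThreeLetter (Ideals)
open Rank2 (On sw e IsDiff)

variable {K : Type*} [Field K] {Ω : Type*} [DecidableEq Ω] {m : ℕ}

theorem H1b_le {D : Finset Ω} {r : Ω → ℕ} {g : FSym Ω} (hg : OnD D g) :
    wt D r g ≤ D.card * (D.sup r * D.sup r) := by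
  unfold wt
  rw [← smul_eq_mul, ← Finset.sum_const]
  exact sum_le_sum fun z hz => Nat.mul_le_mul (Finset.le_sup hz) (Finset.le_sup (H1_mem hg hz))

/-- **Straightening.** `V` is a subspace which contains the `g * ud x y`, `g` a permutation of `D` and
`x`, `y` letters of `D`. Strong induction on `B - wt D r g`, `B` a bound of `wt D r` (it takes finitely
many values on the permutations of `D`; for instance `wt D r g ≤ #D * R * R` with `R` a bound of `r` on
`D`): if `g` is not in `Irr`, `g = g * ud x y - (combination of permutations of larger weight)`. -/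
theorem straighten (D : Finset Ω) (r : Ω → ℕ) (V : Submodule K (MonoidAlgebra K (FSym Ω)))
    (hV : ∀ (g : FSym Ω) (x y : Fin m → Ω), OnD D g → Gen x y → (∀ i, x i ∈ D) → (∀ i, y i ∈ D) →
      MonoidAlgebra.of K (FSym Ω) g * ud K x y ∈ V) {g : FSym Ω} (hg : OnD D g) :
    MonoidAlgebra.of K (FSym Ω) g ∈ V ⊔ Submodule.span K {z | ∃ h : FSym Ω, Irr m D r h ∧
      z = MonoidAlgebra.of K (FSym Ω) h} := by
  obtain ⟨B, hB⟩ : ∃ B, B = D.card * (D.sup r * D.sup r) := ⟨_, rfl⟩
  have key : ∀ (n : ℕ) (g : FSym Ω), OnD D g → B - wt D r g = n →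
      MonoidAlgebra.of K (FSym Ω) g ∈ V ⊔ Submodule.span K {z | ∃ h : FSym Ω, Irr m D r h ∧
        z = MonoidAlgebra.of K (FSym Ω) h} := by
    intro n
    induction n using Nat.strong_induction_on with
    | _ n ih =>
      intro g hg hn
      by_cases hI : ∃ x y : Fin m → Ω, Invs D r g x y
      · obtain ⟨x, y, hxy⟩ := hI
        have k1 := of_mul_ud_sub (K := K) hg hxy
        have k2 := hV g x y hg hxy.1 (fun i => (hxy.2 i).1) (fun i => (hxy.2 i).2.1)
        have k3 : Submodule.span K {z | ∃ h : FSym Ω, OnD D h ∧ wt D r g < wt D r h ∧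
            z = MonoidAlgebra.of K (FSym Ω) h} ≤
            V ⊔ Submodule.span K {z | ∃ h : FSym Ω, Irr m D r h ∧
              z = MonoidAlgebra.of K (FSym Ω) h} := by
          rw [Submodule.span_le]
          rintro z ⟨h, h1, h2, rfl⟩
          have h3 := H1b_le (r := r) h1
          rw [← hB] at h3
          exact ih (B - wt D r h) (by omega) h h1 rfl
        have e1 : MonoidAlgebra.of K (FSym Ω) g = MonoidAlgebra.of K (FSym Ω) g * ud K x y -
            (MonoidAlgebra.of K (FSym Ω) g * ud K x y - MonoidAlgebra.of K (FSym Ω) g) := by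
          rw [sub_sub_cancel]
        rw [e1]
        exact Submodule.sub_mem _ (Submodule.mem_sup_left k2) (k3 k1)
      · exact Submodule.mem_sup_right (Submodule.subset_span ⟨g, ⟨hg, hI⟩, rfl⟩)
  exact key _ g hg rfl

end SmallPrime
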