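import Pool.Agent.Lib.MP_a8d7f7_al.P.H1

/-!
# MP_a8d7f7_al, ideals of small growth: increasing permutations (module H2b)
-/

set_option autoImplicit false
set_option linter.unusedSectionVars false
set_option linter.unusedVariables false

namespace SmallPrime

open Finset Equiv FinSym
open ThreeLetter (Ideals)
open Rank2 (On sw e IsDiff)

variable {K : Type*} [Field K] {Ω : Type*} [DecidableEq Ω] {m : ℕ}

theorem H2b_mem {D : Finset Ω} {g : FSym Ω} (hg : OnD D g) {z : Ω} (hz : z ∈ D) :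
    (g : Perm Ω) z ∈ D := by
  by_contra h
  have h1 := hg _ h
  have h2 := (g : Perm Ω).injective h1
  rw [h2] at h
  exact h hz

theorem H2b_aux {D A : Finset Ω} {r : Ω → ℕ} (hr : Set.InjOn r D)
    {g g' : FSym Ω} (hg : OnD D g) (hg' : OnD D g')
    (h' : ∀ x ∈ D \ A, ∀ y ∈ D \ A, r x < r y → r ((g' : Perm Ω) x) < r ((g' : Perm Ω) y))
    (hAA : ∀ z ∈ A, (g : Perm Ω) z = (g' : Perm Ω) z) {x : Ω} (hx : x ∈ D \ A)
    (hmin : ∀ z ∈ D \ A, r z < r x → (g : Perm Ω) z = (g' : Perm Ω) z)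
    (hlt : r ((g : Perm Ω) x) < r ((g' : Perm Ω) x)) : False := by
  obtain ⟨y, hy⟩ : ∃ y, (g' : Perm Ω) y = (g : Perm Ω) x :=
    ⟨(g' : Perm Ω).symm ((g : Perm Ω) x), Equiv.apply_symm_apply _ _⟩
  have hxD : x ∈ D := (mem_sdiff.mp hx).1
  have hyx : y ≠ x := by
    rintro rfl
    rw [hy] at hlt
    exact lt_irrefl _ hlt
  have hyD : y ∈ D := by
    by_contra hcon
    have h1 := hg' y hcon
    rw [h1] at hy
    rw [hy] at hcon
    exact hcon (H2b_mem hg hxD)
  have hyA : y ∉ A := by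
    intro hyA
    have h1 := hAA y hyA
    rw [hy] at h1
    exact hyx ((g : Perm Ω).injective h1)
  have hyDA : y ∈ D \ A := mem_sdiff.mpr ⟨hyD, hyA⟩
  rcases lt_trichotomy (r y) (r x) with h1 | h1 | h1
  · have h2 := hmin y hyDA h1
    rw [hy] at h2
    exact hyx ((g : Perm Ω).injective h2)
  · exact hyx (hr hyD hxD h1)
  · have h2 := h' x hx y hyDA h1
    rw [hy] at h2
    exact lt_irrefl _ (h2.trans hlt)

/-- two permutations of `D`, increasing on `D \ A` and equal on `A`, are equal: otherwise take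
`x ∈ D \ A` with `g x ≠ g' x` and `r x` minimal, say `r (g x) < r (g' x)`; `g x = g' y` for some
`y ∈ D \ A` (both map `D \ A` onto `D \ g A`); `r y < r x` gives `g y = g' y = g x`, `y = x`; `r x < r y`
gives `r (g' x) < r (g' y) = r (g x)`. -/
theorem eq_of_increasing {D A : Finset Ω} (hA : A ⊆ D) {r : Ω → ℕ} (hr : Set.InjOn r D)
    {g g' : FSym Ω} (hg : OnD D g) (hg' : OnD D g')
    (h : ∀ x ∈ D \ A, ∀ y ∈ D \ A, r x < r y → r ((g : Perm Ω) x) < r ((g : Perm Ω) y))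
    (h' : ∀ x ∈ D \ A, ∀ y ∈ D \ A, r x < r y → r ((g' : Perm Ω) x) < r ((g' : Perm Ω) y))
    (hAA : ∀ z ∈ A, (g : Perm Ω) z = (g' : Perm Ω) z) : g = g' := by
  by_contra hne
  have h1 : ∃ x, x ∈ D \ A ∧ (g : Perm Ω) x ≠ (g' : Perm Ω) x := by
    by_contra hcon
    push Not at hcon
    apply hne
    apply Subtype.ext
    apply Equiv.ext
    intro z
    by_cases hz : z ∈ D
    · by_cases hzA : z ∈ A
      · exact hAA z hzA
      · exact hcon z (mem_sdiff.mpr ⟨hz, hzA⟩)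
    · rw [hg z hz, hg' z hz]
  classical
  let T : Finset Ω := (D \ A).filter fun x => (g : Perm Ω) x ≠ (g' : Perm Ω) x
  have hT : T.Nonempty := by
    obtain ⟨x, hx, hx'⟩ := h1
    exact ⟨x, mem_filter.mpr ⟨hx, hx'⟩⟩
  obtain ⟨x, hxT, hxmin⟩ := T.exists_min_image r hT
  obtain ⟨hx, hx'⟩ := mem_filter.mp hxT
  have hmin : ∀ z ∈ D \ A, r z < r x → (g : Perm Ω) z = (g' : Perm Ω) z := by
    intro z hz hzx
    by_contra hcon
    exact absurd (hxmin z (mem_filter.mpr ⟨hz, hcon⟩)) (not_le.mpr hzx)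
  have hxD : x ∈ D := (mem_sdiff.mp hx).1
  rcases lt_trichotomy (r ((g : Perm Ω) x)) (r ((g' : Perm Ω) x)) with h2 | h2 | h2
  · exact H2b_aux hr hg hg' h' hAA hx hmin h2
  · exact hx' (hr (H2b_mem hg hxD) (H2b_mem hg' hxD) h2)
  · exact H2b_aux hr hg' hg h (fun z hz => (hAA z hz).symm) hx
      (fun z hz hzx => (hmin z hz hzx).symm) h2

end SmallPrime
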