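import Pool.Agent.Lib.MP_a8d7f7_al.P.H2
import Pool.Agent.Lib.MP_a8d7f7_al.P.H2b

/-!
# MP_a8d7f7_al, ideals of small growth: counting the permutations without m disjoint inversions (module H2c)
-/

set_option autoImplicit false
set_option linter.unusedSectionVars false
set_option linter.unusedVariables false

namespace SmallPrime

open Finset Equiv FinSym
open ThreeLetter (Ideals)
open Rank2 (On sw e IsDiff)

variable {K : Type*} [Field K] {Ω : Type*} [DecidableEq Ω] {m : ℕ}

/-- the code of a permutation with respect to a set of letters -/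
noncomputable def H2cCode (m : ℕ) (A : Finset Ω) (g : FSym Ω) (i : Fin (2 * m)) :
    Option (Ω × Ω) :=
  if h : (i : ℕ) < A.card then
    some (((A.equivFin.symm ⟨i, h⟩ : {x // x ∈ A}) : Ω),
      (g : Perm Ω) ((A.equivFin.symm ⟨i, h⟩ : {x // x ∈ A}) : Ω))
  else none

theorem H2c_code_some {m : ℕ} {A : Finset Ω} {g : FSym Ω} {i : Fin (2 * m)} {z w : Ω}
    (h : H2cCode m A g i = some (z, w)) : z ∈ A ∧ w = (g : Perm Ω) z := by
  unfold H2cCode at h
  split_ifs at h with h1
  have h2 := Option.some.inj h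
  have h3 := congrArg Prod.fst h2
  have h4 := congrArg Prod.snd h2
  simp only at h3 h4
  refine ⟨?_, ?_⟩
  · rw [← h3]
    exact (A.equivFin.symm ⟨i, h1⟩).2
  · rw [← h4, h3]

theorem H2c_code_ex {m : ℕ} {A : Finset Ω} (hA : A.card ≤ 2 * m) (g : FSym Ω) {z : Ω}
    (hz : z ∈ A) : ∃ i : Fin (2 * m), H2cCode m A g i = some (z, (g : Perm Ω) z) := by
  have h1 := (A.equivFin ⟨z, hz⟩).2
  refine ⟨⟨(A.equivFin ⟨z, hz⟩ : ℕ), lt_of_lt_of_le h1 hA⟩, ?_⟩
  unfold H2cCode
  rw [dif_pos h1]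
  have h2 : A.equivFin.symm ⟨(A.equivFin ⟨z, hz⟩ : ℕ), h1⟩ = ⟨z, hz⟩ := by
    rw [Equiv.symm_apply_eq]
  simp only [h2]

/-- Code `g` by a function `q : Fin (2 m) → Option (D × D)` enumerating the pairs `(z, g z)`, `z ∈ A`
(`exists_small`); it determines `A`, `g` on `A`, hence `g` (`eq_of_increasing`). There are
`(#D ^ 2 + 1) ^ (2 m) ≤ (#D + 1) ^ (4 m)` such functions. -/
theorem card_irr {D : Finset Ω} {r : Ω → ℕ} (hr : Set.InjOn r D) (m : ℕ) :
    ∃ B : Finset (FSym Ω), B.card ≤ (D.card + 1) ^ (4 * m) ∧ ∀ g, Irr m D r g → g ∈ B := by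
  classical
  have h1 : ∀ g : FSym Ω, ∃ A : Finset Ω, Irr m D r g → (A ⊆ D ∧ A.card ≤ 2 * m ∧
      ∀ x ∈ D \ A, ∀ y ∈ D \ A, r x < r y → r ((g : Perm Ω) x) < r ((g : Perm Ω) y)) := by
    intro g
    by_cases h : Irr m D r g
    · obtain ⟨A, hA, hA2, hA3⟩ := exists_small hr h
      exact ⟨A, fun _ => ⟨hA, hA2, hA3⟩⟩
    · exact ⟨∅, fun h' => absurd h' h⟩
  choose A hA using h1
  set C : Finset (Fin (2 * m) → Option (Ω × Ω)) :=
    Fintype.piFinset fun _ => Finset.insertNone (D ×ˢ D) with hC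
  have hmaps : ∀ g, Irr m D r g → H2cCode m (A g) g ∈ C := by
    intro g hg
    rw [hC, Fintype.mem_piFinset]
    intro i
    rw [Finset.mem_insertNone]
    intro p hp
    obtain ⟨z, w⟩ := p
    obtain ⟨h2, h3⟩ := H2c_code_some hp
    have h4 : z ∈ D := (hA g hg).1 h2
    rw [mem_product]
    refine ⟨h4, ?_⟩
    simp only
    rw [h3]
    exact H1_mem hg.1 h4
  have hinj : Set.InjOn (fun g => H2cCode m (A g) g) {g | Irr m D r g} := by
    intro g hg g' hg' he
    have hgI : Irr m D r g := hg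
    have hgI' : Irr m D r g' := hg'
    have he' : H2cCode m (A g) g = H2cCode m (A g') g' := he
    have k1 : ∀ z ∈ A g, z ∈ A g' ∧ (g : Perm Ω) z = (g' : Perm Ω) z := by
      intro z hz
      obtain ⟨i, hi⟩ := H2c_code_ex (hA g hgI).2.1 g hz
      rw [he'] at hi
      exact H2c_code_some hi
    have k2 : ∀ z ∈ A g', z ∈ A g := by
      intro z hz
      obtain ⟨i, hi⟩ := H2c_code_ex (hA g' hgI').2.1 g' hz
      rw [← he'] at hi
      exact (H2c_code_some hi).1
    have k3 : A g = A g' := Finset.Subset.antisymm (fun z hz => (k1 z hz).1) k2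
    have k4 := (hA g' hgI').2.2
    rw [← k3] at k4
    exact eq_of_increasing (hA g hgI).1 hr hgI.1 hgI'.1 (hA g hgI).2.2 k4
      (fun z hz => (k1 z hz).2)
  have hfin : {g | Irr m D r g}.Finite := by
    refine Set.Finite.of_injOn (t := (C : Set (Fin (2 * m) → Option (Ω × Ω)))) ?_ hinj
      C.finite_toSet
    intro g hg
    exact hmaps g hg
  refine ⟨hfin.toFinset, ?_, fun g hg => hfin.mem_toFinset.2 hg⟩
  have hcard : hfin.toFinset.card ≤ C.card := by
    refine Finset.card_le_card_of_injOn (fun g => H2cCode m (A g) g) ?_ ?_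
    · intro g hg
      exact hmaps g (hfin.mem_toFinset.1 hg)
    · intro g hg g' hg' he
      exact hinj (hfin.mem_toFinset.1 hg) (hfin.mem_toFinset.1 hg') he
  refine hcard.trans ?_
  rw [hC, Fintype.card_piFinset]
  simp only [Finset.card_insertNone, card_product, prod_const, card_univ, Fintype.card_fin]
  calc (D.card * D.card + 1) ^ (2 * m) ≤ ((D.card + 1) ^ 2) ^ (2 * m) := by
        apply Nat.pow_le_pow_left
        nlinarith
    _ = (D.card + 1) ^ (4 * m) := by
        rw [← pow_mul]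
        congr 1
        ring

end SmallPrime
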