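import Pool.Agent.Lib.MP_a8d7f7_al.P.H3
import Pool.Agent.Lib.MP_a8d7f7_al.P.H1b
import Pool.Agent.Lib.MP_a8d7f7_al.P.H2c

/-!
# MP_a8d7f7_al, ideals of small growth: growth, the mixed case (module H3c)
-/

set_option autoImplicit false
set_option linter.unusedSectionVars false
set_option linter.unusedVariables false

namespace SmallPrime

open Finset Equiv FinSym
open ThreeLetter (Ideals)
open Rank2 (On sw e IsDiff)

variable {K : Type*} [Field K] {Ω : Type*} [DecidableEq Ω] {m : ℕ}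

theorem H3c_rank (D : Finset Ω) : ∃ r : Ω → ℕ, Set.InjOn r D := by
  classical
  refine ⟨fun z => if h : z ∈ D then (D.equivFin ⟨z, h⟩ : ℕ) else 0, ?_⟩
  intro x hx y hy hxy
  have hx' : x ∈ D := hx
  have hy' : y ∈ D := hy
  simp only [dif_pos hx', dif_pos hy'] at hxy
  have h1 := D.equivFin.injective (Fin.val_injective hxy)
  exact congrArg Subtype.val h1

/-- the subspace of the `y` with `u * theta y ∈ V` -/
noncomputable def H3c_W (V : Submodule K (MonoidAlgebra K (FSym Ω)))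
    (u : MonoidAlgebra K (FSym Ω)) : Submodule K (MonoidAlgebra K (FSym Ω)) where
  carrier := {y | u * theta K Ω y ∈ V}
  add_mem' := by
    intro a b ha hb
    show u * theta K Ω (a + b) ∈ V
    rw [map_add, mul_add]
    exact V.add_mem ha hb
  zero_mem' := by
    show u * theta K Ω 0 ∈ V
    rw [map_zero, mul_zero]
    exact V.zero_mem
  smul_mem' := by
    intro c x hx
    show u * theta K Ω (c • x) ∈ V
    rw [map_smul, mul_smul_comm]
    exact V.smul_mem c hx

theorem H3c_memW {V : Submodule K (MonoidAlgebra K (FSym Ω))} {u y : MonoidAlgebra K (FSym Ω)} :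
    y ∈ H3c_W V u ↔ u * theta K Ω y ∈ V := Iff.rfl

theorem H3c_memW_of {V : Submodule K (MonoidAlgebra K (FSym Ω))} {u : MonoidAlgebra K (FSym Ω)}
    {g : FSym Ω} : MonoidAlgebra.of K (FSym Ω) g ∈ H3c_W V u ↔
      u * MonoidAlgebra.of K (FSym Ω) g ∈ V := by
  rw [H3c_memW, theta_of, mul_smul_comm]
  constructor
  · intro h
    have h1 := V.smul_mem (sgK K g) h
    rw [smul_smul, sgK_sq, one_smul] at h1
    exact h1
  · intro h
    exact V.smul_mem _ h

/-- for fixed `a`, `w`: all `ud a w * g` lie in `V` -/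
theorem H3c_step {k : ℕ} {I : Ideals K Ω}
    (h : ∀ (S T : Finset Ω) (X v : MonoidAlgebra K (FSym Ω)) (g : FSym Ω), IsDiff K m S X →
      IsDiff K k T v → X * MonoidAlgebra.of K (FSym Ω) g * theta K Ω v ∈ I) {D : Finset Ω}
    {r : Ω → ℕ} {V : Submodule K (MonoidAlgebra K (FSym Ω))} (hV : toSub I ≤ V)
    {a w : Fin m → Ω} (haw : Gen a w)
    (hV2 : ∀ g, Irr k D r g → ud K a w * MonoidAlgebra.of K (FSym Ω) g ∈ V) {g : FSym Ω}
    (hg : OnD D g) : ud K a w * MonoidAlgebra.of K (FSym Ω) g ∈ V := by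
  rw [← H3c_memW_of]
  have h1 := straighten (K := K) (m := k) D r (H3c_W V (ud K a w)) (by
    intro g x y _ hxy _ _
    rw [H3c_memW, map_mul, theta_of, smul_mul_assoc, mul_smul_comm, ← mul_assoc]
    exact V.smul_mem _ (hV (h _ _ _ _ g (ud_isDiff haw) (ud_isDiff hxy)))) hg
  have h2 : H3c_W V (ud K a w) ⊔ Submodule.span K {z | ∃ h : FSym Ω, Irr k D r h ∧
      z = MonoidAlgebra.of K (FSym Ω) h} ≤ H3c_W V (ud K a w) := by
    rw [sup_le_iff]
    refine ⟨le_refl _, ?_⟩
    rw [Submodule.span_le]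
    rintro z ⟨q, hq, rfl⟩
    exact H3c_memW_of.2 (hV2 q hq)
  exact h2 h1

/-- **The mixed case.** Let `B₁`, `B₂` be the finite sets of `card_irr` for `m`, `k`, and
`V = toSub I + span {ud a w * h : a, w letters of D, h ∈ B₂}`. For fixed `a`, `w` let
`W = {y : ud a w * theta y ∈ V}`, a subspace; by hypothesis `g * ud x y ∈ W` for all `g`, `x`, `y`
(`theta (g * ud x y) = ± g * theta (ud x y)`) and `Irr k D r h` gives `h ∈ W` (`theta h = ± h`); so by
`straighten` (for `k`) all permutations of `D` are in `W`, that is `ud a w * g ∈ V` for all `g`. Hence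
`g * ud a w = ud (g a) (g w) * g ∈ V` (`of_mul_ud`), and by `straighten` (for `m`) all permutations of
`D` lie in `V + span B₁`: `codim ≤ (#D + 1) ^ (4 m) + #D ^ (2 m) * (#D + 1) ^ (4 k)`. -/
theorem codimIn_le_of_mix {k : ℕ} {I : Ideals K Ω}
    (h : ∀ (S T : Finset Ω) (X v : MonoidAlgebra K (FSym Ω)) (g : FSym Ω), IsDiff K m S X →
      IsDiff K k T v → X * MonoidAlgebra.of K (FSym Ω) g * theta K Ω v ∈ I) (D : Finset Ω) :
    codimIn I D ≤ (D.card + 1) ^ (4 * m) + D.card ^ (2 * m) * (D.card + 1) ^ (4 * k) := by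
  classical
  obtain ⟨r, hr⟩ := H3c_rank D
  obtain ⟨B₁, h11, h12⟩ := card_irr hr m
  obtain ⟨B₂, h21, h22⟩ := card_irr hr k
  let F : ((Fin m → D) × (Fin m → D)) × FSym Ω → MonoidAlgebra K (FSym Ω) := fun p =>
    ud K (fun i => (p.1.1 i : Ω)) (fun i => (p.1.2 i : Ω)) * MonoidAlgebra.of K (FSym Ω) p.2
  obtain ⟨C, hC⟩ : ∃ C : Finset (MonoidAlgebra K (FSym Ω)), C =
    ((univ : Finset ((Fin m → D) × (Fin m → D))) ×ˢ B₂).image F := ⟨_, rfl⟩
  have hCmem : ∀ (a w : Fin m → Ω) (g : FSym Ω), (∀ i, a i ∈ D) → (∀ i, w i ∈ D) → g ∈ B₂ →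
      ud K a w * MonoidAlgebra.of K (FSym Ω) g ∈ C := by
    intro a w g ha hw hg
    rw [hC, mem_image]
    exact ⟨((fun i => ⟨a i, ha i⟩, fun i => ⟨w i, hw i⟩), g),
      mem_product.2 ⟨mem_univ _, hg⟩, rfl⟩
  have hCcard : C.card ≤ D.card ^ (2 * m) * (D.card + 1) ^ (4 * k) := by
    rw [hC]
    refine card_image_le.trans ?_
    rw [card_product, card_univ, Fintype.card_prod, Fintype.card_fun, Fintype.card_fin,
      Fintype.card_coe, two_mul, pow_add]
    exact Nat.mul_le_mul_left _ h21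
  obtain ⟨V, hVdef⟩ : ∃ V : Submodule K (MonoidAlgebra K (FSym Ω)), V = toSub I ⊔
    Submodule.span K (C : Set (MonoidAlgebra K (FSym Ω))) := ⟨_, rfl⟩
  have hIV : toSub I ≤ V := hVdef ▸ le_sup_left
  have hCV : Submodule.span K (C : Set (MonoidAlgebra K (FSym Ω))) ≤ V := hVdef ▸ le_sup_right
  have key : ∀ (a w : Fin m → Ω) (g : FSym Ω), Gen a w → (∀ i, a i ∈ D) → (∀ i, w i ∈ D) →
      OnD D g → ud K a w * MonoidAlgebra.of K (FSym Ω) g ∈ V := by
    intro a w g haw ha hw hg
    exact H3c_step h hIV haw (fun q hq => hCV (Submodule.subset_span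
      (hCmem a w q ha hw (h22 q hq)))) hg
  have hfin := codimIn_le_card (I := I) (D := D) (B₁.image (MonoidAlgebra.of K (FSym Ω)) ∪ C) (by
    intro g hg
    have h2 := straighten (K := K) (m := m) D r V (by
      intro g x y hg hxy hx hy
      rw [of_mul_ud]
      exact key _ _ g (hxy.mv g) (fun i => H1_mem hg (hx i)) (fun i => H1_mem hg (hy i)) hg) hg
    have h3 : V ⊔ Submodule.span K {z | ∃ h : FSym Ω, Irr m D r h ∧
        z = MonoidAlgebra.of K (FSym Ω) h} ≤ toSub I ⊔ Submodule.span K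
        ((B₁.image (MonoidAlgebra.of K (FSym Ω)) ∪ C : Finset (MonoidAlgebra K (FSym Ω))) :
          Set (MonoidAlgebra K (FSym Ω))) := by
      rw [hVdef, sup_assoc]
      refine sup_le_sup_left ?_ _
      rw [sup_le_iff]
      constructor
      · refine Submodule.span_mono ?_
        intro z hz
        exact mem_coe.2 (mem_union_right _ (mem_coe.1 hz))
      · refine Submodule.span_mono ?_
        rintro z ⟨q, hq, rfl⟩
        exact mem_coe.2 (mem_union_left _ (mem_image_of_mem _ (h12 q hq)))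
    exact h3 h2)
  exact hfin.trans ((card_union_le _ _).trans (Nat.add_le_add (card_image_le.trans h11) hCcard))

end SmallPrime
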