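import Pool.Agent.Lib.MP_a8d7f7_al.P.H3b
import Pool.Agent.Lib.MP_a8d7f7_al.P.H3c
import Pool.Agent.Lib.MP_a8d7f7_al.P.G3

/-!
# MP_a8d7f7_al, ideals of small growth: the gap (module H3d)
-/

set_option autoImplicit false
set_option linter.unusedSectionVars false
set_option linter.unusedVariables false

namespace SmallPrime

open Finset Equiv FinSym
open ThreeLetter (Ideals)
open Rank2 (On sw e IsDiff)

variable {K : Type*} [Field K] {Ω : Type*} [DecidableEq Ω] {m : ℕ}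

theorem H3d_est1 (n m : ℕ) : (n + 1) ^ (4 * m) ≤ (n + (4 * m + 1)) ^ (4 * m + 1) :=
  (Nat.pow_le_pow_left (by omega) _).trans (Nat.pow_le_pow_right (by omega) (by omega))

theorem H3d_est2 (n m k : ℕ) : (n + 1) ^ (4 * m) + n ^ (2 * m) * (n + 1) ^ (4 * k) ≤
    (n + (4 * m + 4 * k + 2)) ^ (4 * m + 4 * k + 2) := by
  have h1 : (n + 1) ^ (4 * m) ≤ (n + 1) ^ (4 * m + 4 * k) :=
    Nat.pow_le_pow_right (by omega) (by omega)
  have h2 : n ^ (2 * m) * (n + 1) ^ (4 * k) ≤ (n + 1) ^ (4 * m + 4 * k) := by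
    calc n ^ (2 * m) * (n + 1) ^ (4 * k) ≤ (n + 1) ^ (2 * m) * (n + 1) ^ (4 * k) :=
          Nat.mul_le_mul_right _ (Nat.pow_le_pow_left (by omega) _)
      _ = (n + 1) ^ (2 * m + 4 * k) := (pow_add _ _ _).symm
      _ ≤ _ := Nat.pow_le_pow_right (by omega) (by omega)
  have h3 : (n + 1) ^ (4 * m + 4 * k) ≤ (n + (4 * m + 4 * k + 2)) ^ (4 * m + 4 * k) :=
    Nat.pow_le_pow_left (by omega) _
  calc (n + 1) ^ (4 * m) + n ^ (2 * m) * (n + 1) ^ (4 * k)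
      ≤ 2 * (n + (4 * m + 4 * k + 2)) ^ (4 * m + 4 * k) := by omega
    _ ≤ (n + (4 * m + 4 * k + 2)) * (n + (4 * m + 4 * k + 2)) ^ (4 * m + 4 * k) :=
        Nat.mul_le_mul_right _ (by omega)
    _ = (n + (4 * m + 4 * k + 2)) ^ (4 * m + 4 * k + 1) := by rw [pow_succ, mul_comm]
    _ ≤ _ := Nat.pow_le_pow_right (by omega) (by omega)

/-- **The gap.** (`mem_of_codim_lt`, `mul_mem_of_split`, `codimIn_le_of_mix` if `2 ≠ 0`,
`mem_of_codim_lt_two`, `isDiff_mem_of`, `codimIn_le_of_isDiff` if `2 = 0`; elementary estimates: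
`a + b ≤ 2 max`, `2 * (n + 1) ^ s ≤ (n + s + 2) ^ (s + 2)`.) -/
theorem gap [Infinite Ω] {I : Ideals K Ω} {D : Finset Ω} (h : codimIn I D < 2 ^ (D.card / 3)) :
    ∃ s : ℕ, ∀ D' : Finset Ω, codimIn I D' ≤ (D'.card + s) ^ s := by
  by_cases h2 : (2 : K) = 0
  · obtain ⟨m, S, u, hu, huI⟩ := mem_of_codim_lt_two h2 h
    refine ⟨4 * m + 1, fun D' => ?_⟩
    exact (codimIn_le_of_isDiff (m := m) (I := I)
      (fun S' u' hu' => isDiff_mem_of hu huI hu') D').trans (H3d_est1 _ _)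
  · obtain ⟨c, c', S₁, S₂, u, v, hS, hu, hv, huv⟩ := mem_of_codim_lt h2 h
    refine ⟨4 * (c + 2 * c') + 4 * c' + 2, fun D' => ?_⟩
    exact (codimIn_le_of_mix (m := c + 2 * c') (k := c') (I := I)
      (fun S T X v' g hX hv' => mul_mem_of_split hS hu hv huv hX hv' g) D').trans
      (H3d_est2 _ _ _)

end SmallPrime
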