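import Pool.Agent.Lib.MP_a8d7f7_al.P.M3
import Pool.Agent.Lib.MP_a8d7f7_al.P.G3

/-!
# MP_a8d7f7_al, ideals of small growth: the prime ideals over an ideal of small growth (module M4)
-/

set_option autoImplicit false
set_option linter.unusedSectionVars false
set_option linter.unusedVariables false

namespace SmallPrime

open Finset Equiv FinSym
open ThreeLetter (Ideals)
open Rank2 (On sw e IsDiff)

variable {K : Type*} [Field K] {Ω : Type*} [DecidableEq Ω] {d : ℕ}

/-- **An ideal of small growth contains a product of listed prime ideals which contain it.** -/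
theorem exists_prodLe_small_ge [Infinite Ω] {I : Ideals K Ω} {D : Finset Ω}
    (h : codimIn I D < 2 ^ (D.card / 3)) :
    ∃ L : List (Ideals K Ω), (∀ P ∈ L, (∃ (d : ℕ) (N : TwoSidedIdeal (SAlg K d)), IsPrime N ∧
      (P = PI K Ω N ∨ P = tw (PI K Ω N))) ∧ I ≤ P) ∧ ProdLe L I := by
  by_cases h2 : (2 : K) = 0
  · obtain ⟨m, S, u, hu, huI⟩ := mem_of_codim_lt_two h2 h
    obtain ⟨L, hL, hL'⟩ := exists_prodLe_sup I m
    refine ⟨L, ?_, ?_⟩
    · intro P hP
      obtain ⟨⟨d, N, hN, h3⟩, h4⟩ := hL P hP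
      exact ⟨⟨d, N, hN, Or.inl h3⟩, h4⟩
    · intro l hl
      have h3 : I ⊔ UI K Ω m ≤ I :=
        sup_le le_rfl (UI_le fun S' u' hu' => isDiff_mem_of hu huI hu')
      exact h3 (hL' l hl)
  · obtain ⟨c, c', S₁, S₂, u, v, hS, hu, hv, huv⟩ := mem_of_codim_lt h2 h
    obtain ⟨L, hL, hL'⟩ := exists_prodLe_sup I (c + 2 * c')
    obtain ⟨M, hM, hM'⟩ := exists_prodLe_sup (tw I) c'
    refine ⟨L ++ M.map tw, ?_, ?_⟩
    · intro P hP
      rw [List.mem_append] at hP
      rcases hP with h3 | h3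
      · obtain ⟨⟨d, N, hN, h4⟩, h5⟩ := hL P h3
        exact ⟨⟨d, N, hN, Or.inl h4⟩, h5⟩
      · obtain ⟨Q, hQ, rfl⟩ := List.mem_map.mp h3
        obtain ⟨⟨d, N, hN, h4⟩, h5⟩ := hM Q hQ
        refine ⟨⟨d, N, hN, Or.inr (by rw [h4])⟩, ?_⟩
        rw [← tw_tw I]
        exact tw_mono h5
    · have h3 : tw (tw I ⊔ UI K Ω c') ≤ I ⊔ tw (UI K Ω c') := by
        have h4 : tw I ⊔ UI K Ω c' ≤ tw (I ⊔ tw (UI K Ω c')) := by
          apply sup_le
          · exact tw_mono le_sup_left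
          · rw [← tw_tw (UI K Ω c')]
            exact tw_mono (le_sup_right.trans (by rw [tw_tw]))
        have h5 := tw_mono h4
        rwa [tw_tw] at h5
      refine hL'.append hM'.map_tw (fun x hx y hy => ?_)
      refine mul_mem_of_sup (fun x hx y hy => UI_mul_tw
        (fun S T X w g hX hw => mul_mem_of_split hS hu hv huv hX hw g) hx hy) hx (h3 hy)

end SmallPrime
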