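import Pool.Agent.Lib.MP_a8d7f7_al.P.N1b

/-!
# MP_a8d7f7_al, ideals of small growth: semiprime ideals (module M5)
-/

set_option autoImplicit false
set_option linter.unusedSectionVars false
set_option linter.unusedVariables false

namespace SmallPrime

open Finset Equiv FinSym
open ThreeLetter (Ideals)
open Rank2 (On sw e IsDiff)

/-- products of `n` elements which lie in all ideals of `L` are in `I` -/
def M5_good {R : Type*} [Ring R] (I : TwoSidedIdeal R) (L : List (TwoSidedIdeal R)) (n : ℕ) : Prop :=
  ∀ l : List R, l.length = n → (∀ y ∈ l, ∀ P ∈ L, y ∈ P) → l.prod ∈ I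

theorem M5_forall₂ {R : Type*} [Ring R] (L : List (TwoSidedIdeal R)) :
    ∀ l : List R, l.length = L.length → (∀ y ∈ l, ∀ P ∈ L, y ∈ P) →
      List.Forall₂ (fun y P => y ∈ P) l L := by
  induction L with
  | nil =>
    intro l hl _
    rw [List.length_nil, List.length_eq_zero_iff] at hl
    subst hl
    exact List.Forall₂.nil
  | cons P L ih =>
    intro l hl h
    cases l with
    | nil => simp at hl
    | cons y l =>
      refine List.Forall₂.cons (h y (by simp) P (by simp)) (ih l (by simpa using hl) ?_)
      intro z hz Q hQ
      exact h z (List.mem_cons_of_mem _ hz) Q (List.mem_cons_of_mem _ hQ)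

theorem M5_step {R : Type*} [Ring R] {I : TwoSidedIdeal R}
    (hI : ∀ x : R, (∀ r : R, x * r * x ∈ I) → x ∈ I) {L : List (TwoSidedIdeal R)} {n : ℕ}
    (h : M5_good I L (n + 2)) : M5_good I L (n + 1) := by
  intro l hl hY
  cases l with
  | nil => simp at hl
  | cons x t =>
    apply hI
    intro r
    have h1 : ((x :: t) ++ [r * x]).prod ∈ I := by
      apply h
      · rw [List.length_append, hl]
        rfl
      · intro y hy P hP
        rcases List.mem_append.1 hy with h2 | h2
        · exact hY y h2 P hP
        · rw [List.mem_singleton.1 h2]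
          exact P.mul_mem_left _ _ (hY x (by simp) P hP)
    have h2 : (x :: t).prod * r * (x :: t).prod = ((x :: t) ++ [r * x]).prod * t.prod := by
      rw [List.prod_append, List.prod_singleton, List.prod_cons]
      simp only [mul_assoc]
    rw [h2]
    exact I.mul_mem_right _ _ h1

/-- Let `I` be semiprime, contained in all ideals of the list `L`, with product of `L` in `I`. Then `I` is
their intersection: let `y` be in all of them, more generally let `Y` be the set (ideal) of the elements
in all of them, and `n` minimal such that every product of `n` elements of `Y` is in `I` (`n ≤` length of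
`L`). If `n = 0`, `1 ∈ I`. If `n ≥ 2` take `p = y₁ ⋯ y_(n-1)`, `y_i ∈ Y`: `p * r * p` begins with the
product of the `n` elements `y₁, …, y_(n-1), r * y₁` of `Y` (for `n = 1 + 1` this is `y₁ * (r * y₁)`), so
it is in `I` for all `r`, and `p ∈ I`, against minimality. So `n ≤ 1`. -/
theorem mem_iff_of_semiprime {R : Type*} [Ring R] {I : TwoSidedIdeal R}
    (hI : ∀ x : R, (∀ r : R, x * r * x ∈ I) → x ∈ I) {L : List (TwoSidedIdeal R)}
    (hL : ∀ P ∈ L, I ≤ P) (h : ProdLe L I) {y : R} : y ∈ I ↔ ∀ P ∈ L, y ∈ P := by
  constructor
  · intro hy P hP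
    exact hL P hP hy
  · intro hy
    have h0 : M5_good I L L.length := fun l hl hY => h l (M5_forall₂ L l hl hY)
    have h1 : ∀ n, M5_good I L (n + 1) → M5_good I L 1 := by
      intro n
      induction n with
      | zero => exact fun h => h
      | succ n ih => exact fun h => ih (M5_step hI h)
    have h2 : M5_good I L 1 := by
      rcases Nat.eq_zero_or_pos L.length with h3 | h3
      · rw [h3] at h0
        have h4 : (1 : R) ∈ I := by
          have := h0 [] rfl (by simp)
          rwa [List.prod_nil] at this
        intro l _ _
        have h5 := I.mul_mem_left l.prod _ h4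
        rwa [mul_one] at h5
      · obtain ⟨n, hn⟩ : ∃ n, L.length = n + 1 := ⟨L.length - 1, by omega⟩
        rw [hn] at h0
        exact h1 n h0
    have h3 := h2 [y] rfl (by
      intro z hz
      rw [List.mem_singleton.1 hz]
      exact hy)
    rwa [List.prod_singleton] at h3

end SmallPrime
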