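import Pool.Agent.Lib.MP_a8d7f7_al.P.S1

/-!
# MP_a8d7f7_al, ideals of small growth: growth of twists and intersections (module M6)
-/

set_option autoImplicit false
set_option linter.unusedSectionVars false
set_option linter.unusedVariables false

namespace SmallPrime

open Finset Equiv FinSym
open ThreeLetter (Ideals)
open Rank2 (On sw e IsDiff)

variable {K : Type*} [Field K] {Ω : Type*} [DecidableEq Ω]

/-- the sign twist of `K[Sym D]` -/
noncomputable def M6_th (K : Type*) [Field K] {Ω : Type*} [DecidableEq Ω] (D : Finset Ω) :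
    MonoidAlgebra K (Perm D) →ₐ[K] MonoidAlgebra K (Perm D) :=
  MonoidAlgebra.lift K _ _
    { toFun := fun σ => sgK K (ext D σ) • MonoidAlgebra.of K (Perm D) σ
      map_one' := by rw [map_one, sgK_one, one_smul, map_one]
      map_mul' := by
        intro σ τ
        rw [map_mul, sgK_mul, map_mul, smul_mul_smul_comm] }

theorem M6_th_of (D : Finset Ω) (σ : Perm D) : M6_th K D (MonoidAlgebra.of K (Perm D) σ) =
    sgK K (ext D σ) • MonoidAlgebra.of K (Perm D) σ := by
  unfold M6_th
  rw [MonoidAlgebra.lift_of]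
  rfl

theorem M6_phi_of (D : Finset Ω) (σ : Perm D) : phi K D (MonoidAlgebra.of K (Perm D) σ) =
    MonoidAlgebra.of K (FSym Ω) (ext D σ) := phi_o D σ

theorem M6_phi_th (D : Finset Ω) (x : MonoidAlgebra K (Perm D)) :
    phi K D (M6_th K D x) = theta K Ω (phi K D x) := by
  induction x using MonoidAlgebra.induction_on with
  | of σ => rw [M6_th_of, map_smul, M6_phi_of, theta_of]
  | add f g hf hg => rw [map_add, map_add, map_add, map_add, hf, hg]
  | smul c f hf => rw [map_smul, map_smul, map_smul, map_smul, hf]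

theorem M6_th_th (D : Finset Ω) (x : MonoidAlgebra K (Perm D)) :
    M6_th K D (M6_th K D x) = x := by
  induction x using MonoidAlgebra.induction_on with
  | of σ => rw [M6_th_of, map_smul, M6_th_of, smul_smul, sgK_sq, one_smul]
  | add f g hf hg => rw [map_add, map_add, hf, hg]
  | smul c f hf => rw [map_smul, map_smul, hf]

/-- the sign twist as a linear equivalence -/
noncomputable def M6_equiv (K : Type*) [Field K] {Ω : Type*} [DecidableEq Ω] (D : Finset Ω) :
    MonoidAlgebra K (Perm D) ≃ₗ[K] MonoidAlgebra K (Perm D) :=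
  LinearEquiv.ofInvolutive (M6_th K D).toLinearMap (M6_th_th D)

/-- the sign twist of `K[Sym D]` (`FinSym.th`, FinMain.lean, or an own definition) is an isomorphism of
`K[Sym D]` onto itself with `phi (th x) = theta (phi x)`, which maps `restr (tw I) D` onto `restr I D` -/
theorem codimIn_tw (I : Ideals K Ω) (D : Finset Ω) : codimIn (tw I) D = codimIn I D := by
  unfold codimIn codim
  have h1 : (restr (tw I) D).map (M6_equiv K D : MonoidAlgebra K (Perm D) →ₗ[K] _) =
      restr I D := by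
    ext x
    rw [Submodule.mem_map]
    constructor
    · rintro ⟨y, hy, rfl⟩
      have hy' : theta K Ω (phi K D y) ∈ I := mem_tw.1 hy
      show phi K D (M6_th K D y) ∈ I
      rw [M6_phi_th]
      exact hy'
    · intro hx
      have hx' : phi K D x ∈ I := hx
      refine ⟨M6_th K D x, ?_, M6_th_th D x⟩
      show phi K D (M6_th K D x) ∈ tw I
      rw [mem_tw, M6_phi_th, theta_theta]
      exact hx'
  exact (Submodule.Quotient.equiv (restr (tw I) D) (restr I D) (M6_equiv K D) h1).finrank_eq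

/-- `restr (I ⊓ J) D = restr I D ⊓ restr J D` and `codim (S ⊓ T) ≤ codim S + codim T` (the map
`V → V / S × V / T` has kernel `S ⊓ T`); here for any ideal `M` containing `I ∩ J` -/
theorem codimIn_le_add {I J M : Ideals K Ω} (h : ∀ y, y ∈ I → y ∈ J → y ∈ M) (D : Finset Ω) :
    codimIn M D ≤ codimIn I D + codimIn J D := by
  unfold codimIn codim
  have hfin : Module.Finite K (MonoidAlgebra K (Perm D)) := inferInstance
  have h1 : restr I D ⊓ restr J D ≤ restr M D := by
    intro x hx
    rw [Submodule.mem_inf] at hx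
    exact h _ hx.1 hx.2
  have h2 := Submodule.finrank_mono h1
  have h3 := Submodule.finrank_quotient_add_finrank (restr I D)
  have h4 := Submodule.finrank_quotient_add_finrank (restr J D)
  have h5 := Submodule.finrank_quotient_add_finrank (restr M D)
  have h6 := Submodule.finrank_sup_add_finrank_inf_eq (restr I D) (restr J D)
  have h7 := Submodule.finrank_le (restr I D ⊔ restr J D)
  omega

theorem M6_est (n a b : ℕ) : (n + a) ^ a + (n + b) ^ b ≤ (n + (a + b + 2)) ^ (a + b + 2) := by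
  have h1 : (n + a) ^ a ≤ (n + (a + b + 2)) ^ (a + b) :=
    (Nat.pow_le_pow_left (by omega) _).trans (Nat.pow_le_pow_right (by omega) (by omega))
  have h2 : (n + b) ^ b ≤ (n + (a + b + 2)) ^ (a + b) :=
    (Nat.pow_le_pow_left (by omega) _).trans (Nat.pow_le_pow_right (by omega) (by omega))
  calc (n + a) ^ a + (n + b) ^ b ≤ 2 * (n + (a + b + 2)) ^ (a + b) := by omega
    _ ≤ (n + (a + b + 2)) * (n + (a + b + 2)) ^ (a + b) := Nat.mul_le_mul_right _ (by omega)
    _ = (n + (a + b + 2)) ^ (a + b + 1) := by rw [pow_succ, mul_comm]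
    _ ≤ _ := Nat.pow_le_pow_right (by omega) (by omega)

/-- a list of ideals of polynomial growth: induction (`codimIn_le_add`); `M = ⊤` for the empty list -/
theorem polyGrowth_of_list {L : List (Ideals K Ω)} (hL : ∀ P ∈ L, ∃ s, PolyGrowth s P)
    {M : Ideals K Ω} (hM : ∀ y, (∀ P ∈ L, y ∈ P) → y ∈ M) : ∃ s, PolyGrowth s M := by
  induction L generalizing M with
  | nil =>
    refine ⟨0, fun D => ?_⟩
    have h1 : restr M D = ⊤ := by
      rw [eq_top_iff]
      intro x _
      exact hM _ (by simp)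
    have h2 : codimIn M D = 0 := by
      unfold codimIn codim
      have h3 := Submodule.finrank_quotient_add_finrank (restr M D)
      have h4 : Module.finrank K (restr M D) = Module.finrank K (MonoidAlgebra K (Perm D)) := by
        rw [h1]
        exact finrank_top K _
      omega
    rw [h2]
    exact Nat.zero_le _
  | cons P L ih =>
    obtain ⟨a, ha⟩ := hL P (by simp)
    obtain ⟨J, hJ⟩ : ∃ J : Ideals K Ω, ∀ y, y ∈ J ↔ ∀ Q ∈ L, y ∈ Q :=
      ⟨sInf {Q | Q ∈ L}, fun y => TwoSidedIdeal.mem_sInf _⟩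
    obtain ⟨b, hb⟩ := ih (fun Q hQ => hL Q (List.mem_cons_of_mem _ hQ)) (M := J)
      (fun y hy => (hJ y).2 hy)
    refine ⟨a + b + 2, fun D => ?_⟩
    have h1 := codimIn_le_add (I := P) (J := J) (M := M) (fun y hy hy' => hM y (by
      intro Q hQ
      rcases List.mem_cons.1 hQ with h2 | h2
      · rw [h2]; exact hy
      · exact (hJ y).1 hy' Q h2)) D
    exact h1.trans ((Nat.add_le_add (ha D) (hb D)).trans (M6_est _ _ _))

theorem M6_lt (s : ℕ) : ∃ n : ℕ, (n + s) ^ s < 2 ^ (n / 3) := by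
  obtain ⟨t, ht⟩ : ∃ t, t = 3 * s + 3 := ⟨_, rfl⟩
  refine ⟨3 * 2 ^ (2 * t), ?_⟩
  have h0 : 1 ≤ 2 ^ (2 * t) := Nat.one_le_two_pow
  have h1 : 3 * 2 ^ (2 * t) + s ≤ 2 ^ (2 * t + (s + 3)) := by
    have h2 : s + 3 < 2 ^ (s + 3) := Nat.lt_two_pow_self
    rw [pow_add]
    nlinarith
  have h3 : (2 * t + (s + 3)) * s < 2 ^ (2 * t) := by
    have h4 : t < 2 ^ t := Nat.lt_two_pow_self
    have h5 : 2 ^ (2 * t) = 2 ^ t * 2 ^ t := by rw [two_mul, pow_add]
    rw [h5]
    have h6 : (2 * t + (s + 3)) * s ≤ t * t := by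
      have h7 : 2 * t + (s + 3) ≤ 3 * t := by omega
      have h8 : 3 * s ≤ t := by omega
      nlinarith
    have h9 : t * t < 2 ^ t * 2 ^ t := Nat.mul_lt_mul'' h4 h4
    exact lt_of_le_of_lt h6 h9
  rw [Nat.mul_div_cancel_left _ (by norm_num : 0 < 3)]
  calc (3 * 2 ^ (2 * t) + s) ^ s ≤ (2 ^ (2 * t + (s + 3))) ^ s := Nat.pow_le_pow_left h1 _
    _ = 2 ^ ((2 * t + (s + 3)) * s) := (pow_mul _ _ _).symm
    _ < 2 ^ 2 ^ (2 * t) := Nat.pow_lt_pow_right (by norm_num) h3

/-- `(n + s) ^ s < 2 ^ (n / 3)` for large `n`, and `Ω` is infinite -/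
theorem smallGrowth_of_poly [Infinite Ω] {I : Ideals K Ω} (h : ∃ s, PolyGrowth s I) :
    SmallGrowth I := by
  obtain ⟨s, hs⟩ := h
  obtain ⟨n, hn⟩ := M6_lt s
  obtain ⟨D, hD⟩ := Infinite.exists_subset_card_eq Ω n
  refine ⟨D, ?_⟩
  rw [hD]
  have h1 := hs D
  rw [hD] at h1
  exact lt_of_le_of_lt h1 hn

end SmallPrime
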