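import Pool.Agent.Lib.MP_a8d7f7_al.P.Main
import Pool.Agent.Lib.MP_a8d7f7_al.P.H3d
import Pool.Agent.Lib.MP_a8d7f7_al.P.M4
import Pool.Agent.Lib.MP_a8d7f7_al.P.M5
import Pool.Agent.Lib.MP_a8d7f7_al.P.M6
import Pool.Agent.Lib.MP_a8d7f7_al.R2.Bridge

/-!
# MP_a8d7f7_al, ideals of small growth: the parts of the result
-/

set_option autoImplicit false
set_option linter.unusedSectionVars false
set_option linter.unusedVariables false

namespace SmallPrime

open Finset Equiv FinSym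
open ThreeLetter (Ideals twist twist_eq)
open Rank2 (IsDiff)

variable {K : Type*} [Field K] {Ω : Type*} [DecidableEq Ω]

theorem members (d : ℕ) (N : TwoSidedIdeal (SAlg K d)) (y : MonoidAlgebra K (FSym Ω)) :
    y ∈ PI K Ω N ↔ ∀ a b : Fin d ↪ Ω, sym y a b ∈ N := by
  rw [mem_PI]
  constructor
  · intro h a b
    exact h a b a.injective b.injective
  · intro h a b ha hb
    exact h ⟨a, ha⟩ ⟨b, hb⟩

theorem polyGrowth_PI [Infinite Ω] {d : ℕ} (N : TwoSidedIdeal (SAlg K d)) :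
    ∃ s, PolyGrowth s (PI K Ω N) := by
  refine ⟨2 * d, fun D => (growth_PI N D).trans ?_⟩
  exact Nat.pow_le_pow_left (by omega) _

theorem listed_poly [Infinite Ω] {P : Ideals K Ω} (h : Listed P) :
    IsPrime P ∧ ∃ s, PolyGrowth s P := by
  obtain ⟨d, N, hN, rfl | rfl⟩ := h
  · exact ⟨isPrime_PI hN, polyGrowth_PI N⟩
  · rw [twist_eq]
    refine ⟨isPrime_tw (isPrime_PI hN), ?_⟩
    obtain ⟨s, hs⟩ := polyGrowth_PI (Ω := Ω) N
    exact ⟨s, fun D => by rw [codimIn_tw]; exact hs D⟩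

theorem prime_listed [Infinite Ω] {P : Ideals K Ω} (hP : IsPrime P) (h : SmallGrowth P) :
    Listed P := by
  obtain ⟨D, hD⟩ := h
  rcases exists_isDiff_mem hP hD with h1 | h1
  · obtain ⟨d, N, hN, h2⟩ := eq_PI_of_isDiff_mem hP h1
    exact ⟨d, N, hN, Or.inl h2⟩
  · obtain ⟨d, N, hN, h2⟩ := eq_PI_of_isDiff_mem (isPrime_tw hP) h1
    refine ⟨d, N, hN, Or.inr ?_⟩
    rw [twist_eq, ← h2, tw_tw]

theorem prime_iff [Infinite Ω] (P : Ideals K Ω) : (IsPrime P ∧ SmallGrowth P) ↔ Listed P := by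
  constructor
  · rintro ⟨h1, h2⟩
    exact prime_listed h1 h2
  · intro h
    exact ⟨(listed_poly h).1, smallGrowth_of_poly (listed_poly h).2⟩

theorem small_iff_poly [Infinite Ω] (I : Ideals K Ω) : SmallGrowth I ↔ ∃ s, PolyGrowth s I := by
  constructor
  · rintro ⟨D, hD⟩
    exact gap hD
  · exact smallGrowth_of_poly

theorem small_product [Infinite Ω] (I : Ideals K Ω) (h : SmallGrowth I) :
    ∃ L : List (Ideals K Ω), (∀ P ∈ L, Listed P ∧ I ≤ P) ∧ ProductLe L I := by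
  obtain ⟨D, hD⟩ := h
  obtain ⟨L, h1, h2⟩ := exists_prodLe_small_ge hD
  refine ⟨L, ?_, h2⟩
  intro P hP
  obtain ⟨⟨d, N, hN, h3⟩, h4⟩ := h1 P hP
  refine ⟨⟨d, N, hN, ?_⟩, h4⟩
  rw [twist_eq]
  exact h3

theorem semiprime_iff [Infinite Ω] (I : Ideals K Ω) : (IsSemiprime I ∧ SmallGrowth I) ↔
    ∃ L : List (Ideals K Ω), (∀ P ∈ L, Listed P) ∧ ∀ y, y ∈ I ↔ ∀ P ∈ L, y ∈ P := by
  constructor
  · rintro ⟨h1, h2⟩
    obtain ⟨L, hL, hL'⟩ := small_product I h2
    exact ⟨L, fun P hP => (hL P hP).1,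
      fun y => mem_iff_of_semiprime h1 (fun P hP => (hL P hP).2) hL'⟩
  · rintro ⟨L, hL, hI⟩
    refine ⟨?_, smallGrowth_of_poly (polyGrowth_of_list (fun P hP => (listed_poly (hL P hP)).2)
      (fun y hy => (hI y).mpr hy))⟩
    intro x hx
    rw [hI]
    intro P hP
    rcases (listed_poly (hL P hP)).1.2 x x (fun r => (hI _).mp (hx r) P hP) with h | h <;> exact h

end SmallPrime
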