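import Pool.Agent.Lib.MP_a8d7f7_al.P.U0b
import Pool.Agent.Lib.MP_a8d7f7_al.P.S2

/-!
# MP_a8d7f7_al, prime ideals of small growth: conjugacy of products of differences (module G0)
-/

set_option autoImplicit false
set_option linter.unusedSectionVars false
set_option linter.unusedVariables false

namespace SmallPrime

open Finset Equiv FinSym
open ThreeLetter (Ideals)
open Rank2 (On sw e IsDiff)

variable {K : Type*} [Field K] {Ω : Type*} [DecidableEq Ω]

theorem card_isDiff {m : ℕ} {S : Finset Ω} {u : MonoidAlgebra K (FSym Ω)} (h : IsDiff K m S u) :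
    S.card = 2 * m := by
  induction h with
  | zero => rfl
  | succ c S u a b hab ha hb h ih =>
    rw [card_insert_of_notMem (by simp [hab, ha]), card_insert_of_notMem hb, ih]
    ring

/-- products of differences exist outside every finite set -/
theorem exists_isDiff [Infinite Ω] (m : ℕ) (D : Finset Ω) :
    ∃ (S : Finset Ω) (u : MonoidAlgebra K (FSym Ω)), Disjoint S D ∧ IsDiff K m S u := by
  induction m generalizing D with
  | zero => exact ⟨∅, 1, disjoint_empty_left _, IsDiff.zero⟩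
  | succ m ih =>
    obtain ⟨S, u, hS, hu⟩ := ih D
    obtain ⟨a, ha⟩ := Infinite.exists_notMem_finset (S ∪ D)
    obtain ⟨b, hb⟩ := Infinite.exists_notMem_finset (insert a (S ∪ D))
    simp only [mem_insert, mem_union, not_or] at ha hb
    refine ⟨_, _, ?_, IsDiff.succ m S u a b (fun h => hb.1 h.symm) ha.1 hb.2.1 hu⟩
    rw [disjoint_insert_left, disjoint_insert_left]
    exact ⟨ha.2, hb.2.2, hS⟩

theorem G0_inj {m k : ℕ} {a w : Fin m → Ω} {c z : Fin k → Ω} (h1 : Gen a w) (h2 : Gen c z)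
    (hd : Disjoint (lets a w) (lets c z)) :
    Function.Injective (Sum.elim (Sum.elim a w) (Sum.elim c z)) := by
  refine (h1.inj_a.sumElim h1.inj_w h1.ne).sumElim (h2.inj_a.sumElim h2.inj_w h2.ne) ?_
  have h3 : ∀ x, Sum.elim a w x ∈ lets a w := by
    rintro (i | i)
    · exact mem_union_left _ (mem_image_of_mem _ (mem_univ _))
    · exact mem_union_right _ (mem_image_of_mem _ (mem_univ _))
  have h4 : ∀ x, Sum.elim c z x ∈ lets c z := by
    rintro (i | i)
    · exact mem_union_left _ (mem_image_of_mem _ (mem_univ _))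
    · exact mem_union_right _ (mem_image_of_mem _ (mem_univ _))
  intro x y hxy
  exact disjoint_left.mp hd (h3 x) (hxy ▸ h4 y)

/-- pairs of products of differences with disjoint letters are conjugate (`exists_gen`, `exists_mv` with
`ι = Fin m ⊕ Fin m ⊕ Fin k ⊕ Fin k`, `of_mul_ud`) -/
theorem isDiff_conj₂ {m k : ℕ} {S S' T T' : Finset Ω} {u u' v v' : MonoidAlgebra K (FSym Ω)}
    (hu : IsDiff K m S u) (hv : IsDiff K k T v) (hST : Disjoint S T) (hu' : IsDiff K m S' u')
    (hv' : IsDiff K k T' v') (hST' : Disjoint S' T') :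
    ∃ g : FSym Ω, MonoidAlgebra.of K (FSym Ω) g * u * MonoidAlgebra.of K (FSym Ω) g⁻¹ = u' ∧
      MonoidAlgebra.of K (FSym Ω) g * v * MonoidAlgebra.of K (FSym Ω) g⁻¹ = v' := by
  obtain ⟨a, w, hG, hl, rfl⟩ := exists_gen hu
  obtain ⟨c, z, hG2, hl2, rfl⟩ := exists_gen hv
  obtain ⟨a', w', hG', hl', rfl⟩ := exists_gen hu'
  obtain ⟨c', z', hG2', hl2', rfl⟩ := exists_gen hv'
  subst hl hl2 hl' hl2'
  obtain ⟨g, hg⟩ := exists_mv _ _ (G0_inj hG hG2 hST) (G0_inj hG' hG2' hST')
  have e1 : mv g a = a' := funext fun i => hg (Sum.inl (Sum.inl i))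
  have e2 : mv g w = w' := funext fun i => hg (Sum.inl (Sum.inr i))
  have e3 : mv g c = c' := funext fun i => hg (Sum.inr (Sum.inl i))
  have e4 : mv g z = z' := funext fun i => hg (Sum.inr (Sum.inr i))
  refine ⟨g, ?_, ?_⟩
  · rw [of_mul_ud, e1, e2, mul_assoc, ← map_mul, mul_inv_cancel, map_one, mul_one]
  · rw [of_mul_ud, e3, e4, mul_assoc, ← map_mul, mul_inv_cancel, map_one, mul_one]

/-- an ideal contains all products of `m` differences or none (`isDiff_conj₂` with `k = 0`) -/
theorem isDiff_mem_of {m : ℕ} {S S' : Finset Ω} {u u' : MonoidAlgebra K (FSym Ω)} {P : Ideals K Ω}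
    (hu : IsDiff K m S u) (hP : u ∈ P) (hu' : IsDiff K m S' u') : u' ∈ P := by
  obtain ⟨g, hg, -⟩ := isDiff_conj₂ hu IsDiff.zero (disjoint_empty_right _) hu' IsDiff.zero
    (disjoint_empty_right _)
  rw [← hg]
  exact P.mul_mem_right _ _ (P.mul_mem_left _ _ hP)

/-- `theta` of a conjugate: the signs of `g`, `g⁻¹` cancel (`FinSym.theta_of`, `FinSym.sgK_mul`) -/
theorem theta_conj (g : FSym Ω) (y : MonoidAlgebra K (FSym Ω)) :
    theta K Ω (MonoidAlgebra.of K (FSym Ω) g * y * MonoidAlgebra.of K (FSym Ω) g⁻¹) =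
      MonoidAlgebra.of K (FSym Ω) g * theta K Ω y * MonoidAlgebra.of K (FSym Ω) g⁻¹ := by
  rw [map_mul, map_mul, theta_of, theta_of, smul_mul_assoc, mul_smul_comm, smul_mul_assoc, smul_smul,
    ← sgK_mul, inv_mul_cancel, sgK_one, one_smul]

end SmallPrime
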