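import Pool.Agent.Lib.MP_a8d7f7_al.P.G0
import Pool.Agent.Lib.MP_a8d7f7_al.P.G0c

/-!
# MP_a8d7f7_al, prime ideals of small growth: small codimension, characteristic not 2 (module G1)
-/

set_option autoImplicit false
set_option linter.unusedSectionVars false
set_option linter.unusedVariables false

namespace SmallPrime

open Finset Equiv FinSym
open ThreeLetter (Ideals)
open Rank2 (On sw e IsDiff)

variable {K : Type*} [Field K] {Ω : Type*} [DecidableEq Ω]

theorem G1_ext_swap {Δ : Finset Ω} (x y : Δ) : ext Δ (swap x y) = sw (x : Ω) y := by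
  apply Subtype.ext
  apply Equiv.ext
  intro z
  by_cases hz : z ∈ Δ
  · rw [ext_mem Δ _ hz, Rank2.sw_val]
    by_cases hza : z = x
    · subst hza
      rw [swap_apply_left, swap_apply_left]
    · by_cases hzb : z = y
      · subst hzb
        rw [swap_apply_right, swap_apply_right]
      · rw [swap_apply_of_ne_of_ne hza hzb, swap_apply_of_ne_of_ne]
        · exact fun h => hza (congrArg Subtype.val h)
        · exact fun h => hzb (congrArg Subtype.val h)
  · rw [ext_notMem Δ _ hz, Rank2.sw_val, swap_apply_of_ne_of_ne]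
    · exact fun h => hz (h ▸ x.2)
    · exact fun h => hz (h ▸ y.2)

theorem G1_theta_e {a b : Ω} (hab : a ≠ b) :
    theta K Ω (e K a b) = 1 + MonoidAlgebra.of K (FSym Ω) (sw a b) := by
  unfold Rank2.e
  rw [map_sub, map_one, theta_of]
  have h1 : sgn (sw a b : FSym Ω) = -1 := by
    have h2 := G1_ext_swap (⟨a, by simp⟩ : ({a, b} : Finset Ω)) (⟨b, by simp⟩ : ({a, b} : Finset Ω))
    rw [← h2, sgn_ext, Perm.sign_swap]
    intro h3
    exact hab (congrArg Subtype.val h3)
  unfold sgK
  rw [h1]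
  simp

theorem G1_theta_on {D : Finset Ω} {a b : Ω} (ha : a ∈ D) (hb : b ∈ D) :
    On D (theta K Ω (e K a b)) := by
  by_cases hab : a = b
  · subst hab
    rw [Rank2.e_self, map_zero]
    exact On.zero D
  · rw [G1_theta_e hab]
    exact (On.one D).add (On.of (Rank2.sw_fix ha hb))

/-- the factor of a family -/
noncomputable def G1_fac (K : Type*) [Field K] {Ω : Type*} [DecidableEq Ω] (a b : Ω) (s : Bool) :
    MonoidAlgebra K (FSym Ω) := if s then e K a b else theta K Ω (e K a b)

theorem G1_fac_true (a b : Ω) : G1_fac K a b true = e K a b := rfl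

theorem G1_fac_false (a b : Ω) : G1_fac K a b false = theta K Ω (e K a b) := rfl

theorem G1_fac_on {D : Finset Ω} {a b : Ω} (ha : a ∈ D) (hb : b ∈ D) (s : Bool) :
    On D (G1_fac K a b s) := by
  cases s
  · exact G1_theta_on ha hb
  · exact Rank2.e_On ha hb

theorem G1_tt (a b : Ω) : MonoidAlgebra.of K (FSym Ω) (sw a b) *
    MonoidAlgebra.of K (FSym Ω) (sw a b) = 1 := by
  rw [← map_mul, Rank2.sw_mul_self, map_one]

theorem G1_fac_sq {a b : Ω} (hab : a ≠ b) (s : Bool) :
    G1_fac K a b s * G1_fac K a b s = (2 : K) • G1_fac K a b s := by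
  have h := G1_tt (K := K) a b
  cases s
  · rw [G1_fac_false, G1_theta_e hab, two_smul, mul_add, add_mul, add_mul, h]
    noncomm_ring
  · rw [G1_fac_true]
    unfold Rank2.e
    rw [two_smul, mul_sub, sub_mul, sub_mul, h]
    noncomm_ring

theorem G1_fac_ne {a b : Ω} (hab : a ≠ b) {s t : Bool} (hst : s ≠ t) :
    G1_fac K a b s * G1_fac K a b t = 0 := by
  have h := G1_tt (K := K) a b
  cases s <;> cases t
  · exact absurd rfl hst
  · rw [G1_fac_false, G1_fac_true, G1_theta_e hab]
    unfold Rank2.e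
    rw [mul_sub, add_mul, add_mul, h]
    noncomm_ring
  · rw [G1_fac_false, G1_fac_true, G1_theta_e hab]
    unfold Rank2.e
    rw [mul_add, sub_mul, sub_mul, h]
    noncomm_ring
  · exact absurd rfl hst

/-- the product of `c` differences and `c'` sums of disjoint pairs (any order, `c + c' = k`) -/
inductive IsMix (K : Type*) [Field K] {Ω : Type*} [DecidableEq Ω] :
    ℕ → Finset Ω → MonoidAlgebra K (FSym Ω) → Prop
  | zero : IsMix K 0 ∅ 1
  | diff (k : ℕ) (S : Finset Ω) (u : MonoidAlgebra K (FSym Ω)) (a b : Ω) (hab : a ≠ b)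
      (ha : a ∉ S) (hb : b ∉ S) (h : IsMix K k S u) :
      IsMix K (k + 1) (insert a (insert b S)) (e K a b * u)
  | sum (k : ℕ) (S : Finset Ω) (u : MonoidAlgebra K (FSym Ω)) (a b : Ω) (hab : a ≠ b)
      (ha : a ∉ S) (hb : b ∉ S) (h : IsMix K k S u) :
      IsMix K (k + 1) (insert a (insert b S)) (theta K Ω (e K a b) * u)

theorem G1_mix_on {k : ℕ} {S : Finset Ω} {x : MonoidAlgebra K (FSym Ω)} (h : IsMix K k S x) :
    On S x := by
  induction h with
  | zero => exact On.one _
  | diff k S u a b hab ha hb h ih =>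
    exact (Rank2.e_On (mem_insert_self _ _) (mem_insert_of_mem (mem_insert_self _ _))).mul
      (ih.mono ((subset_insert _ _).trans (subset_insert _ _)))
  | sum k S u a b hab ha hb h ih =>
    exact (G1_theta_on (mem_insert_self _ _) (mem_insert_of_mem (mem_insert_self _ _))).mul
      (ih.mono ((subset_insert _ _).trans (subset_insert _ _)))

theorem G1_pair_disj {D : Finset Ω} {a b : Ω} (ha : a ∉ D) (hb : b ∉ D) :
    Disjoint ({a, b} : Finset Ω) D := by
  rw [disjoint_left]
  intro z hz
  simp only [mem_insert, mem_singleton] at hz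
  rcases hz with rfl | rfl <;> assumption

/-- a mixed product is a product of differences times `theta` of a product of differences (`theta K Ω
(e K a b)` commutes with elements moving other letters; `theta` is multiplicative) -/
theorem IsMix.split {k : ℕ} {S : Finset Ω} {x : MonoidAlgebra K (FSym Ω)} (h : IsMix K k S x) :
    ∃ (c c' : ℕ) (S₁ S₂ : Finset Ω) (u v : MonoidAlgebra K (FSym Ω)), c + c' = k ∧ Disjoint S₁ S₂ ∧
      S = S₁ ∪ S₂ ∧ IsDiff K c S₁ u ∧ IsDiff K c' S₂ v ∧ x = u * theta K Ω v := by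
  induction h with
  | zero => exact ⟨0, 0, ∅, ∅, 1, 1, rfl, disjoint_empty_left _, rfl, IsDiff.zero, IsDiff.zero, by
      rw [map_one, mul_one]⟩
  | diff k S u a b hab ha hb h ih =>
    obtain ⟨c, c', S₁, S₂, u', v', h1, h2, h3, h4, h5, h6⟩ := ih
    subst h3
    rw [mem_union, not_or] at ha hb
    refine ⟨c + 1, c', insert a (insert b S₁), S₂, e K a b * u', v', by omega, ?_, ?_,
      IsDiff.succ c S₁ u' a b hab ha.1 hb.1 h4, h5, ?_⟩
    · rw [disjoint_insert_left, disjoint_insert_left]
      exact ⟨ha.2, hb.2, h2⟩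
    · rw [insert_union, insert_union]
    · rw [h6, mul_assoc]
  | sum k S u a b hab ha hb h ih =>
    obtain ⟨c, c', S₁, S₂, u', v', h1, h2, h3, h4, h5, h6⟩ := ih
    subst h3
    rw [mem_union, not_or] at ha hb
    refine ⟨c, c' + 1, S₁, insert a (insert b S₂), u', e K a b * v', by omega, ?_, ?_,
      h4, IsDiff.succ c' S₂ v' a b hab ha.2 hb.2 h5, ?_⟩
    · rw [disjoint_insert_right, disjoint_insert_right]
      exact ⟨ha.1, hb.1, h2⟩
    · rw [union_insert, union_insert]
    · have h7 : theta K Ω (e K a b) * u' = u' * theta K Ω (e K a b) :=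
        On.commute (G1_pair_disj ha.1 hb.1) (G1_theta_on (by simp) (by simp)) h4.on
      rw [h6, map_mul, ← mul_assoc, h7, mul_assoc]

/-- `(1 - t)² = 2 (1 - t)`, `(1 + t)² = 2 (1 + t)`, `(1 - t)(1 + t) = 0`, and `theta (e a b) = 1 + t`.
Induction on `k`: for `E' : (Fin k → Bool) → _` on `D \ {a, b}` put
`E s = (if s 0 then e K a b else theta (e K a b)) * E' (Fin.tail s)`. -/
theorem exists_mix_family (k : ℕ) (D : Finset Ω) (hD : 2 * k ≤ D.card) :
    ∃ E : (Fin k → Bool) → MonoidAlgebra K (FSym Ω), (∀ s, ∃ S ⊆ D, IsMix K k S (E s)) ∧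
      (∀ s, E s * E s = (2 : K) ^ k • E s) ∧ ∀ s t, s ≠ t → E s * E t = 0 := by
  induction k generalizing D with
  | zero =>
    refine ⟨fun _ => 1, fun _ => ⟨∅, empty_subset _, IsMix.zero⟩, fun _ => ?_, fun s t hst => ?_⟩
    · rw [mul_one, pow_zero, one_smul]
    · exact absurd (Subsingleton.elim s t) hst
  | succ k ih =>
    obtain ⟨a, ha, b, hb, hab⟩ := one_lt_card.mp (show 1 < D.card by omega)
    have hb' : b ∈ D.erase a := mem_erase.mpr ⟨hab.symm, hb⟩
    obtain ⟨E, h1, h2, h3⟩ := ih ((D.erase a).erase b) (by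
      rw [card_erase_of_mem hb', card_erase_of_mem ha]; omega)
    have haD : a ∉ (D.erase a).erase b := fun h => (mem_erase.mp (mem_erase.mp h).2).1 rfl
    have hbD : b ∉ (D.erase a).erase b := fun h => (mem_erase.mp h).1 rfl
    have hc : ∀ s t, G1_fac K a b s * E t = E t * G1_fac K a b s := by
      intro s t
      obtain ⟨S, hS, hm⟩ := h1 t
      exact On.commute (G1_pair_disj haD hbD) (G1_fac_on (by simp) (by simp) s)
        ((G1_mix_on hm).mono hS)
    refine ⟨fun s => G1_fac K a b (s 0) * E (Fin.tail s), ?_, ?_, ?_⟩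
    · intro s
      obtain ⟨S, hS, hm⟩ := h1 (Fin.tail s)
      have hSD : S ⊆ D := hS.trans ((erase_subset _ _).trans (erase_subset _ _))
      refine ⟨insert a (insert b S), ?_, ?_⟩
      · exact insert_subset ha (insert_subset hb hSD)
      · show IsMix K (k + 1) (insert a (insert b S)) (G1_fac K a b (s 0) * E (Fin.tail s))
        cases s 0
        · exact IsMix.sum k S _ a b hab (fun h => haD (hS h)) (fun h => hbD (hS h)) hm
        · exact IsMix.diff k S _ a b hab (fun h => haD (hS h)) (fun h => hbD (hS h)) hm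
    · intro s
      calc G1_fac K a b (s 0) * E (Fin.tail s) * (G1_fac K a b (s 0) * E (Fin.tail s))
          = G1_fac K a b (s 0) * (E (Fin.tail s) * G1_fac K a b (s 0)) * E (Fin.tail s) := by
            simp only [mul_assoc]
        _ = (G1_fac K a b (s 0) * G1_fac K a b (s 0)) * (E (Fin.tail s) * E (Fin.tail s)) := by
            rw [← hc]; simp only [mul_assoc]
        _ = (2 : K) ^ (k + 1) • (G1_fac K a b (s 0) * E (Fin.tail s)) := by
            rw [G1_fac_sq hab, h2, smul_mul_assoc, mul_smul_comm, smul_smul, pow_succ, mul_comm]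
    · intro s t hst
      have h4 : G1_fac K a b (s 0) * E (Fin.tail s) * (G1_fac K a b (t 0) * E (Fin.tail t)) =
          (G1_fac K a b (s 0) * G1_fac K a b (t 0)) * (E (Fin.tail s) * E (Fin.tail t)) := by
        calc _ = G1_fac K a b (s 0) * (E (Fin.tail s) * G1_fac K a b (t 0)) * E (Fin.tail t) := by
              simp only [mul_assoc]
          _ = _ := by rw [← hc]; simp only [mul_assoc]
      show G1_fac K a b (s 0) * E (Fin.tail s) * (G1_fac K a b (t 0) * E (Fin.tail t)) = 0
      rw [h4]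
      by_cases h0 : s 0 = t 0
      · have h5 : Fin.tail s ≠ Fin.tail t := by
          intro h5
          apply hst
          rw [← Fin.cons_self_tail s, ← Fin.cons_self_tail t, h0, h5]
        rw [h3 _ _ h5, mul_zero]
      · rw [G1_fac_ne hab h0, zero_mul]

/-- **Small codimension, characteristic not 2** (`exists_mem_of_orth`, `2 ^ k` elements,
`k = #D / 3`). -/
theorem mem_of_codim_lt (h2 : (2 : K) ≠ 0) {I : Ideals K Ω} {D : Finset Ω}
    (h : codimIn I D < 2 ^ (D.card / 3)) :
    ∃ (c c' : ℕ) (S₁ S₂ : Finset Ω) (u v : MonoidAlgebra K (FSym Ω)), Disjoint S₁ S₂ ∧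
      IsDiff K c S₁ u ∧ IsDiff K c' S₂ v ∧ u * theta K Ω v ∈ I := by
  obtain ⟨E, h1, h3, h4⟩ := exists_mix_family (K := K) (D.card / 3) D (by omega)
  obtain ⟨i, hi⟩ := exists_mem_of_orth E (fun s => by
      obtain ⟨S, hS, hm⟩ := h1 s
      exact (G1_mix_on hm).mono hS) (by simpa using h) (pow_ne_zero (D.card / 3) h2) h3 h4
  obtain ⟨S, hS, hm⟩ := h1 i
  obtain ⟨c, c', S₁, S₂, u, v, -, h5, -, h6, h7, h8⟩ := hm.split
  exact ⟨c, c', S₁, S₂, u, v, h5, h6, h7, h8 ▸ hi⟩

end SmallPrime
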