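import Pool.Agent.Lib.MP_a8d7f7_al.P.G0
import Pool.Agent.Lib.MP_a8d7f7_al.P.G0c

/-!
# MP_a8d7f7_al, prime ideals of small growth: characteristic 2, a family of idempotents (module G2)
-/

set_option autoImplicit false
set_option linter.unusedSectionVars false
set_option linter.unusedVariables false

namespace SmallPrime

open Finset Equiv FinSym
open ThreeLetter (Ideals)
open Rank2 (On sw e IsDiff)

variable {K : Type*} [Field K] {Ω : Type*} [DecidableEq Ω]

/-- `(1 - (x y)) (1 - (y z))` -/
noncomputable def ff (K : Type*) [Field K] {Ω : Type*} [DecidableEq Ω] (x y z : Ω) :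
    MonoidAlgebra K (FSym Ω) := e K x y * e K y z

/-- products of `k` elements `ff` on disjoint triples -/
inductive IsF (K : Type*) [Field K] {Ω : Type*} [DecidableEq Ω] :
    ℕ → Finset Ω → MonoidAlgebra K (FSym Ω) → Prop
  | zero : IsF K 0 ∅ 1
  | succ (k : ℕ) (S : Finset Ω) (u : MonoidAlgebra K (FSym Ω)) (x y z : Ω) (hxy : x ≠ y)
      (hxz : x ≠ z) (hyz : y ≠ z) (hx : x ∉ S) (hy : y ∉ S) (hz : z ∉ S) (h : IsF K k S u) :
      IsF K (k + 1) (insert x (insert y (insert z S))) (ff K x y z * u)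

theorem g2_ff_on {D : Finset Ω} {x y z : Ω} (hx : x ∈ D) (hy : y ∈ D) (hz : z ∈ D) :
    On D (ff K x y z) := (Rank2.e_On hx hy).mul (Rank2.e_On hy hz)

theorem IsF.on {k : ℕ} {S : Finset Ω} {u : MonoidAlgebra K (FSym Ω)} (h : IsF K k S u) : On S u := by
  induction h with
  | zero => exact On.one _
  | succ k S u x y z hxy hxz hyz hx hy hz h ih =>
    exact (g2_ff_on (by simp) (by simp) (by simp)).mul
      (ih.mono (((subset_insert _ _).trans (subset_insert _ _)).trans (subset_insert _ _)))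

theorem g2_tt (a b : Ω) : MonoidAlgebra.of K (FSym Ω) (sw a b) *
    MonoidAlgebra.of K (FSym Ω) (sw a b) = 1 := by
  rw [← map_mul, Rank2.sw_mul_self, map_one]

theorem g2_two (h2 : (2 : K) = 0) (u : MonoidAlgebra K (FSym Ω)) : (2 : K) • u = 0 := by
  rw [h2, zero_smul]

theorem g2_ring {A : Type*} [Ring A] [Algebra K A] (s t : A) (hs : s * s = 1) (ht : t * t = 1)
    (hb : t * (s * t) = s * (t * s)) :
    (1 - s) * (1 - t) * ((1 - s) * (1 - t)) =
      (1 - s) * (1 - t) + (2 : K) • (1 - t - s + s * t + t * s - s * (t * s)) := by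
  have hs' : ∀ a, s * (s * a) = a := fun a => by rw [← mul_assoc, hs, one_mul]
  have ht' : ∀ a, t * (t * a) = a := fun a => by rw [← mul_assoc, ht, one_mul]
  rw [two_smul]
  simp only [mul_sub, sub_mul, mul_one, one_mul, mul_assoc, hs, ht, hs', ht', hb]
  abel

theorem g2_braid {x y z : Ω} (hxy : x ≠ y) (hxz : x ≠ z) (hyz : y ≠ z) :
    (sw y z * (sw x y * sw y z) : FSym Ω) = sw x y * (sw y z * sw x y) := by
  have h1 : (sw y z * sw x y * (sw y z)⁻¹ : FSym Ω) = sw x z := by
    rw [Rank2.conj_sw, Rank2.sw_val, swap_apply_left, swap_apply_of_ne_of_ne hxy hxz]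
  have h2 : (sw x y * sw y z * (sw x y)⁻¹ : FSym Ω) = sw x z := by
    rw [Rank2.conj_sw, Rank2.sw_val, swap_apply_right, swap_apply_of_ne_of_ne hxz.symm hyz.symm]
  rw [Rank2.sw_inv, mul_assoc] at h1 h2
  rw [h1, h2]

theorem g2_e_sq (h2 : (2 : K) = 0) (a b : Ω) : e K a b * e K a b = 0 := by
  have h := g2_tt (K := K) a b
  have h3 : e K a b * e K a b = (2 : K) • e K a b := by
    unfold Rank2.e
    rw [two_smul, mul_sub, sub_mul, sub_mul, h]
    noncomm_ring
  rw [h3, g2_two h2]

/-- In characteristic 2 put `s = (x y)`, `t = (y z)`; `s t s = t s t`. With `-1 = 1`, `2 = 0`: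
`ff x y z = (1 + s)(1 + t)` is idempotent: `(1 + t)(1 + s)(1 + t) = s + s t s... `; simply expand both
sides in the six permutations of `x, y, z` with `s s = t t = 1`, `t s t = s t s`. -/
theorem ff_mul_self (h2 : (2 : K) = 0) {x y z : Ω} (hxy : x ≠ y) (hxz : x ≠ z) (hyz : y ≠ z) :
    ff K x y z * ff K x y z = ff K x y z := by
  have hb : MonoidAlgebra.of K (FSym Ω) (sw y z) * (MonoidAlgebra.of K (FSym Ω) (sw x y) *
      MonoidAlgebra.of K (FSym Ω) (sw y z)) = MonoidAlgebra.of K (FSym Ω) (sw x y) *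
      (MonoidAlgebra.of K (FSym Ω) (sw y z) * MonoidAlgebra.of K (FSym Ω) (sw x y)) := by
    rw [← map_mul, ← map_mul, g2_braid hxy hxz hyz, map_mul, map_mul]
  have h := g2_ring (K := K) _ _ (g2_tt (K := K) x y) (g2_tt (K := K) y z) hb
  rw [g2_two h2, add_zero] at h
  exact h

/-- `(1 - t)(1 - t) = 2 (1 - t) = 0` in the middle, `t = (y z)` (`e y z = e z y`) -/
theorem ff_mul_ff (h2 : (2 : K) = 0) (x y z : Ω) : ff K x y z * ff K z y x = 0 := by
  unfold ff
  have h : e K x y * e K y z * (e K z y * e K y x) =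
      e K x y * (e K y z * e K y z) * e K y x := by
    rw [Rank2.e_comm z y]
    simp only [mul_assoc]
  rw [h, g2_e_sq h2, mul_zero, zero_mul]

theorem g2_disj {D : Finset Ω} {x y z : Ω} (hx : x ∉ D) (hy : y ∉ D) (hz : z ∉ D) :
    Disjoint ({x, y, z} : Finset Ω) D := by
  rw [disjoint_left]
  intro w hw
  simp only [mem_insert, mem_singleton] at hw
  rcases hw with rfl | rfl | rfl <;> assumption

/-- the factor of a family -/
noncomputable def g2_fac (K : Type*) [Field K] {Ω : Type*} [DecidableEq Ω] (x y z : Ω) (s : Bool) :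
    MonoidAlgebra K (FSym Ω) := if s then ff K x y z else ff K z y x

theorem g2_fac_on {D : Finset Ω} {x y z : Ω} (hx : x ∈ D) (hy : y ∈ D) (hz : z ∈ D) (s : Bool) :
    On D (g2_fac K x y z s) := by
  cases s
  · exact g2_ff_on hz hy hx
  · exact g2_ff_on hx hy hz

theorem g2_fac_sq (h2 : (2 : K) = 0) {x y z : Ω} (hxy : x ≠ y) (hxz : x ≠ z) (hyz : y ≠ z)
    (s : Bool) : g2_fac K x y z s * g2_fac K x y z s = g2_fac K x y z s := by
  cases s
  · exact ff_mul_self h2 hyz.symm hxz.symm hxy.symm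
  · exact ff_mul_self h2 hxy hxz hyz

theorem g2_fac_ne (h2 : (2 : K) = 0) {x y z : Ω} {s t : Bool} (hst : s ≠ t) :
    g2_fac K x y z s * g2_fac K x y z t = 0 := by
  cases s <;> cases t
  · exact absurd rfl hst
  · exact ff_mul_ff h2 z y x
  · exact ff_mul_ff h2 x y z
  · exact absurd rfl hst

/-- Induction on `k`, as in `exists_mix_family` of module G1:
`E s = (if s 0 then ff x y z else ff z y x) * E' (Fin.tail s)` with `E'` on `D \ {x, y, z}`. -/
theorem exists_ff_family (h2 : (2 : K) = 0) (k : ℕ) (D : Finset Ω) (hD : 3 * k ≤ D.card) :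
    ∃ E : (Fin k → Bool) → MonoidAlgebra K (FSym Ω), (∀ s, ∃ S ⊆ D, IsF K k S (E s)) ∧
      (∀ s, E s * E s = E s) ∧ ∀ s t, s ≠ t → E s * E t = 0 := by
  induction k generalizing D with
  | zero =>
    refine ⟨fun _ => 1, fun _ => ⟨∅, empty_subset _, IsF.zero⟩, fun _ => ?_, fun s t hst => ?_⟩
    · rw [mul_one]
    · exact absurd (Subsingleton.elim s t) hst
  | succ k ih =>
    obtain ⟨x, hx, y, hy, z, hz, hxy, hxz, hyz⟩ := two_lt_card.mp (show 2 < D.card by omega)
    have hy' : y ∈ D.erase x := mem_erase.mpr ⟨hxy.symm, hy⟩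
    have hz' : z ∈ (D.erase x).erase y := mem_erase.mpr ⟨hyz.symm, mem_erase.mpr ⟨hxz.symm, hz⟩⟩
    obtain ⟨E, h1, h3, h4⟩ := ih (((D.erase x).erase y).erase z) (by
      rw [card_erase_of_mem hz', card_erase_of_mem hy', card_erase_of_mem hx]; omega)
    have hxD : x ∉ ((D.erase x).erase y).erase z :=
      fun h => (mem_erase.mp (mem_erase.mp (mem_erase.mp h).2).2).1 rfl
    have hyD : y ∉ ((D.erase x).erase y).erase z :=
      fun h => (mem_erase.mp (mem_erase.mp h).2).1 rfl
    have hzD : z ∉ ((D.erase x).erase y).erase z := fun h => (mem_erase.mp h).1 rfl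
    have hc : ∀ s t, g2_fac K x y z s * E t = E t * g2_fac K x y z s := by
      intro s t
      obtain ⟨S, hS, hm⟩ := h1 t
      exact On.commute (g2_disj hxD hyD hzD) (g2_fac_on (by simp) (by simp) (by simp) s)
        (hm.on.mono hS)
    refine ⟨fun s => g2_fac K x y z (s 0) * E (Fin.tail s), ?_, ?_, ?_⟩
    · intro s
      obtain ⟨S, hS, hm⟩ := h1 (Fin.tail s)
      have hSD : S ⊆ D :=
        hS.trans (((erase_subset _ _).trans (erase_subset _ _)).trans (erase_subset _ _))
      cases hs0 : s 0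
      · refine ⟨insert z (insert y (insert x S)), ?_, ?_⟩
        · exact insert_subset hz (insert_subset hy (insert_subset hx hSD))
        · show IsF K (k + 1) _ (g2_fac K x y z (s 0) * E (Fin.tail s))
          rw [hs0]
          exact IsF.succ k S _ z y x hyz.symm hxz.symm hxy.symm (fun h => hzD (hS h))
            (fun h => hyD (hS h)) (fun h => hxD (hS h)) hm
      · refine ⟨insert x (insert y (insert z S)), ?_, ?_⟩
        · exact insert_subset hx (insert_subset hy (insert_subset hz hSD))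
        · show IsF K (k + 1) _ (g2_fac K x y z (s 0) * E (Fin.tail s))
          rw [hs0]
          exact IsF.succ k S _ x y z hxy hxz hyz (fun h => hxD (hS h))
            (fun h => hyD (hS h)) (fun h => hzD (hS h)) hm
    · intro s
      calc g2_fac K x y z (s 0) * E (Fin.tail s) * (g2_fac K x y z (s 0) * E (Fin.tail s))
          = g2_fac K x y z (s 0) * (E (Fin.tail s) * g2_fac K x y z (s 0)) * E (Fin.tail s) := by
            simp only [mul_assoc]
        _ = (g2_fac K x y z (s 0) * g2_fac K x y z (s 0)) *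
              (E (Fin.tail s) * E (Fin.tail s)) := by
            rw [← hc]; simp only [mul_assoc]
        _ = g2_fac K x y z (s 0) * E (Fin.tail s) := by
            rw [g2_fac_sq h2 hxy hxz hyz, h3]
    · intro s t hst
      have h5 : g2_fac K x y z (s 0) * E (Fin.tail s) * (g2_fac K x y z (t 0) * E (Fin.tail t)) =
          (g2_fac K x y z (s 0) * g2_fac K x y z (t 0)) * (E (Fin.tail s) * E (Fin.tail t)) := by
        calc _ = g2_fac K x y z (s 0) * (E (Fin.tail s) * g2_fac K x y z (t 0)) *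
              E (Fin.tail t) := by simp only [mul_assoc]
          _ = _ := by rw [← hc]; simp only [mul_assoc]
      show g2_fac K x y z (s 0) * E (Fin.tail s) * (g2_fac K x y z (t 0) * E (Fin.tail t)) = 0
      rw [h5]
      by_cases h0 : s 0 = t 0
      · have h6 : Fin.tail s ≠ Fin.tail t := by
          intro h6
          apply hst
          rw [← Fin.cons_self_tail s, ← Fin.cons_self_tail t, h0, h6]
        rw [h4 _ _ h6, mul_zero]
      · rw [g2_fac_ne h2 h0, zero_mul]

end SmallPrime
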