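import Pool.Agent.Lib.MP_a8d7f7_al.P.U0b
import Pool.Agent.Lib.MP_a8d7f7_al.P.S2

/-!
# MP_a8d7f7_al, ideals of small growth: permutations and inversions (module H1)
-/

set_option autoImplicit false
set_option linter.unusedSectionVars false
set_option linter.unusedVariables false

namespace SmallPrime

open Finset Equiv FinSym
open ThreeLetter (Ideals)
open Rank2 (On sw e IsDiff)

variable {K : Type*} [Field K] {Ω : Type*} [DecidableEq Ω] {m : ℕ}

/-- the permutations of `D` -/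
def OnD (D : Finset Ω) (g : FSym Ω) : Prop := ∀ z, z ∉ D → (g : Perm Ω) z = z

/-- the pairs `(x i, y i)` are inversions of `g` inside `D`, with respect to the ranks `r` -/
def Invs (D : Finset Ω) (r : Ω → ℕ) (g : FSym Ω) (x y : Fin m → Ω) : Prop :=
  Gen x y ∧ ∀ i, x i ∈ D ∧ y i ∈ D ∧ r (x i) < r (y i) ∧
    r ((g : Perm Ω) (y i)) < r ((g : Perm Ω) (x i))

/-- the permutations of `D` without `m` disjoint inversions -/
def Irr (m : ℕ) (D : Finset Ω) (r : Ω → ℕ) (g : FSym Ω) : Prop :=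
  OnD D g ∧ ¬ ∃ x y : Fin m → Ω, Invs D r g x y

/-- the weight -/
def wt (D : Finset Ω) (r : Ω → ℕ) (g : FSym Ω) : ℕ := ∑ z ∈ D, r z * r ((g : Perm Ω) z)

theorem H1_mem {D : Finset Ω} {g : FSym Ω} (hg : OnD D g) {z : Ω} (hz : z ∈ D) :
    (g : Perm Ω) z ∈ D := by
  by_contra h
  have h1 := hg _ h
  have h2 := (g : Perm Ω).injective h1
  rw [h2] at h
  exact h hz

theorem H1_two {D : Finset Ω} {x y : Ω} (hx : x ∈ D) (hy : y ∈ D) (hxy : x ≠ y) (F : Ω → ℕ) :
    ∑ z ∈ D, F z = F x + (F y + ∑ z ∈ (D.erase x).erase y, F z) := by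
  rw [Finset.add_sum_erase (D.erase x) F (mem_erase.2 ⟨hxy.symm, hy⟩), Finset.add_sum_erase D F hx]

/-- exchanging the values at an inversion increases the weight:
`wt (g * sw x y) = wt g + (r y - r x) * (r (g x) - r (g y))` -/
theorem wt_lt {D : Finset Ω} {r : Ω → ℕ} {g : FSym Ω} {x y : Ω} (hx : x ∈ D) (hy : y ∈ D)
    (h1 : r x < r y) (h2 : r ((g : Perm Ω) y) < r ((g : Perm Ω) x)) :
    wt D r g < wt D r (g * sw x y) := by
  have hxy : x ≠ y := by
    rintro rfl
    exact lt_irrefl _ h1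
  unfold wt
  rw [H1_two hx hy hxy, H1_two hx hy hxy]
  have e1 : ((g * sw x y : FSym Ω) : Perm Ω) x = (g : Perm Ω) y := by
    show (g : Perm Ω) (swap x y x) = _
    rw [swap_apply_left]
  have e2 : ((g * sw x y : FSym Ω) : Perm Ω) y = (g : Perm Ω) x := by
    show (g : Perm Ω) (swap x y y) = _
    rw [swap_apply_right]
  have e3 : ∑ z ∈ (D.erase x).erase y, r z * r (((g * sw x y : FSym Ω) : Perm Ω) z) =
      ∑ z ∈ (D.erase x).erase y, r z * r ((g : Perm Ω) z) := by
    refine sum_congr rfl fun z hz => ?_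
    rw [mem_erase, mem_erase] at hz
    have e4 : ((g * sw x y : FSym Ω) : Perm Ω) z = (g : Perm Ω) z := by
      show (g : Perm Ω) (swap x y z) = _
      rw [swap_apply_of_ne_of_ne hz.2.1 hz.1]
    rw [e4]
  rw [e1, e2, e3]
  obtain ⟨a, ha⟩ := Nat.exists_eq_add_of_lt h1
  obtain ⟨b, hb⟩ := Nat.exists_eq_add_of_lt h2
  rw [ha, hb]
  nlinarith

theorem H1_swOn {D : Finset Ω} {g : FSym Ω} (hg : OnD D g) {x y : Ω} (hx : x ∈ D) (hy : y ∈ D) :
    OnD D (g * sw x y) := by
  intro z hz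
  have h1 : z ≠ x := fun h => hz (h ▸ hx)
  have h2 : z ≠ y := fun h => hz (h ▸ hy)
  show (g : Perm Ω) (swap x y z) = z
  rw [swap_apply_of_ne_of_ne h1 h2]
  exact hg z hz

/-- Induction on `m`, for all `g`, with `ud_succ`: `g * ud x y = g * ud x' y' - (g * sw (x 0) (y 0)) *
ud x' y'`, where `x'`, `y'` are the tails; the tails are inversions of `g` and of `g * sw (x 0) (y 0)`
(the values at their letters are the same), and `wt_lt`. -/
theorem of_mul_ud_sub {D : Finset Ω} {r : Ω → ℕ} {g : FSym Ω} (hg : OnD D g) {x y : Fin m → Ω}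
    (h : Invs D r g x y) :
    MonoidAlgebra.of K (FSym Ω) g * ud K x y - MonoidAlgebra.of K (FSym Ω) g ∈
      Submodule.span K {z | ∃ h : FSym Ω, OnD D h ∧ wt D r g < wt D r h ∧
        z = MonoidAlgebra.of K (FSym Ω) h} := by
  induction m generalizing g with
  | zero =>
    rw [ud_zero, mul_one, sub_self]
    exact Submodule.zero_mem _
  | succ m ih =>
    obtain ⟨hG, hI⟩ := h
    obtain ⟨i1, i2, i3, i4⟩ := hI 0
    have hw := wt_lt i1 i2 i3 i4
    have hg' := H1_swOn hg i1 i2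
    have hI' : Invs D r g (Fin.tail x) (Fin.tail y) := ⟨hG.tail, fun i => hI i.succ⟩
    have hI'' : Invs D r (g * sw (x 0) (y 0)) (Fin.tail x) (Fin.tail y) := by
      refine ⟨hG.tail, fun i => ?_⟩
      obtain ⟨j1, j2, j3, j4⟩ := hI i.succ
      refine ⟨j1, j2, j3, ?_⟩
      have e1 : ((g * sw (x 0) (y 0) : FSym Ω) : Perm Ω) (Fin.tail x i) =
          (g : Perm Ω) (x i.succ) := by
        show (g : Perm Ω) (swap (x 0) (y 0) (x i.succ)) = _
        rw [swap_apply_of_ne_of_ne (fun hh => Fin.succ_ne_zero i (hG.inj_a hh)) (hG.ne _ _)]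
      have e2 : ((g * sw (x 0) (y 0) : FSym Ω) : Perm Ω) (Fin.tail y i) =
          (g : Perm Ω) (y i.succ) := by
        show (g : Perm Ω) (swap (x 0) (y 0) (y i.succ)) = _
        rw [swap_apply_of_ne_of_ne (hG.ne _ _).symm (fun hh => Fin.succ_ne_zero i (hG.inj_w hh))]
      rw [e1, e2]
      exact j4
    have k1 := ih hg hI'
    have k2 := ih hg' hI''
    have k3 : MonoidAlgebra.of K (FSym Ω) (g * sw (x 0) (y 0)) ∈
        Submodule.span K {z | ∃ h : FSym Ω, OnD D h ∧ wt D r g < wt D r h ∧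
          z = MonoidAlgebra.of K (FSym Ω) h} :=
      Submodule.subset_span ⟨_, hg', hw, rfl⟩
    have k4 : MonoidAlgebra.of K (FSym Ω) (g * sw (x 0) (y 0)) *
        ud K (Fin.tail x) (Fin.tail y) - MonoidAlgebra.of K (FSym Ω) (g * sw (x 0) (y 0)) ∈
        Submodule.span K {z | ∃ h : FSym Ω, OnD D h ∧ wt D r g < wt D r h ∧
          z = MonoidAlgebra.of K (FSym Ω) h} := by
      refine Submodule.span_mono ?_ k2
      rintro z ⟨h, h1, h2, h3⟩
      exact ⟨h, h1, hw.trans h2, h3⟩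
    have e1 : MonoidAlgebra.of K (FSym Ω) g * ud K x y - MonoidAlgebra.of K (FSym Ω) g =
        (MonoidAlgebra.of K (FSym Ω) g * ud K (Fin.tail x) (Fin.tail y) -
          MonoidAlgebra.of K (FSym Ω) g) -
        (MonoidAlgebra.of K (FSym Ω) (g * sw (x 0) (y 0)) *
          ud K (Fin.tail x) (Fin.tail y) - MonoidAlgebra.of K (FSym Ω) (g * sw (x 0) (y 0))) -
        MonoidAlgebra.of K (FSym Ω) (g * sw (x 0) (y 0)) := by
      rw [ud_succ]
      unfold Rank2.e
      rw [map_mul]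
      noncomm_ring
    rw [e1]
    exact Submodule.sub_mem _ (Submodule.sub_mem _ k1 k4) k3

end SmallPrime
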