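import Pool.Agent.Lib.MP_a8d7f7_al.P.H1

/-!
# MP_a8d7f7_al, ideals of small growth: few disjoint inversions (module H2)
-/

set_option autoImplicit false
set_option linter.unusedSectionVars false
set_option linter.unusedVariables false

namespace SmallPrime

open Finset Equiv FinSym
open ThreeLetter (Ideals)
open Rank2 (On sw e IsDiff)

variable {K : Type*} [Field K] {Ω : Type*} [DecidableEq Ω] {m : ℕ}

theorem H2_cons {D : Finset Ω} {r : Ω → ℕ} {g : FSym Ω} {k : ℕ} {x y : Fin k → Ω}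
    (h : Invs D r g x y) {p q : Ω} (hp : p ∈ D) (hq : q ∈ D) (hp' : p ∉ lets x y)
    (hq' : q ∉ lets x y) (h1 : r p < r q) (h2 : r ((g : Perm Ω) q) < r ((g : Perm Ω) p)) :
    Invs D r g (Fin.cons p x : Fin (k + 1) → Ω) (Fin.cons q y : Fin (k + 1) → Ω) := by
  have hpq : p ≠ q := by
    rintro rfl
    exact lt_irrefl _ h1
  rw [mem_lets, not_or] at hp' hq'
  obtain ⟨p1, p2⟩ := hp'
  obtain ⟨q1, q2⟩ := hq'
  push Not at p1 p2 q1 q2
  refine ⟨⟨?_, ?_, ?_⟩, ?_⟩
  · rw [Fin.cons_injective_iff]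
    exact ⟨fun ⟨i, hi⟩ => p1 i hi, h.1.inj_a⟩
  · rw [Fin.cons_injective_iff]
    exact ⟨fun ⟨i, hi⟩ => q2 i hi, h.1.inj_w⟩
  · intro i j
    refine Fin.cases ?_ (fun i => ?_) i
    · refine Fin.cases ?_ (fun j => ?_) j
      · exact hpq
      · rw [Fin.cons_zero, Fin.cons_succ]
        exact (p2 j).symm
    · refine Fin.cases ?_ (fun j => ?_) j
      · rw [Fin.cons_zero, Fin.cons_succ]
        exact q1 i
      · rw [Fin.cons_succ, Fin.cons_succ]
        exact h.1.ne i j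
  · intro i
    refine Fin.cases ?_ (fun i => ?_) i
    · exact ⟨hp, hq, h1, h2⟩
    · exact h.2 i

/-- Take a family of `k` disjoint inversions with `k` maximal (`k < m`; `Invs` with `k` in place of `m`; a
family of `m` or more gives one of `m`); its letters form `A`. If `x, y ∈ D \ A`, `r x < r y` but
`r (g y) < r (g x)`, the pair could be added. (`r` is injective on `D`, so `r (g x) ≠ r (g y)`.) -/
theorem exists_small {D : Finset Ω} {r : Ω → ℕ} (hr : Set.InjOn r D) {g : FSym Ω}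
    (h : Irr m D r g) : ∃ A ⊆ D, A.card ≤ 2 * m ∧ ∀ x ∈ D \ A, ∀ y ∈ D \ A, r x < r y →
      r ((g : Perm Ω) x) < r ((g : Perm Ω) y) := by
  classical
  obtain ⟨hg, hm⟩ := h
  have hex : ∃ k, ¬ ∃ x y : Fin k → Ω, Invs D r g x y := ⟨m, hm⟩
  obtain ⟨k0, hk0, hk1, hk2⟩ : ∃ k0, (¬ ∃ x y : Fin k0 → Ω, Invs D r g x y) ∧
      (∀ k < k0, ∃ x y : Fin k → Ω, Invs D r g x y) ∧ k0 ≤ m :=
    ⟨Nat.find hex, Nat.find_spec hex, fun k hk => by
      have := Nat.find_min hex hk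
      exact not_not.1 this, Nat.find_min' hex hm⟩
  have hpos : k0 ≠ 0 := by
    rintro rfl
    apply hk0
    refine ⟨Fin.elim0, Fin.elim0, ⟨fun i => i.elim0, fun i => i.elim0, fun i => i.elim0⟩,
      fun i => i.elim0⟩
  obtain ⟨k, rfl⟩ : ∃ k, k0 = k + 1 := ⟨k0 - 1, by omega⟩
  obtain ⟨x, y, hxy⟩ := hk1 k (by omega)
  refine ⟨lets x y, ?_, ?_, ?_⟩
  · intro z hz
    rw [mem_lets] at hz
    rcases hz with ⟨i, rfl⟩ | ⟨i, rfl⟩
    · exact (hxy.2 i).1
    · exact (hxy.2 i).2.1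
  · rw [card_lets hxy.1]
    omega
  · intro p hp q hq hpq
    rw [mem_sdiff] at hp hq
    by_contra hcon
    rcases lt_or_eq_of_le (not_lt.1 hcon) with h3 | h3
    · exact hk0 ⟨_, _, H2_cons hxy hp.1 hq.1 hp.2 hq.2 hpq h3⟩
    · have h4 := hr (H1_mem hg hq.1) (H1_mem hg hp.1) h3
      have h5 := (g : Perm Ω).injective h4
      rw [h5] at hpq
      exact lt_irrefl _ hpq

end SmallPrime
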