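import Pool.Agent.Lib.MP_a8d7f7_al.P.S0c

/-!
# MP_a8d7f7_al, prime ideals of small growth: the ideals PI (module S1)
-/

set_option autoImplicit false
set_option linter.unusedSectionVars false
set_option linter.unusedVariables false

namespace SmallPrime

open Finset Equiv FinSym
open ThreeLetter (Ideals)
open Rank2 (On sw e)

variable {K : Type*} [Field K] {Ω : Type*} [DecidableEq Ω] {d : ℕ}

theorem smul_mem {R : Type*} [Ring R] [Algebra K R] (N : TwoSidedIdeal R) (r : K) {n : R}
    (hn : n ∈ N) : r • n ∈ N := by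
  rw [← one_mul n, ← smul_mul_assoc]
  exact N.mul_mem_left _ _ hn

theorem sum_mem_ideal {R : Type*} [Ring R] (N : TwoSidedIdeal R) {ι : Type*} {s : Finset ι}
    {f : ι → R} (h : ∀ i ∈ s, f i ∈ N) : ∑ i ∈ s, f i ∈ N := by
  classical
  induction s using Finset.induction_on with
  | empty => rw [sum_empty]; exact N.zero_mem
  | insert a s ha ih =>
    rw [sum_insert ha]
    exact N.add_mem (h a (mem_insert_self _ _)) (ih (fun i hi => h i (mem_insert_of_mem hi)))

/-- `sym_mul_right` and closure of `N` under sums (`TwoSidedIdeal` is closed under finite sums: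
induction on the finset, see `Rank2.sum_mem'`) -/
theorem sym_mul_right_mem {N : TwoSidedIdeal (SAlg K d)} {y z : MonoidAlgebra K (FSym Ω)}
    {a b : Fin d → Ω} (h : ∀ g ∈ z.coeff.support, sym y (mv g a) b ∈ N) : sym (y * z) a b ∈ N := by
  rw [sym_mul_right]
  exact sum_mem_ideal N fun g hg => smul_mem N _ (h g hg)

theorem sym_mul_left_mem {N : TwoSidedIdeal (SAlg K d)} {y z : MonoidAlgebra K (FSym Ω)}
    {a b : Fin d → Ω} (h : ∀ g ∈ y.coeff.support, sym z a (mv g⁻¹ b) ∈ N) : sym (y * z) a b ∈ N := by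
  rw [sym_mul_left]
  exact sum_mem_ideal N fun g hg => smul_mem N _ (h g hg)

/-- The set of the `y` with all symbols in `N` is a two-sided ideal (the two lemmas above; the tuples
`mv g a`, `mv g⁻¹ b` are injective, package them as embeddings), so it equals its span: build the
ideal with `TwoSidedIdeal.mk'` and use `TwoSidedIdeal.span_le`, `subset_span`. -/
theorem mem_PI {N : TwoSidedIdeal (SAlg K d)} {y : MonoidAlgebra K (FSym Ω)} :
    y ∈ PI K Ω N ↔ ∀ a b : Fin d → Ω, Function.Injective a → Function.Injective b → sym y a b ∈ N := by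
  let J : Ideals K Ω := TwoSidedIdeal.mk'
    {y | ∀ a b : Fin d → Ω, Function.Injective a → Function.Injective b → sym y a b ∈ N}
    (by
      intro a b _ _
      rw [sym_zero]
      exact N.zero_mem)
    (by
      intro y z hy hz a b ha hb
      rw [sym_add]
      exact N.add_mem (hy a b ha hb) (hz a b ha hb))
    (by
      intro y hy a b ha hb
      rw [← zero_sub, sym_sub, sym_zero, zero_sub]
      exact N.neg_mem (hy a b ha hb))
    (by
      intro y z hz a b ha hb
      exact sym_mul_left_mem fun g _ => hz a _ ha (mv_inj _ hb))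
    (by
      intro y z hy a b ha hb
      exact sym_mul_right_mem fun g _ => hy _ b (mv_inj _ ha) hb)
  have hJ : ∀ z, z ∈ J ↔
      ∀ a b : Fin d → Ω, Function.Injective a → Function.Injective b → sym z a b ∈ N := by
    intro z
    rw [TwoSidedIdeal.mem_mk']
    rfl
  constructor
  · intro hy
    have h1 : PI K Ω N ≤ J := by
      unfold PI
      rw [TwoSidedIdeal.span_le]
      intro z hz
      change z ∈ J
      rw [hJ]
      intro a b ha hb
      exact hz ⟨a, ha⟩ ⟨b, hb⟩
    exact (hJ y).mp (h1 hy)
  · intro hy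
    exact TwoSidedIdeal.subset_span fun a b => hy a b a.injective b.injective

theorem exists_tuple [Infinite Ω] (d : ℕ) (D : Finset Ω) :
    ∃ a : Fin d → Ω, Function.Injective a ∧ ∀ i, a i ∉ D := by
  have h1 : Infinite ((D : Set Ω)ᶜ : Set Ω) := D.finite_toSet.infinite_compl.to_subtype
  let f := Infinite.natEmbedding ((D : Set Ω)ᶜ : Set Ω)
  refine ⟨fun i => (f i : Ω), ?_, ?_⟩
  · intro i j hij
    exact Fin.val_injective (f.injective (Subtype.ext hij))
  · intro i hi
    exact (f i).2 (by exact_mod_cast hi)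

theorem PI_ne_top [Infinite Ω] {N : TwoSidedIdeal (SAlg K d)} (hN : N ≠ ⊤) : PI K Ω N ≠ ⊤ := by
  intro h
  obtain ⟨a, ha, -⟩ := exists_tuple (Ω := Ω) d ∅
  apply hN
  have h1 : (1 : MonoidAlgebra K (FSym Ω)) ∈ PI K Ω N := by rw [h]; trivial
  have h2 := mem_PI.mp h1 a a ha ha
  rw [sym_one ha] at h2
  exact (TwoSidedIdeal.one_mem_iff _).mp h2

end SmallPrime
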