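import Pool.Agent.Lib.MP_a8d7f7_al.P.H1
import Pool.Agent.Lib.MP_a8d7f7_al.P.S1

/-!
# MP_a8d7f7_al, ideals of small growth: a bound for the codimension (module H3)
-/

set_option autoImplicit false
set_option linter.unusedSectionVars false
set_option linter.unusedVariables false

namespace SmallPrime

open Finset Equiv FinSym
open ThreeLetter (Ideals)
open Rank2 (On sw e IsDiff)

variable {K : Type*} [Field K] {Ω : Type*} [DecidableEq Ω] {m : ℕ}

/-- an ideal as a subspace (`smul_mem`) -/
def toSub (I : Ideals K Ω) : Submodule K (MonoidAlgebra K (FSym Ω)) where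
  carrier := {y | y ∈ I}
  add_mem' := fun ha hb => I.add_mem ha hb
  zero_mem' := I.zero_mem
  smul_mem' := fun r _ hx => smul_mem I r hx

/-- If the permutations of `D` lie in `I + span B` then `codim ≤ #B`. (`Sym D → K[Sym D] / restr I D`
spans; choose for every `b ∈ B` which is congruent to an element of `K[Sym D]` ... simplest: the
quotient `K[Sym D] / restr I D` embeds into `K[FSym] / I` by `phi`, with image contained in the span
of the images of `B`; `finrank_le_of_span_eq`-like lemmas: `finrank_span_finset_le_card`,
`LinearMap.finrank_le_finrank_of_injective`.) -/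
theorem codimIn_le_card {I : Ideals K Ω} {D : Finset Ω} (B : Finset (MonoidAlgebra K (FSym Ω)))
    (h : ∀ g : FSym Ω, OnD D g → MonoidAlgebra.of K (FSym Ω) g ∈ toSub I ⊔ Submodule.span K B) :
    codimIn I D ≤ B.card := by
  classical
  let L : MonoidAlgebra K (Perm D) →ₗ[K] (MonoidAlgebra K (FSym Ω) ⧸ toSub I) :=
    (toSub I).mkQ.comp (phi K D).toLinearMap
  have hker : LinearMap.ker L = restr I D := by
    ext x
    rw [LinearMap.mem_ker]
    show (toSub I).mkQ (phi K D x) = 0 ↔ phi K D x ∈ I
    rw [Submodule.mkQ_apply, Submodule.Quotient.mk_eq_zero]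
    rfl
  have hrange : LinearMap.range L ≤ Submodule.span K (B.image (toSub I).mkQ :
      Set (MonoidAlgebra K (FSym Ω) ⧸ toSub I)) := by
    rintro _ ⟨x, rfl⟩
    induction x using MonoidAlgebra.induction_on with
    | of σ =>
      have h1 : phi K D (MonoidAlgebra.of K _ σ) = MonoidAlgebra.of K (FSym Ω) (ext D σ) :=
        phi_o D σ
      show (toSub I).mkQ (phi K D (MonoidAlgebra.of K _ σ)) ∈ _
      rw [h1]
      have h2 := h (ext D σ) (fun z hz => ext_notMem D σ hz)
      obtain ⟨a, ha, b, hb, hab⟩ := Submodule.mem_sup.1 h2
      rw [← hab, map_add]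
      have h3 : (toSub I).mkQ a = 0 := by
        rw [Submodule.mkQ_apply, Submodule.Quotient.mk_eq_zero]
        exact ha
      rw [h3, zero_add]
      have h4 := Submodule.mem_map_of_mem (f := (toSub I).mkQ) hb
      rw [Submodule.map_span] at h4
      rw [Finset.coe_image]
      exact h4
    | add f g hf hg =>
      rw [map_add]
      exact Submodule.add_mem _ hf hg
    | smul c f hf =>
      rw [map_smul]
      exact Submodule.smul_mem _ c hf
  have e1 : codimIn I D = Module.finrank K (LinearMap.range L) := by
    unfold codimIn codim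
    rw [← hker]
    exact (LinearMap.quotKerEquivRange L).finrank_eq
  rw [e1]
  refine (Submodule.finrank_mono hrange).trans ?_
  exact (finrank_span_finset_le_card _).trans Finset.card_image_le

end SmallPrime
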