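import Pool.Agent.Lib.MP_a8d7f7_al.P.H3
import Pool.Agent.Lib.MP_a8d7f7_al.P.H1b
import Pool.Agent.Lib.MP_a8d7f7_al.P.H2c

/-!
# MP_a8d7f7_al, ideals of small growth: growth of ideals with products of differences (module H3b)
-/

set_option autoImplicit false
set_option linter.unusedSectionVars false
set_option linter.unusedVariables false

namespace SmallPrime

open Finset Equiv FinSym
open ThreeLetter (Ideals)
open Rank2 (On sw e IsDiff)

variable {K : Type*} [Field K] {Ω : Type*} [DecidableEq Ω] {m : ℕ}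

theorem H3b_rank (D : Finset Ω) : ∃ r : Ω → ℕ, Set.InjOn r D := by
  classical
  refine ⟨fun z => if h : z ∈ D then (D.equivFin ⟨z, h⟩ : ℕ) else 0, ?_⟩
  intro x hx y hy hxy
  have hx' : x ∈ D := hx
  have hy' : y ∈ D := hy
  simp only [dif_pos hx', dif_pos hy'] at hxy
  have h1 := D.equivFin.injective (Fin.val_injective hxy)
  exact congrArg Subtype.val h1

theorem H3b_span {D : Finset Ω} {r : Ω → ℕ} {B : Finset (FSym Ω)}
    (hB : ∀ g, Irr m D r g → g ∈ B) (B' : Finset (MonoidAlgebra K (FSym Ω)))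
    (h : ∀ g ∈ B, MonoidAlgebra.of K (FSym Ω) g ∈ B') :
    Submodule.span K {z | ∃ h : FSym Ω, Irr m D r h ∧ z = MonoidAlgebra.of K (FSym Ω) h} ≤
      Submodule.span K (B' : Set (MonoidAlgebra K (FSym Ω))) := by
  refine Submodule.span_mono ?_
  rintro z ⟨g, hg, rfl⟩
  exact h g (hB g hg)

/-- `straighten` with `V = toSub I`, `card_irr`; ranks: an injection `D → ℕ` extended by `0` -/
theorem codimIn_le_of_isDiff {I : Ideals K Ω}
    (h : ∀ (S : Finset Ω) (u : MonoidAlgebra K (FSym Ω)), IsDiff K m S u → u ∈ I) (D : Finset Ω) :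
    codimIn I D ≤ (D.card + 1) ^ (4 * m) := by
  classical
  obtain ⟨r, hr⟩ := H3b_rank D
  obtain ⟨B, hB1, hB2⟩ := card_irr hr m
  have h1 := codimIn_le_card (I := I) (D := D) (B.image (MonoidAlgebra.of K (FSym Ω))) (by
    intro g hg
    have h2 := straighten (K := K) (m := m) D r (toSub I) (by
      intro g x y _ hxy _ _
      exact I.mul_mem_left _ _ (h _ _ (ud_isDiff hxy))) hg
    have h3 : toSub I ⊔ Submodule.span K {z | ∃ h : FSym Ω, Irr m D r h ∧
        z = MonoidAlgebra.of K (FSym Ω) h} ≤ toSub I ⊔ Submodule.span K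
        ((B.image (MonoidAlgebra.of K (FSym Ω)) : Finset (MonoidAlgebra K (FSym Ω))) :
          Set (MonoidAlgebra K (FSym Ω))) :=
      sup_le_sup_left (H3b_span hB2 _ (fun g hg => mem_image_of_mem _ hg)) _
    exact h3 h2)
  exact h1.trans (card_image_le.trans hB1)

end SmallPrime
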