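import Pool.Agent.Lib.MP_a8d7f7_al.P.N1b

/-!
# MP_a8d7f7_al, ideals of small growth: products of prime ideals over an ideal (module M0)
-/

set_option autoImplicit false
set_option linter.unusedSectionVars false
set_option linter.unusedVariables false

namespace SmallPrime

open Finset Equiv FinSym
open ThreeLetter (Ideals)
open Rank2 (On sw e IsDiff)

/-- the same as `exists_prodLe` (module N1, copy its proof), with prime ideals containing `I`: in the
induction the ideals `n1Left I y` and `n1Right I (n1Left I y)` contain `I` -/
theorem exists_prodLe_ge {K : Type*} [Field K] {R : Type*} [Ring R] [Algebra K R]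
    [Module.Finite K R] (I : TwoSidedIdeal R) :
    ∃ L : List (TwoSidedIdeal R), (∀ N ∈ L, IsPrime N ∧ I ≤ N) ∧ ProdLe L I := by
  have key : ∀ S : Submodule K R, ∀ I : TwoSidedIdeal R, n1Sub K I = S →
      ∃ L : List (TwoSidedIdeal R), (∀ N ∈ L, IsPrime N ∧ I ≤ N) ∧ ProdLe L I := by
    intro S
    induction S using (wellFounded_gt : WellFounded
      ((· > ·) : Submodule K R → Submodule K R → Prop)).induction with
    | _ S ih =>
      intro I hI
      by_cases htop : I = ⊤
      · refine ⟨[], by simp, ?_⟩
        intro l hl
        rw [htop]
        exact TwoSidedIdeal.mem_top R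
      by_cases hp : IsPrime I
      · refine ⟨[I], by simpa using hp, ?_⟩
        intro l hl
        cases hl with
        | cons h1 h2 =>
          cases h2
          simpa using h1
      have hex : ∃ x y : R, (∀ r : R, x * r * y ∈ I) ∧ x ∉ I ∧ y ∉ I := by
        by_contra hcon
        apply hp
        refine ⟨htop, fun x y hxy => ?_⟩
        by_contra h1
        exact hcon ⟨x, y, hxy, fun h => h1 (Or.inl h), fun h => h1 (Or.inr h)⟩
      obtain ⟨x, y, hxy, hx, hy⟩ := hex
      have i1 : I ≤ n1Left I y := by
        intro z hz
        rw [mem_n1Left]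
        intro r
        exact I.mul_mem_right _ _ (I.mul_mem_right _ _ hz)
      have i2 : I ≤ n1Right I (n1Left I y) := by
        intro z hz
        rw [mem_n1Right]
        intro w _
        exact I.mul_mem_left _ _ hz
      have h1 : S < n1Sub K (n1Left I y) := by
        rw [← hI]
        refine lt_of_le_of_ne (fun z hz => i1 hz) ?_
        intro heq
        apply hx
        have : x ∈ n1Sub K (n1Left I y) := by
          rw [mem_n1Sub, mem_n1Left]; exact hxy
        rw [← heq] at this
        exact this
      have h2 : S < n1Sub K (n1Right I (n1Left I y)) := by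
        rw [← hI]
        refine lt_of_le_of_ne (fun z hz => i2 hz) ?_
        intro heq
        apply hy
        have : y ∈ n1Sub K (n1Right I (n1Left I y)) := by
          rw [mem_n1Sub, mem_n1Right]
          intro w hw
          have h3 := mem_n1Left.1 hw 1
          simpa using h3
        rw [← heq] at this
        exact this
      obtain ⟨L1, hL1, hP1⟩ := ih _ h1 _ rfl
      obtain ⟨L2, hL2, hP2⟩ := ih _ h2 _ rfl
      refine ⟨L1 ++ L2, ?_, hP1.append hP2 ?_⟩
      · intro N hN
        rcases List.mem_append.1 hN with h | h
        · exact ⟨(hL1 N h).1, i1.trans (hL1 N h).2⟩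
        · exact ⟨(hL2 N h).1, i2.trans (hL2 N h).2⟩
      · intro w hw z hz
        exact mem_n1Right.1 hz w hw
  exact key _ I rfl

end SmallPrime
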