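import Pool.Agent.Lib.MP_a8d7f7_al.P.N2b
import Pool.Agent.Lib.MP_a8d7f7_al.P.C1
import Pool.Agent.Lib.MP_a8d7f7_al.P.M0

/-!
# MP_a8d7f7_al, ideals of small growth: prime ideals over an ideal (module M1)
-/

set_option autoImplicit false
set_option linter.unusedSectionVars false
set_option linter.unusedVariables false

namespace SmallPrime

open Finset Equiv FinSym
open ThreeLetter (Ideals)
open Rank2 (On sw e IsDiff)

variable {K : Type*} [Field K] {Ω : Type*} [DecidableEq Ω] {d : ℕ}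

theorem symIdeal_mono {I J : Ideals K Ω} (h : I ≤ J) (a : Fin d ↪ Ω) :
    symIdeal I a ≤ symIdeal J a := by
  intro n hn
  obtain ⟨y, hy, hyn⟩ := mem_symIdeal.mp hn
  exact mem_symIdeal.mpr ⟨y, h hy, hyn⟩

theorem PI_mono {N N' : TwoSidedIdeal (SAlg K d)} (h : N ≤ N') : PI K Ω N ≤ PI K Ω N' := by
  intro y hy
  rw [mem_PI] at hy ⊢
  exact fun a b ha hb => h (hy a b ha hb)

/-- differences, an element with symbols in the ideal of symbols of `I`, differences -/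
theorem ud_mul_mul_ud_mem' [Infinite Ω] {I J : Ideals K Ω} (hIJ : I ≤ J)
    (hJ : ∀ (S : Finset Ω) (u : MonoidAlgebra K (FSym Ω)), IsDiff K (d + 1) S u → u ∈ J)
    (a₀ : Fin d ↪ Ω) {y : MonoidAlgebra K (FSym Ω)} (hy : y ∈ PI K Ω (symIdeal I a₀))
    {a w b v : Fin d → Ω} (haw : Gen a w) (hbv : Gen b v) : ud K b v * y * ud K a w ∈ J := by
  classical
  by_contra hcon
  obtain ⟨F, hF⟩ := exists_support y
  have hyF : On F y := hF
  -- refine on the right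
  obtain ⟨w', hw', hw'n⟩ := exists_tuple (Ω := Ω) d (F ∪ lets a w ∪ lets b v)
  have hw1 : ∀ i, w' i ∉ F ∧ w' i ∉ lets a w ∧ w' i ∉ lets b v := by
    intro i
    have := hw'n i
    rw [mem_union, mem_union, not_or, not_or] at this
    exact ⟨this.1.1, this.1.2, this.2⟩
  obtain ⟨a', ha', hy1⟩ := refine_right (ud K b v * y) haw hcon hw'
    (fun i j hij => (hw1 i).2.1 (mem_lets.mpr (Or.inl ⟨j, hij.symm⟩)))
    (fun i j hij => (hw1 i).2.1 (mem_lets.mpr (Or.inr ⟨j, hij.symm⟩)))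
  -- refine on the left
  obtain ⟨v', hv', hv'n⟩ := exists_tuple (Ω := Ω) d (F ∪ lets a w ∪ lets b v ∪ univ.image w')
  have hv1 : ∀ i, v' i ∉ F ∧ v' i ∉ lets a w ∧ v' i ∉ lets b v ∧ v' i ∉ univ.image w' := by
    intro i
    have := hv'n i
    rw [mem_union, mem_union, mem_union, not_or, not_or, not_or] at this
    exact ⟨this.1.1.1, this.1.1.2, this.1.2, this.2⟩
  rw [mul_assoc] at hy1
  obtain ⟨b', hb', hy2⟩ := refine_left (y * ud K a' w') hbv hy1 hv'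
    (fun i j hij => (hv1 i).2.2.1 (mem_lets.mpr (Or.inl ⟨j, hij.symm⟩)))
    (fun i j hij => (hv1 i).2.2.1 (mem_lets.mpr (Or.inr ⟨j, hij.symm⟩)))
  have ha'l : ∀ i, a' i ∈ lets a w := by
    intro i
    rcases ha' i with h | h
    · exact mem_lets.mpr (Or.inl ⟨i, h.symm⟩)
    · exact mem_lets.mpr (Or.inr ⟨i, h.symm⟩)
  have hb'l : ∀ i, b' i ∈ lets b v := by
    intro i
    rcases hb' i with h | h
    · exact mem_lets.mpr (Or.inl ⟨i, h.symm⟩)
    · exact mem_lets.mpr (Or.inr ⟨i, h.symm⟩)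
  have hinj : ∀ {p q p' : Fin d → Ω}, Gen p q → (∀ i, p' i = p i ∨ p' i = q i) →
      Function.Injective p' := by
    intro p q p' hpq hp' i j hij
    rcases hp' i with h1 | h1 <;> rcases hp' j with h2 | h2
    · exact hpq.inj_a (h1.symm.trans (hij.trans h2))
    · exact absurd (h1.symm.trans (hij.trans h2)) (hpq.ne i j)
    · exact absurd (h2.symm.trans (hij.symm.trans h1)) (hpq.ne j i)
    · exact hpq.inj_w (h1.symm.trans (hij.trans h2))
  have ha'i : Function.Injective a' := hinj haw ha'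
  have hb'i : Function.Injective b' := hinj hbv hb'
  have g1 : Gen a' v' := ⟨ha'i, hv', fun i j hij => (hv1 j).2.1 (hij ▸ ha'l i)⟩
  have g2 : Gen a' w' := ⟨ha'i, hw', fun i j hij => (hw1 j).2.1 (hij ▸ ha'l i)⟩
  have g3 : Gen b' v' := ⟨hb'i, hv', fun i j hij => (hv1 j).2.2.1 (hij ▸ hb'l i)⟩
  have g4 : Gen b' w' := ⟨hb'i, hw', fun i j hij => (hw1 j).2.2 (hij ▸ hb'l i)⟩
  have g5 : ∀ i j, v' i ≠ w' j := fun i j hij =>
    (hv1 i).2.2.2 (mem_image.mpr ⟨j, mem_univ _, hij.symm⟩)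
  -- the permutation
  have hf1 : Function.Injective (Sum.elim a' (Sum.elim v' w') : Fin d ⊕ (Fin d ⊕ Fin d) → Ω) := by
    rw [Sum.elim_injective]
    refine ⟨ha'i, ?_, ?_⟩
    · rw [Sum.elim_injective]
      exact ⟨hv', hw', g5⟩
    · rintro i (j | j)
      · exact g1.ne i j
      · exact g2.ne i j
  have hf2 : Function.Injective (Sum.elim b' (Sum.elim v' w') : Fin d ⊕ (Fin d ⊕ Fin d) → Ω) := by
    rw [Sum.elim_injective]
    refine ⟨hb'i, ?_, ?_⟩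
    · rw [Sum.elim_injective]
      exact ⟨hv', hw', g5⟩
    · rintro i (j | j)
      · exact g3.ne i j
      · exact g4.ne i j
  obtain ⟨π, hπ⟩ := exists_mv _ _ hf1 hf2
  have h1 := reduce_zz (a := ⟨a', ha'i⟩) (b := ⟨b', hb'i⟩) hJ g1 g2 g3 g4 g5 hyF
    (fun i => (hv1 i).1) (fun i => (hw1 i).1) (π := π) (fun i => hπ (Sum.inl i))
    (fun i => hπ (Sum.inr (Sum.inl i))) (fun i => hπ (Sum.inr (Sum.inr i)))
  have h0 : sym y ((⟨a', ha'i⟩ : Fin d ↪ Ω) : Fin d → Ω) ((⟨b', hb'i⟩ : Fin d ↪ Ω) : Fin d → Ω) ∈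
      symIdeal J a₀ := symIdeal_mono hIJ a₀ (mem_PI.mp hy _ _ ha'i hb'i)
  have h2 := zz_mem hJ h0 (b := ⟨a', ha'i⟩) g1 g2 g5
  apply hy2
  rw [← mul_assoc]
  have h3 := J.add_mem h1 (J.mul_mem_left (MonoidAlgebra.of K (FSym Ω) π) _ h2)
  rw [sub_add_cancel] at h3
  exact h3

/-- `x * y * z ∈ I ⊔ UI (d + 1)` for `x, z ∈ I ⊔ UI d` -/
theorem sup_mul_mul [Infinite Ω] {I : Ideals K Ω} (a₀ : Fin d ↪ Ω) {x y z : MonoidAlgebra K (FSym Ω)}
    (hx : x ∈ I ⊔ UI K Ω d) (hy : y ∈ PI K Ω (symIdeal I a₀)) (hz : z ∈ I ⊔ UI K Ω d) :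
    x * y * z ∈ I ⊔ UI K Ω (d + 1) := by
  have hI : I ≤ I ⊔ UI K Ω (d + 1) := le_sup_left
  have h0 : ∀ (S : Finset Ω) (u : MonoidAlgebra K (FSym Ω)), IsDiff K (d + 1) S u →
      u ∈ I ⊔ UI K Ω (d + 1) := fun S u hu =>
    (le_sup_right : UI K Ω (d + 1) ≤ I ⊔ UI K Ω (d + 1)) (TwoSidedIdeal.subset_span ⟨S, hu⟩)
  have h1 : I ⊔ UI K Ω d ≤ leftIdeal (PI K Ω (symIdeal I a₀)) (I ⊔ UI K Ω (d + 1))
      {z | ∃ S : Finset Ω, IsDiff K d S z} := by
    apply sup_le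
    · intro x hx
      rw [mem_leftIdeal]
      intro y _ z _
      exact TwoSidedIdeal.mul_mem_right _ _ _ (TwoSidedIdeal.mul_mem_right _ _ _ (hI hx))
    · apply UI_le
      intro S u hu
      rw [mem_leftIdeal]
      rintro y hy z ⟨T, hz⟩
      obtain ⟨b, v, hbv, -, rfl⟩ := exists_gen hu
      obtain ⟨a, w, haw, -, rfl⟩ := exists_gen hz
      exact ud_mul_mul_ud_mem' hI h0 a₀ hy haw hbv
  have h2 : I ⊔ UI K Ω d ≤ rightIdeal (I ⊔ UI K Ω d) (PI K Ω (symIdeal I a₀))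
      (I ⊔ UI K Ω (d + 1)) := by
    apply sup_le
    · intro z hz
      rw [mem_rightIdeal]
      intro x _ y _
      exact TwoSidedIdeal.mul_mem_left _ _ _ (hI hz)
    · apply UI_le
      intro S u hu
      rw [mem_rightIdeal]
      intro x hx y hy
      exact mem_leftIdeal.mp (h1 hx) y hy u ⟨S, hu⟩
  exact mem_rightIdeal.mp (h2 hz) x hx y hy

end SmallPrime
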