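import Pool.Agent.Lib.MP_a8d7f7_al.P.N2b

/-!
# MP_a8d7f7_al, ideals of small growth: twists (module N3)
-/

set_option autoImplicit false
set_option linter.unusedSectionVars false
set_option linter.unusedVariables false

namespace SmallPrime

open Finset Equiv FinSym
open ThreeLetter (Ideals)
open Rank2 (On sw e IsDiff)

variable {K : Type*} [Field K] {Ω : Type*} [DecidableEq Ω] {d : ℕ}

/-- `theta` is multiplicative; `y ∈ tw P ↔ theta y ∈ P` (`FinSym.mem_tw`) -/
theorem ProdLe.map_tw {L : List (Ideals K Ω)} {I : Ideals K Ω} (h : ProdLe L I) :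
    ProdLe (L.map tw) (tw I) := by
  intro l hl
  rw [mem_tw, map_list_prod]
  apply h
  rw [List.forall₂_map_right_iff] at hl
  rw [List.forall₂_map_left_iff]
  exact hl.imp fun y P hy => mem_tw.mp hy

/-- the `x` with `x * y ∈ I` for all `y` in a set stable under left multiplication by permutations -/
noncomputable def annIdeal (I : Ideals K Ω) (Z : Set (MonoidAlgebra K (FSym Ω))) : Ideals K Ω :=
  TwoSidedIdeal.mk' {x | ∀ r : MonoidAlgebra K (FSym Ω), ∀ z ∈ Z, x * r * z ∈ I}
    (by intro r z _; rw [zero_mul, zero_mul]; exact I.zero_mem)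
    (by
      intro a b ha hb r z hz
      rw [add_mul, add_mul]; exact I.add_mem (ha r z hz) (hb r z hz))
    (by
      intro a ha r z hz
      rw [neg_mul, neg_mul]; exact I.neg_mem (ha r z hz))
    (by
      intro a b hb r z hz
      rw [mul_assoc a, mul_assoc a]; exact I.mul_mem_left _ _ (hb r z hz))
    (by
      intro a b ha r z hz
      rw [mul_assoc a]; exact ha _ z hz)

theorem mem_annIdeal {I : Ideals K Ω} {Z : Set (MonoidAlgebra K (FSym Ω))}
    {x : MonoidAlgebra K (FSym Ω)} :
    x ∈ annIdeal I Z ↔ ∀ r : MonoidAlgebra K (FSym Ω), ∀ z ∈ Z, x * r * z ∈ I := by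
  unfold annIdeal
  rw [TwoSidedIdeal.mem_mk']
  rfl

/-- If `I` contains all `X * g * theta v` (`X` a product of `m`, `v` of `k` differences) then
`x * y ∈ I` for `x ∈ UI m`, `y ∈ tw (UI k)`: `{x | ∀ g, ∀ v, x * g * theta v ∈ I}` is a two-sided
ideal containing the `X`; then `{y | ∀ x ∈ UI m, x * y ∈ I}` is a two-sided ideal containing the
`theta v`, so its twist contains `UI k`. -/
theorem UI_mul_tw {m k : ℕ} {I : Ideals K Ω}
    (h : ∀ (S T : Finset Ω) (X v : MonoidAlgebra K (FSym Ω)) (g : FSym Ω), IsDiff K m S X →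
      IsDiff K k T v → X * MonoidAlgebra.of K (FSym Ω) g * theta K Ω v ∈ I)
    {x y : MonoidAlgebra K (FSym Ω)} (hx : x ∈ UI K Ω m) (hy : y ∈ tw (UI K Ω k)) : x * y ∈ I := by
  have h1 : UI K Ω m ≤ annIdeal I {z | ∃ (T : Finset Ω) (v : MonoidAlgebra K (FSym Ω)),
      IsDiff K k T v ∧ z = theta K Ω v} := by
    apply UI_le
    intro S X hX
    rw [mem_annIdeal]
    rintro r z ⟨T, v, hv, rfl⟩
    rw [expand r (subset_refl _), mul_sum, sum_mul]
    apply sum_mem_ideal
    intro g _
    rw [mul_smul_comm, smul_mul_assoc]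
    exact smul_mem I _ (h S T X v g hX hv)
  have h2 : UI K Ω k ≤ tw (resid (UI K Ω m) I) := by
    apply UI_le
    intro T v hv
    rw [mem_tw, mem_resid]
    intro x hx
    have := mem_annIdeal.mp (h1 hx) 1 (theta K Ω v) ⟨T, v, hv, rfl⟩
    rwa [mul_one] at this
  have h3 : y ∈ resid (UI K Ω m) I := by
    have h4 := h2 (mem_tw.mp hy)
    rw [mem_tw, theta_theta] at h4
    exact h4
  exact mem_resid.mp h3 x hx

end SmallPrime
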