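import Pool.Agent.Lib.MP_a8d7f7_al.P.M1
import Pool.Agent.Lib.MP_a8d7f7_al.P.N3

/-!
# MP_a8d7f7_al, ideals of small growth: products of prime ideals over an ideal (module M3)
-/

set_option autoImplicit false
set_option linter.unusedSectionVars false
set_option linter.unusedVariables false

namespace SmallPrime

open Finset Equiv FinSym
open ThreeLetter (Ideals)
open Rank2 (On sw e IsDiff)

variable {K : Type*} [Field K] {Ω : Type*} [DecidableEq Ω] {d : ℕ}

/-- the prime ideals of one level over `I` -/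
theorem exists_prodLe_level (I : Ideals K Ω) (a₀ : Fin d ↪ Ω) :
    ∃ L : List (Ideals K Ω), (∀ P ∈ L, (∃ (d : ℕ) (N : TwoSidedIdeal (SAlg K d)), IsPrime N ∧
      P = PI K Ω N) ∧ I ≤ P) ∧ ProdLe L (PI K Ω (symIdeal I a₀)) := by
  obtain ⟨L, h1, h2⟩ := exists_prodLe_ge (K := K) (symIdeal I a₀)
  refine ⟨L.map (PI K Ω), ?_, h2.map_PI⟩
  intro P hP
  obtain ⟨N, hN, rfl⟩ := List.mem_map.mp hP
  exact ⟨⟨d, N, (h1 N hN).1, rfl⟩, (le_PI_symIdeal I a₀).trans (PI_mono (h1 N hN).2)⟩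

theorem exists_prodLe_sup [Infinite Ω] (I : Ideals K Ω) (m : ℕ) :
    ∃ L : List (Ideals K Ω), (∀ P ∈ L, (∃ (d : ℕ) (N : TwoSidedIdeal (SAlg K d)), IsPrime N ∧
      P = PI K Ω N) ∧ I ≤ P) ∧ ProdLe L (I ⊔ UI K Ω m) := by
  induction m with
  | zero =>
    refine ⟨[], fun P hP => absurd hP List.not_mem_nil, ?_⟩
    intro l hl
    have h1 : (1 : MonoidAlgebra K (FSym Ω)) ∈ I ⊔ UI K Ω 0 :=
      (le_sup_right : UI K Ω 0 ≤ I ⊔ UI K Ω 0) (TwoSidedIdeal.subset_span ⟨∅, IsDiff.zero⟩)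
    rw [(TwoSidedIdeal.one_mem_iff _).mp h1]
    trivial
  | succ m ih =>
    obtain ⟨L, hL, hL'⟩ := ih
    obtain ⟨a, ha, -⟩ := exists_tuple (Ω := Ω) m ∅
    obtain ⟨M, hM, hM'⟩ := exists_prodLe_level I (⟨a, ha⟩ : Fin m ↪ Ω)
    refine ⟨L ++ (M ++ L), ?_, ?_⟩
    · intro P hP
      rw [List.mem_append, List.mem_append] at hP
      rcases hP with h | h | h
      · exact hL P h
      · exact hM P h
      · exact hL P h
    · have h1 : ProdLe (M ++ L) (resid (I ⊔ UI K Ω m) (I ⊔ UI K Ω (m + 1))) := by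
        refine hM'.append hL' ?_
        intro y hy z hz
        rw [mem_resid]
        intro x hx
        rw [← mul_assoc]
        exact sup_mul_mul ⟨a, ha⟩ hx hy hz
      exact hL'.append h1 (fun x hx y hy => mem_resid.mp hy x hx)

/-- an ideal with a product of two ideals inside -/
theorem mul_mem_of_sup {I U V : Ideals K Ω} (h : ∀ x ∈ U, ∀ y ∈ V, x * y ∈ I)
    {x y : MonoidAlgebra K (FSym Ω)} (hx : x ∈ I ⊔ U) (hy : y ∈ I ⊔ V) : x * y ∈ I := by
  have h1 : I ⊔ V ≤ resid (I ⊔ U) I := by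
    have h2 : I ⊔ U ≤ leftIdeal ⊤ I {z | z ∈ V} := by
      apply sup_le
      · intro x hx
        rw [mem_leftIdeal]
        intro y _ z _
        exact I.mul_mem_right _ _ (I.mul_mem_right _ _ hx)
      · intro x hx
        rw [mem_leftIdeal]
        intro y _ z hz
        rw [mul_assoc]
        exact h x hx _ (V.mul_mem_left _ _ hz)
    apply sup_le
    · intro y hy
      rw [mem_resid]
      intro x _
      exact I.mul_mem_left _ _ hy
    · intro y hy
      rw [mem_resid]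
      intro x hx
      have := mem_leftIdeal.mp (h2 hx) 1 trivial y hy
      rwa [mul_one] at this
  exact mem_resid.mp (h1 hy) x hx

end SmallPrime
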