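import Pool.Agent.Lib.MP_a8d7f7_al.P.O1

/-!
# MP_a8d7f7_al, prime ideals of small growth: the order, first direction (module O1b)
-/

set_option autoImplicit false
set_option linter.unusedSectionVars false
set_option linter.unusedVariables false

namespace SmallPrime

open Finset Equiv FinSym
open ThreeLetter (Ideals)
open Rank2 (On sw e IsDiff)

variable {K : Type*} [Field K] {Ω : Type*} [DecidableEq Ω] {d k : ℕ}

/-- With `m = k` every `c : Fin k → Ω` avoids one of the `k + 1` disjoint sets, so `x ∈ PI N`, and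
`x ∉ PI N'`. -/
theorem mem_of_PI_le [Infinite Ω] {N : TwoSidedIdeal (SAlg K k)} {N' : TwoSidedIdeal (SAlg K d)}
    (hN' : IsPrime N') (h : PI K Ω N ≤ PI K Ω N') (f : Fin d ↪ Fin k) {n : SAlg K d}
    (hn : incl f n ∈ N) : n ∈ N' := by
  by_contra hn'
  obtain ⟨x, a, b, W, ha, hb, hs, -, hdisj, hW⟩ := exists_guarded (Ω := Ω) hN' hn hn' k
  apply hs
  refine mem_PI.mp (h (mem_PI.mpr ?_)) a b ha hb
  intro c b' hc _
  have h1 : ∃ l : Fin (k + 1), ∀ i, c i ∉ W l := by
    by_contra hcon
    push Not at hcon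
    choose g hg using hcon
    have hgi : Function.Injective g := by
      intro l l' hll
      by_contra hne
      have h2 := hg l'
      rw [← hll] at h2
      exact Finset.disjoint_left.mp (hdisj l l' hne) (hg l) h2
    have h3 := Fintype.card_le_of_injective g hgi
    rw [Fintype.card_fin, Fintype.card_fin] at h3
    omega
  obtain ⟨l, hl⟩ := h1
  exact hW c b' hc l hl

/-- `d ≤ k`: the products of `k + 1` differences are in `PI N` (`isDiff_mem_PI`); if `k + 1 ≤ d` the
product `ud a w` of `d` differences is in `PI N` but has symbol `1` at `a` (`sym_zz` with `n = 1` and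
the second factor removed; or: expand as in `sym_zz`). -/
theorem le_of_PI_le [Infinite Ω] {N : TwoSidedIdeal (SAlg K k)} {N' : TwoSidedIdeal (SAlg K d)}
    (hN' : N' ≠ ⊤) (h : PI K Ω N ≤ PI K Ω N') : d ≤ k := by
  by_contra hlt
  push Not at hlt
  obtain ⟨r, hr, -⟩ := exists_tuple (Ω := Ω) (d + d) ∅
  have hg : Gen (fun i : Fin d => r (Fin.castAdd d i)) (fun i : Fin d => r (Fin.natAdd d i)) := by
    refine ⟨?_, ?_, ?_⟩
    · intro i j hij
      exact Fin.castAdd_injective d d (hr hij)
    · intro i j hij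
      exact Fin.natAdd_injective d d (hr hij)
    · intro i j hij
      have h1 := congrArg Fin.val (hr hij)
      rw [Fin.val_castAdd, Fin.val_natAdd] at h1
      have h2 := i.isLt
      omega
  have h1 : ud K (fun i : Fin d => r (Fin.castAdd d i)) (fun i : Fin d => r (Fin.natAdd d i)) ∈
      PI K Ω N := isDiff_mem_PI hlt (ud_isDiff hg) N
  have h2 := mem_PI.mp (h h1) _ _ hg.inj_a hg.inj_a
  have h3 := sym_ud_mul_fresh (K := K) (D := ∅) (y := 1) (Rank2.On.one _) hg
    (c := fun i : Fin d => r (Fin.castAdd d i)) (b := fun i : Fin d => r (Fin.castAdd d i))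
    (fun i => ⟨i, rfl⟩) (fun i => Finset.notMem_empty _) (fun i j => hg.ne j i)
  rw [mul_one] at h3
  rw [h3, sym_one hg.inj_a] at h2
  exact hN' ((TwoSidedIdeal.one_mem_iff _).mp h2)

end SmallPrime
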