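import Pool.Agent.Lib.MP_a8d7f7_al.P.S2

/-!
# MP_a8d7f7_al, prime ideals of small growth: PI N is prime (module S2b)
-/

set_option autoImplicit false
set_option linter.unusedSectionVars false
set_option linter.unusedVariables false

namespace SmallPrime

open Finset Equiv FinSym
open ThreeLetter (Ideals)
open Rank2 (On sw e)

variable {K : Type*} [Field K] {Ω : Type*} [DecidableEq Ω] {d : ℕ}

theorem exists_conn_aux [Infinite Ω] {F G : Finset Ω} {a b' : Fin d → Ω}
    (ha : Function.Injective a) (hb' : Function.Injective b') (hb'G : ∀ i, b' i ∈ G)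
    (τ : Perm (Fin d)) :
    ∃ h : FSym Ω, (∀ i, (h : Perm Ω) (b' i) = a (τ i)) ∧
      (∀ z ∈ G, (∀ i, z ≠ b' i) → (h : Perm Ω) z ∉ F) := by
  classical
  set T : Finset Ω := F ∪ Finset.univ.image a with hT
  obtain ⟨D, hD, hc⟩ := (T.finite_toSet.infinite_compl).exists_subset_card_eq G.card
  have hDT : ∀ z ∈ D, z ∉ T := fun z hz => by
    have := hD (Finset.mem_coe.mpr hz)
    simpa using this
  let E : G ≃ D := Finset.equivOfCardEq hc.symm
  let f' : G → Ω := fun z => if hz : ∃ i, (z : Ω) = b' i then a (τ hz.choose) else (E z : Ω)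
  have f1 : ∀ i (hi : b' i ∈ G), f' ⟨b' i, hi⟩ = a (τ i) := by
    intro i hi
    have hz : ∃ j, ((⟨b' i, hi⟩ : G) : Ω) = b' j := ⟨i, rfl⟩
    have h1 : f' ⟨b' i, hi⟩ = a (τ hz.choose) := dif_pos hz
    rw [h1]
    congr 2
    exact (hb' hz.choose_spec).symm
  have f2 : ∀ z : G, (∀ i, (z : Ω) ≠ b' i) → f' z = (E z : Ω) := by
    intro z hz
    exact dif_neg (by push Not; exact hz)
  have haT : ∀ i, a i ∈ T := fun i =>
    Finset.mem_union_right _ (Finset.mem_image_of_mem _ (Finset.mem_univ i))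
  have hinj : Function.Injective f' := by
    rintro ⟨z, hz⟩ ⟨w, hw⟩ hzw
    by_cases h1 : ∃ i, z = b' i
    · obtain ⟨i, rfl⟩ := h1
      by_cases h2 : ∃ j, w = b' j
      · obtain ⟨j, rfl⟩ := h2
        rw [f1, f1] at hzw
        have := τ.injective (ha hzw)
        subst this
        rfl
      · push Not at h2
        rw [f1, f2 ⟨w, hw⟩ h2] at hzw
        exact absurd (hzw ▸ haT _) (hDT _ (E ⟨w, hw⟩).2)
    · push Not at h1
      by_cases h2 : ∃ j, w = b' j
      · obtain ⟨j, rfl⟩ := h2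
        rw [f1, f2 ⟨z, hz⟩ h1] at hzw
        exact absurd (hzw ▸ haT _) (hDT _ (E ⟨z, hz⟩).2)
      · push Not at h2
        rw [f2 ⟨w, hw⟩ h2, f2 ⟨z, hz⟩ h1] at hzw
        exact E.injective (Subtype.ext hzw)
  obtain ⟨g, hg⟩ := exists_mv (fun z : G => (z : Ω)) f' Subtype.val_injective hinj
  refine ⟨g, fun i => ?_, fun z hz hzi hF => ?_⟩
  · have := hg ⟨b' i, hb'G i⟩
    rw [f1] at this
    exact this
  · have h3 : (g : Perm Ω) z = f' ⟨z, hz⟩ := hg ⟨z, hz⟩
    rw [h3, f2 ⟨z, hz⟩ hzi] at hF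
    exact hDT _ (E ⟨z, hz⟩).2 (Finset.mem_union_left _ hF)

/-- **Connecting lemma.** Choose `h` (lemma `exists_mv` with `ι = G`) with `h (b' i) = a (τ i)` and
mapping the other letters of `G` injectively to letters outside `F ∪ range a`. Then expand
`sym (x * (h * y)) a' b = ∑_g y_g • sym x (mv (h * g) a') b` (`sym_mul_right`, `sym_mul_of`). The
tuple `mv g a'` has its letters in `G`. If it is `b' ∘ σ` then `mv (h * g) a' = a ∘ (τ * σ)` and
`sym_comp_right` applies; otherwise one of its letters is not among the `b' j`, its image under `h`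
is outside `F`, not moved by `x`, and not in `b`: the symbol is `0` by `sym_eq_zero_right`. The
`y_g σ` with `g a' = b' ∘ σ` sum up to `sym y a' b'`. -/
theorem exists_conn [Infinite Ω] {x y : MonoidAlgebra K (FSym Ω)} {F G : Finset Ω} (hx : On F x)
    (hy : On G y) {a b a' b' : Fin d → Ω} (ha : Function.Injective a) (ha' : Function.Injective a')
    (hb : Function.Injective b) (hb' : Function.Injective b') (hbF : ∀ i, b i ∈ F)
    (ha'G : ∀ i, a' i ∈ G) (hb'G : ∀ i, b' i ∈ G) (τ : Perm (Fin d)) :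
    ∃ h : FSym Ω, (∀ i, (h : Perm Ω) (b' i) = a (τ i)) ∧
      (∀ z ∈ G, (∀ i, z ≠ b' i) → (h : Perm Ω) z ∉ F) ∧
      sym (x * MonoidAlgebra.of K (FSym Ω) h * y) a' b =
        sym x a b * MonoidAlgebra.of K (Perm (Fin d)) τ * sym y a' b' := by
  classical
  obtain ⟨h, h1, h2⟩ := exists_conn_aux (F := F) (G := G) ha hb' hb'G τ
  refine ⟨h, h1, h2, ?_⟩
  have hR : sym y a' b' = ∑ g ∈ y.coeff.support,
      y.coeff g • sym (MonoidAlgebra.of K (FSym Ω) g) a' b' := by
    rw [← one_mul y, sym_mul_right, one_mul]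
    refine Finset.sum_congr rfl fun g _ => ?_
    rw [← sym_mul_of, one_mul]
  rw [sym_mul_right, hR, Finset.mul_sum]
  refine Finset.sum_congr rfl fun g hg => ?_
  rw [mul_smul_comm]
  congr 1
  rw [sym_mul_of]
  have hgG : ∀ z ∈ G, (g : Perm Ω) z ∈ G := by
    intro z hz
    by_contra hc
    have h3 := hy g hg _ hc
    have h4 := (g : Perm Ω).injective h3
    exact hc (by rw [h4]; exact hz)
  by_cases hσ : ∃ σ : Perm (Fin d), ∀ i, (g : Perm Ω) (a' i) = b' (σ i)
  · obtain ⟨σ, hσ⟩ := hσ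
    have e1 : mv h (mv g a') = a ∘ (τ * σ : Perm (Fin d)) := by
      funext i
      simp only [mv_apply, Function.comp_apply, Perm.mul_apply]
      rw [hσ i, h1]
    rw [e1, sym_comp_right, sym_of hb' hσ, map_mul, mul_assoc]
  · have hσ' : ∀ σ : Perm (Fin d), ∃ i, (g : Perm Ω) (a' i) ≠ b' (σ i) := by
      intro σ
      by_contra hc
      push Not at hc
      exact hσ ⟨σ, hc⟩
    rw [sym_of_eq_zero hσ', mul_zero]
    have h5 : ∃ i, ∀ j, (g : Perm Ω) (a' i) ≠ b' j := by
      by_contra hc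
      push Not at hc
      choose f hf using hc
      have hfi : Function.Injective f := by
        intro i j hij
        apply ha'
        apply (g : Perm Ω).injective
        rw [hf i, hf j, hij]
      exact hσ ⟨Equiv.ofBijective f (Finite.injective_iff_bijective.mp hfi), fun i => hf i⟩
    obtain ⟨i, hi⟩ := h5
    have h6 : mv h (mv g a') i ∉ F := h2 _ (hgG _ (ha'G i)) hi
    refine sym_eq_zero_right hx i h6 fun j hj => h6 ?_
    rw [← hj]
    exact hbF j

/-- **`PI N` is prime if `N` is prime.** If `x, y ∉ PI N` choose symbols `sym x a b ∉ N`,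
`sym y a' b' ∉ N`, then `τ` with `IsPrime.exists_perm` and `h` with `exists_conn` (finite sets `F`,
`G` large enough, `FinSym.exists_support`). -/
theorem isPrime_PI [Infinite Ω] {N : TwoSidedIdeal (SAlg K d)} (hN : IsPrime N) :
    IsPrime (PI K Ω N) := by
  classical
  refine ⟨PI_ne_top hN.1, fun x y hxy => ?_⟩
  by_contra hc
  push Not at hc
  obtain ⟨hx, hy⟩ := hc
  rw [mem_PI] at hx hy
  push Not at hx hy
  obtain ⟨a, b, ha, hb, hab⟩ := hx
  obtain ⟨a', b', ha', hb', hab'⟩ := hy
  obtain ⟨τ, hτ⟩ := hN.exists_perm hab hab'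
  obtain ⟨F0, hF0⟩ := Rank2.exists_On x
  obtain ⟨G0, hG0⟩ := Rank2.exists_On y
  have hF : On (F0 ∪ Finset.univ.image b) x := hF0.mono Finset.subset_union_left
  have hG : On (G0 ∪ (Finset.univ.image a' ∪ Finset.univ.image b')) y :=
    hG0.mono Finset.subset_union_left
  obtain ⟨h, -, -, hh⟩ := exists_conn hF hG ha ha' hb hb'
    (fun i => Finset.mem_union_right _ (Finset.mem_image_of_mem _ (Finset.mem_univ i)))
    (fun i => Finset.mem_union_right _ (Finset.mem_union_left _
      (Finset.mem_image_of_mem _ (Finset.mem_univ i))))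
    (fun i => Finset.mem_union_right _ (Finset.mem_union_right _
      (Finset.mem_image_of_mem _ (Finset.mem_univ i)))) τ
  have h1 := mem_PI.mp (hxy (MonoidAlgebra.of K (FSym Ω) h)) a' b ha' hb
  rw [hh] at h1
  exact hτ h1

end SmallPrime
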