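import Pool.Agent.Lib.MP_a8d7f7_al.P.S1
import Pool.Agent.Lib.MP_a8d7f7_al.P.S2

/-!
# MP_a8d7f7_al, prime ideals of small growth: growth (module S3)
-/

set_option autoImplicit false
set_option linter.unusedSectionVars false
set_option linter.unusedVariables false

namespace SmallPrime

open Finset Equiv FinSym
open ThreeLetter (Ideals)
open Rank2 (On sw e)

variable {K : Type*} [Field K] {Ω : Type*} [DecidableEq Ω] {d : ℕ}

theorem S3_sym_of (g : FSym Ω) (a b : Fin d → Ω) :
    sym (MonoidAlgebra.of K (FSym Ω) g) a b = ∑ τ : Perm (Fin d), MonoidAlgebra.single τ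
      (if ∀ i, (g : Perm Ω) (a i) = b (τ i) then (1 : K) else 0) := by
  have h0 : (MonoidAlgebra.of K (FSym Ω) g).coeff.support ⊆ {g} := by
    rw [MonoidAlgebra.of_apply, MonoidAlgebra.coeff_single]
    exact Finsupp.support_single_subset
  rw [sym_eq h0]
  refine Finset.sum_congr rfl fun σ _ => ?_
  congr 1
  by_cases h1 : ∀ i, (g : Perm Ω) (a i) = b (σ i)
  · rw [Finset.filter_singleton, if_pos h1, if_pos h1, Finset.sum_singleton,
      MonoidAlgebra.of_apply, MonoidAlgebra.coeff_single, Finsupp.single_eq_same]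
  · rw [Finset.filter_singleton, if_neg h1, if_neg h1, Finset.sum_empty]

/-- the symbols of an element of `K[Sym D]` -/
theorem S3_sym (D : Finset Ω) (y : MonoidAlgebra K (Perm D)) (a b : Fin d → Ω) :
    sym (phi K D y) a b = ∑ τ : Perm (Fin d), MonoidAlgebra.single τ
      (∑ σ : Perm D, if ∀ i, ((ext D σ : FSym Ω) : Perm Ω) (a i) = b (τ i) then y.coeff σ
        else 0) := by
  classical
  have h1 : phi K D y = ∑ σ : Perm D, y.coeff σ • MonoidAlgebra.of K (FSym Ω) (ext D σ) := by
    conv_lhs => rw [expand y (subset_univ _), map_sum]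
    apply sum_congr rfl
    intro σ _
    rw [map_smul, phi_o]
  have h2 : ∀ τ : Perm (Fin d), (MonoidAlgebra.single τ
      (∑ σ : Perm D, if ∀ i, ((ext D σ : FSym Ω) : Perm Ω) (a i) = b (τ i) then y.coeff σ
        else 0) : SAlg K d) = ∑ σ : Perm D, MonoidAlgebra.single τ
          (if ∀ i, ((ext D σ : FSym Ω) : Perm Ω) (a i) = b (τ i) then y.coeff σ else 0) := by
    intro τ
    exact map_sum (MonoidAlgebra.singleAddHom τ) _ _
  rw [h1, sym_sum, Finset.sum_congr rfl (fun τ _ => h2 τ), Finset.sum_comm]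
  refine Finset.sum_congr rfl fun σ _ => ?_
  rw [sym_smul, S3_sym_of, Finset.smul_sum]
  refine Finset.sum_congr rfl fun τ _ => ?_
  rw [MonoidAlgebra.smul_single]
  congr 1
  split_ifs with h
  · rw [smul_eq_mul, mul_one]
  · rw [smul_zero]

/-- the values at the pairs of tuples of letters of `D` and `d` further letters -/
noncomputable def S3_L (K : Type*) [Field K] {Ω : Type*} [DecidableEq Ω] (D : Finset Ω) (d : ℕ) :
    MonoidAlgebra K (Perm D) →ₗ[K] ((Fin d → D ⊕ Fin d) × (Fin d → D ⊕ Fin d) → K) where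
  toFun y := fun q => ∑ σ : Perm D, if ∀ i, Sum.map σ id (q.1 i) = q.2 i then y.coeff σ else 0
  map_add' x y := by
    funext q
    rw [Pi.add_apply, ← sum_add_distrib]
    apply sum_congr rfl
    intro σ _
    rw [MonoidAlgebra.coeff_add, Finsupp.add_apply]
    split_ifs <;> simp
  map_smul' a x := by
    funext q
    rw [RingHom.id_apply, Pi.smul_apply, smul_sum]
    apply sum_congr rfl
    intro σ _
    rw [MonoidAlgebra.coeff_smul, Finsupp.smul_apply]
    split_ifs <;> simp

/-- the coefficients of the symbols are values of `S3_L` -/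
theorem S3_coeff (D : Finset Ω) (y : MonoidAlgebra K (Perm D)) (hy : S3_L K D d y = 0)
    (a b : Fin d → Ω) :
    (∑ σ : Perm D, if ∀ i, ((ext D σ : FSym Ω) : Perm Ω) (a i) = b i then y.coeff σ
      else 0) = 0 := by
  by_cases h1 : ∀ i, (a i ∈ D → b i ∈ D) ∧ (a i ∉ D → a i = b i)
  · let p : Fin d → D ⊕ Fin d := fun i => if h : a i ∈ D then Sum.inl ⟨a i, h⟩ else Sum.inr i
    let q : Fin d → D ⊕ Fin d := fun i => if h : a i ∈ D then Sum.inl ⟨b i, (h1 i).1 h⟩
      else Sum.inr i
    have h2 : S3_L K D d y (p, q) = 0 := by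
      rw [hy]
      rfl
    refine Eq.trans ?_ h2
    show _ = ∑ σ : Perm D, if ∀ i, Sum.map σ id (p i) = q i then y.coeff σ else 0
    refine Finset.sum_congr rfl fun σ _ => if_congr (forall_congr' fun i => ?_) rfl rfl
    by_cases hi : a i ∈ D
    · have e1 : p i = Sum.inl ⟨a i, hi⟩ := dif_pos hi
      have e2 : q i = Sum.inl ⟨b i, (h1 i).1 hi⟩ := dif_pos hi
      rw [e1, e2, ext_mem D σ hi, Sum.map_inl, Sum.inl.injEq, Subtype.ext_iff]
    · have e1 : p i = Sum.inr i := dif_neg hi
      have e2 : q i = Sum.inr i := dif_neg hi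
      rw [e1, e2, ext_notMem D σ hi]
      exact ⟨fun _ => rfl, fun _ => (h1 i).2 hi⟩
  · push Not at h1
    obtain ⟨i, hi⟩ := h1
    refine Finset.sum_eq_zero fun σ _ => if_neg fun h => ?_
    have h3 := h i
    by_cases hiD : a i ∈ D
    · by_cases hb : b i ∈ D
      · exact (hi (fun _ => hb)).1 hiD
      · rw [ext_mem D σ hiD] at h3
        apply hb
        rw [← h3]
        exact (σ ⟨a i, hiD⟩).2
    · rw [ext_notMem D σ hiD] at h3
      exact (hi (fun h4 => absurd h4 hiD)).2 h3

theorem S3_ker {N : TwoSidedIdeal (SAlg K d)} {D : Finset Ω} {y : MonoidAlgebra K (Perm D)}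
    (hy : S3_L K D d y = 0) : phi K D y ∈ PI K Ω N := by
  rw [mem_PI]
  intro a b _ _
  rw [S3_sym]
  have h : ∀ τ : Perm (Fin d), (MonoidAlgebra.single τ
      (∑ σ : Perm D, if ∀ i, ((ext D σ : FSym Ω) : Perm Ω) (a i) = b (τ i) then y.coeff σ
        else 0) : SAlg K d) = 0 := by
    intro τ
    rw [S3_coeff D y hy a (fun i => b (τ i)), MonoidAlgebra.single_zero]
  rw [Finset.sum_eq_zero fun τ _ => h τ]
  exact N.zero_mem

/-- **Growth.** Let `E` be a set of `d` letters outside `D`, `X = D ∪ E`. The linear map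
`L : K[Sym D] → ((Fin d → X) × (Fin d → X) → K)`, `y ↦ ((a, b) ↦ ∑_{σ : σ a = b} y_σ)` (`σ` extended
by the identity) has rank at most `#X ^ (2 d)`, and its kernel is contained in `restr (PI N) D`: let
`y` be in the kernel, and `a`, `b` injective tuples in `Ω`. All symbols `sym (phi y) a b` vanish: if a
letter of `a` outside `D` is not in `b` (or vice versa) by `sym_eq_zero_right/left`; otherwise `a`
and `b` have the same letters outside `D`, at most `d`, and there is `h ∈ FSym(Ω)` fixing `D` and
moving them into `E`; `h` commutes with `phi y`, so `sym (phi y) a b = sym (phi y) (h a) (h b)` and the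
coefficients of the latter are values of `L y`. Compare the proof of `FinSym.growth` and
`FinSym.rho_ker` in `Growth.lean`. (Without `h`: the coefficient of `σ` in `sym (phi y) a b` is the sum
of `y_g` over the `g` with `g a = b σ`; for `i` with `a i ∉ D` this says `a i = b (σ i)`, and for the
other `i` it only involves letters in `D`; replace in `a` and in `b ∘ σ` the letters `a i ∉ D` by
letters of `E`.) -/
theorem growth_PI [Infinite Ω] (N : TwoSidedIdeal (SAlg K d)) (D : Finset Ω) :
    codimIn (PI K Ω N) D ≤ (D.card + d) ^ (2 * d) := by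
  unfold codimIn codim
  have hfin : Module.Finite K (MonoidAlgebra K (Perm D)) := by
    infer_instance
  have h1 : LinearMap.ker (S3_L K D d) ≤ restr (PI K Ω N) D := by
    intro x hx
    exact S3_ker (LinearMap.mem_ker.mp hx)
  have h2 := Submodule.finrank_quotient_add_finrank (restr (PI K Ω N) D)
  have h3 := LinearMap.finrank_range_add_finrank_ker (S3_L K D d)
  have h4 := Submodule.finrank_mono h1
  have h5 : Module.finrank K (LinearMap.range (S3_L K D d)) ≤
      Module.finrank K ((Fin d → D ⊕ Fin d) × (Fin d → D ⊕ Fin d) → K) :=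
    Submodule.finrank_le _
  rw [Module.finrank_fintype_fun_eq_card, Fintype.card_prod, Fintype.card_fun, Fintype.card_fin,
    Fintype.card_sum, Fintype.card_coe, Fintype.card_fin, ← pow_add, ← two_mul] at h5
  omega

end SmallPrime
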