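import Pool.Agent.Lib.MP_a8d7f7_al.P.U1
import Pool.Agent.Lib.MP_a8d7f7_al.P.G0
import Pool.Agent.Lib.MP_a8d7f7_al.R2.X6

/-!
# MP_a8d7f7_al, prime ideals of small growth: the sign twist (module T1)
-/

set_option autoImplicit false
set_option linter.unusedSectionVars false
set_option linter.unusedVariables false

namespace SmallPrime

open Finset Equiv FinSym
open ThreeLetter (Ideals)
open Rank2 (On sw e IsDiff)

variable {K : Type*} [Field K] {Ω : Type*} [DecidableEq Ω] {d k : ℕ}

theorem aug_theta_e {a b : Ω} (hab : a ≠ b) :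
    Rank2.aug K Ω (theta K Ω (e K a b)) = 2 := by
  unfold Rank2.e
  rw [map_sub, map_one, theta_of, map_sub, map_one, map_smul, Rank2.aug_of]
  unfold sgK
  rw [Rank2.sgn_sw hab]
  norm_num

/-- `aug (theta u) = 2 ^ m` (induction; `theta (1 - t) = 1 + t`, `FinSym.sgn_sw`) -/
theorem aug_theta_isDiff {m : ℕ} {S : Finset Ω} {u : MonoidAlgebra K (FSym Ω)} (h : IsDiff K m S u) :
    Rank2.aug K Ω (theta K Ω u) = 2 ^ m := by
  induction h with
  | zero => rw [map_one, map_one, pow_zero]
  | succ c S u a b hab ha hb h ih =>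
    rw [map_mul, map_mul, ih, aug_theta_e hab, pow_succ]
    ring

/-- `theta u` for a product `u` of `k + 1` differences is in `tw (PI N)` (`isDiff_mem_PI`), and its
symbol at a tuple `a` of other letters is `2 ^ (k + 1)` (`sym_fix`). -/
theorem not_tw_le [Infinite Ω] (h2 : (2 : K) ≠ 0) (N : TwoSidedIdeal (SAlg K k))
    {N' : TwoSidedIdeal (SAlg K d)} (hN' : N' ≠ ⊤) : ¬ tw (PI K Ω N) ≤ PI K Ω N' := by
  intro hle
  obtain ⟨S, u, -, hu⟩ := exists_isDiff (K := K) (Ω := Ω) (k + 1) ∅
  have h1 : u ∈ PI K Ω N := isDiff_mem_PI (Nat.lt_succ_self k) hu N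
  have h3 : theta K Ω u ∈ tw (PI K Ω N) := by
    rw [mem_tw, theta_theta]
    exact h1
  have h4 : theta K Ω u ∈ PI K Ω N' := hle h3
  obtain ⟨a, ha, haS⟩ := exists_tuple (Ω := Ω) d S
  have hon : On S (theta K Ω u) := fun σ hσ z hz => hu.on σ (support_theta u hσ) z hz
  have h5 := mem_PI.mp h4 a a ha ha
  rw [sym_fix hon ha haS, aug_theta_isDiff hu] at h5
  have h6 := smul_mem (K := K) N' ((2 : K) ^ (k + 1))⁻¹ h5
  rw [smul_smul, inv_mul_cancel₀ (pow_ne_zero _ h2), one_smul] at h6
  apply hN'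
  rw [eq_top_iff]
  intro y _
  have h7 := N'.mul_mem_left y _ h6
  rwa [mul_one] at h7

/-- in characteristic 2 the twist is trivial -/
theorem tw_eq_of_two (h2 : (2 : K) = 0) (I : Ideals K Ω) : tw I = I := by
  have hneg : (-1 : K) = 1 := by
    have h3 : (1 : K) + 1 = 0 := by rw [one_add_one_eq_two, h2]
    exact (eq_neg_of_add_eq_zero_left h3).symm
  have hs : ∀ σ : FSym Ω, sgK K σ = 1 := by
    intro σ
    unfold sgK
    rcases Int.units_eq_one_or (sgn σ) with h | h
    · rw [h]
      simp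
    · rw [h]
      simp [hneg]
  have ht : ∀ y : MonoidAlgebra K (FSym Ω), theta K Ω y = y := by
    intro y
    rw [expand y (subset_refl _), map_sum]
    apply sum_congr rfl
    intro σ _
    rw [map_smul, theta_of, hs, one_smul]
  ext y
  rw [mem_tw, ht]

end SmallPrime
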