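import Pool.Agent.Lib.MP_a8d7f7_al.P.C1b
import Pool.Agent.Lib.MP_a8d7f7_al.P.G3
import Pool.Agent.Lib.MP_a8d7f7_al.P.S3
import Pool.Agent.Lib.MP_a8d7f7_al.P.S2b
import Pool.Agent.Lib.MP_a8d7f7_al.P.O1b
import Pool.Agent.Lib.MP_a8d7f7_al.P.O1c
import Pool.Agent.Lib.MP_a8d7f7_al.P.T1

/-!
# MP_a8d7f7_al, prime ideals of small growth: the classification (assembly)
-/

set_option autoImplicit false
set_option linter.unusedSectionVars false
set_option linter.unusedVariables false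

namespace SmallPrime

open Finset Equiv FinSym
open ThreeLetter (Ideals)
open Rank2 (On sw e IsDiff)

variable {K : Type*} [Field K] {Ω : Type*} [DecidableEq Ω] {d k : ℕ}

/-- **The order.** -/
theorem PI_le_iff [Infinite Ω] {N : TwoSidedIdeal (SAlg K k)} {N' : TwoSidedIdeal (SAlg K d)}
    (hN' : IsPrime N') : PI K Ω N ≤ PI K Ω N' ↔
      ∃ f : Fin d ↪ Fin k, ∀ n : SAlg K d, incl f n ∈ N → n ∈ N' := by
  constructor
  · intro h
    exact ⟨Fin.castLEEmb (le_of_PI_le hN'.1 h), fun n hn => mem_of_PI_le hN' h _ hn⟩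
  · rintro ⟨f, h⟩
    exact PI_le f h

/-- a prime ideal containing a product of differences is one of the `PI N` -/
theorem eq_PI_of_isDiff_mem [Infinite Ω] {P : Ideals K Ω} (hP : IsPrime P)
    (h : ∃ (m : ℕ) (S : Finset Ω) (x : MonoidAlgebra K (FSym Ω)), IsDiff K m S x ∧ x ∈ P) :
    ∃ (d : ℕ) (N : TwoSidedIdeal (SAlg K d)), IsPrime N ∧ P = PI K Ω N := by
  classical
  have hex : ∃ m : ℕ, ∃ (S : Finset Ω) (x : MonoidAlgebra K (FSym Ω)), IsDiff K m S x ∧ x ∈ P := h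
  set m := Nat.find hex with hm
  obtain ⟨S, x, hx, hxP⟩ := Nat.find_spec hex
  have hm0 : m ≠ 0 := by
    intro h0
    have h1 : IsDiff K 0 ∅ (1 : MonoidAlgebra K (FSym Ω)) := IsDiff.zero
    have h2 : (1 : MonoidAlgebra K (FSym Ω)) ∈ P :=
      isDiff_mem_of (m := Nat.find hex) hx hxP (by rw [← hm, h0]; exact h1)
    exact hP.1 (TwoSidedIdeal.one_mem_iff _ |>.mp h2)
  obtain ⟨d, hd⟩ := Nat.exists_eq_succ_of_ne_zero hm0
  refine ⟨d, classify hP (d := d) ?_ ?_⟩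
  · intro S' u hu
    refine isDiff_mem_of hx hxP (S' := S') ?_
    rw [← hm, hd]; exact hu
  · obtain ⟨S', u, -, hu⟩ := exists_isDiff (K := K) (Ω := Ω) d ∅
    obtain ⟨a, w, haw, -, rfl⟩ := exists_gen hu
    refine ⟨a, w, haw, fun hmem => ?_⟩
    have := Nat.find_min' hex ⟨S', _, hu, hmem⟩
    rw [← hm, hd] at this
    omega

end SmallPrime
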