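import Pool.Agent.Lib.MP_a8d7f7_al.P.S1b
import Mathlib.RingTheory.Artinian.Module

/-!
# MP_a8d7f7_al, ideals of small growth: products of prime ideals (module N1)
-/

set_option autoImplicit false
set_option linter.unusedSectionVars false
set_option linter.unusedVariables false

namespace SmallPrime

open Finset Equiv FinSym
open ThreeLetter (Ideals)
open Rank2 (On sw e IsDiff)

/-- the product of the ideals of the list `L` is contained in `I` -/
def ProdLe {R : Type*} [Ring R] (L : List (TwoSidedIdeal R)) (I : TwoSidedIdeal R) : Prop :=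
  ∀ l : List R, List.Forall₂ (fun y P => y ∈ P) l L → l.prod ∈ I

theorem ProdLe.append {R : Type*} [Ring R] {L L' : List (TwoSidedIdeal R)} {I I' J : TwoSidedIdeal R}
    (h : ProdLe L I) (h' : ProdLe L' I') (hJ : ∀ x ∈ I, ∀ y ∈ I', x * y ∈ J) : ProdLe (L ++ L') J := by
  intro l hl
  have h1 := h _ (List.forall₂_take_append l L L' hl)
  have h2 := h' _ (List.forall₂_drop_append l L L' hl)
  have h3 := hJ _ h1 _ h2
  rwa [List.prod_take_mul_prod_drop] at h3

/-- a two-sided ideal of an algebra as a subspace -/
def n1Sub (K : Type*) [Field K] {R : Type*} [Ring R] [Algebra K R] (I : TwoSidedIdeal R) :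
    Submodule K R where
  carrier := {y | y ∈ I}
  add_mem' := fun ha hb => I.add_mem ha hb
  zero_mem' := I.zero_mem
  smul_mem' := fun r x hx => by
    have : r • x = algebraMap K R r * x := Algebra.smul_def r x
    rw [this]
    exact I.mul_mem_left _ _ hx

theorem mem_n1Sub {K : Type*} [Field K] {R : Type*} [Ring R] [Algebra K R] {I : TwoSidedIdeal R}
    {x : R} : x ∈ n1Sub K I ↔ x ∈ I := Iff.rfl

/-- the ideal of the `z` with `z R y ⊆ I` -/
def n1Left {R : Type*} [Ring R] (I : TwoSidedIdeal R) (y : R) : TwoSidedIdeal R :=
  TwoSidedIdeal.mk' {z | ∀ r : R, z * r * y ∈ I}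
    (by intro r; simp)
    (by
      intro a b ha hb r
      have : (a + b) * r * y = a * r * y + b * r * y := by noncomm_ring
      rw [this]; exact I.add_mem (ha r) (hb r))
    (by
      intro a ha r
      have : (-a) * r * y = -(a * r * y) := by noncomm_ring
      rw [this]; exact I.neg_mem (ha r))
    (by
      intro a b hb r
      have : a * b * r * y = a * (b * r * y) := by noncomm_ring
      rw [this]; exact I.mul_mem_left _ _ (hb r))
    (by
      intro a b ha r
      have : a * b * r * y = a * (b * r) * y := by noncomm_ring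
      rw [this]; exact ha (b * r))

theorem mem_n1Left {R : Type*} [Ring R] {I : TwoSidedIdeal R} {y z : R} :
    z ∈ n1Left I y ↔ ∀ r : R, z * r * y ∈ I := by
  simp [n1Left, TwoSidedIdeal.mem_mk']

/-- the ideal of the `z` with `J z ⊆ I` -/
def n1Right {R : Type*} [Ring R] (I J : TwoSidedIdeal R) : TwoSidedIdeal R :=
  TwoSidedIdeal.mk' {z | ∀ w ∈ J, w * z ∈ I}
    (by intro w _; simp)
    (by
      intro a b ha hb w hw
      rw [mul_add]; exact I.add_mem (ha w hw) (hb w hw))
    (by
      intro a ha w hw
      rw [mul_neg]; exact I.neg_mem (ha w hw))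
    (by
      intro a b hb w hw
      rw [← mul_assoc]; exact hb (w * a) (J.mul_mem_right _ _ hw))
    (by
      intro a b ha w hw
      rw [← mul_assoc]; exact I.mul_mem_right _ _ (ha w hw))

theorem mem_n1Right {R : Type*} [Ring R] {I J : TwoSidedIdeal R} {z : R} :
    z ∈ n1Right I J ↔ ∀ w ∈ J, w * z ∈ I := by
  simp [n1Right, TwoSidedIdeal.mem_mk']

/-- **Products of primes in finite-dimensional algebras.** Noetherian induction over the two-sided
ideals (they are subspaces of a finite-dimensional space: induction on `finrank (R / I)`, or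
well-foundedness of `>`): if `I = ⊤` take `L = []`; if `I` is prime, `L = [I]`; otherwise there are
`x, y ∉ I` with `x R y ⊆ I`; `I₁ = I ⊔ span {x}`, `I₂ = I ⊔ span {y}` (or: `I₁ = {z | ∀ r, z * r * y ∈ I}`
and `I₂ = {z | ∀ w ∈ I₁, w * z ∈ I}`, two-sided ideals containing `I`, `x` resp. `I`, `y`, with
`I₁ I₂ ⊆ I`) are larger; `ProdLe.append`. -/
theorem exists_prodLe {K : Type*} [Field K] {R : Type*} [Ring R] [Algebra K R] [Module.Finite K R]
    (I : TwoSidedIdeal R) :
    ∃ L : List (TwoSidedIdeal R), (∀ N ∈ L, IsPrime N) ∧ ProdLe L I := by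
  have key : ∀ S : Submodule K R, ∀ I : TwoSidedIdeal R, n1Sub K I = S →
      ∃ L : List (TwoSidedIdeal R), (∀ N ∈ L, IsPrime N) ∧ ProdLe L I := by
    intro S
    induction S using (wellFounded_gt : WellFounded
      ((· > ·) : Submodule K R → Submodule K R → Prop)).induction with
    | _ S ih =>
      intro I hI
      by_cases htop : I = ⊤
      · refine ⟨[], by simp, ?_⟩
        intro l hl
        rw [htop]
        exact TwoSidedIdeal.mem_top R
      by_cases hp : IsPrime I
      · refine ⟨[I], by simpa using hp, ?_⟩
        intro l hl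
        cases hl with
        | cons h1 h2 =>
          cases h2
          simpa using h1
      have hex : ∃ x y : R, (∀ r : R, x * r * y ∈ I) ∧ x ∉ I ∧ y ∉ I := by
        by_contra hcon
        apply hp
        refine ⟨htop, fun x y hxy => ?_⟩
        by_contra h1
        exact hcon ⟨x, y, hxy, fun h => h1 (Or.inl h), fun h => h1 (Or.inr h)⟩
      obtain ⟨x, y, hxy, hx, hy⟩ := hex
      have h1 : S < n1Sub K (n1Left I y) := by
        rw [← hI]
        refine lt_of_le_of_ne ?_ ?_
        · intro z hz
          rw [mem_n1Sub] at hz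
          rw [mem_n1Sub, mem_n1Left]
          intro r
          exact I.mul_mem_right _ _ (I.mul_mem_right _ _ hz)
        · intro heq
          apply hx
          have : x ∈ n1Sub K (n1Left I y) := by
            rw [mem_n1Sub, mem_n1Left]; exact hxy
          rw [← heq] at this
          exact this
      have h2 : S < n1Sub K (n1Right I (n1Left I y)) := by
        rw [← hI]
        refine lt_of_le_of_ne ?_ ?_
        · intro z hz
          rw [mem_n1Sub] at hz
          rw [mem_n1Sub, mem_n1Right]
          intro w _
          exact I.mul_mem_left _ _ hz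
        · intro heq
          apply hy
          have : y ∈ n1Sub K (n1Right I (n1Left I y)) := by
            rw [mem_n1Sub, mem_n1Right]
            intro w hw
            have h3 := mem_n1Left.1 hw 1
            simpa using h3
          rw [← heq] at this
          exact this
      obtain ⟨L1, hL1, hP1⟩ := ih _ h1 _ rfl
      obtain ⟨L2, hL2, hP2⟩ := ih _ h2 _ rfl
      refine ⟨L1 ++ L2, ?_, hP1.append hP2 ?_⟩
      · intro N hN
        rcases List.mem_append.1 hN with h | h
        · exact hL1 N h
        · exact hL2 N h
      · intro w hw z hz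
        exact mem_n1Right.1 hz w hw
  exact key _ I rfl

end SmallPrime
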