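import Pool.Agent.Lib.MP_a8d7f7_al.P.N1

/-!
# MP_a8d7f7_al, ideals of small growth: products of the ideals PI (module N1b)
-/

set_option autoImplicit false
set_option linter.unusedSectionVars false
set_option linter.unusedVariables false

namespace SmallPrime

open Finset Equiv FinSym
open ThreeLetter (Ideals)
open Rank2 (On sw e IsDiff)

variable {K : Type*} [Field K] {Ω : Type*} [DecidableEq Ω] {d : ℕ}

/-- the ideal of the `n` with `N₁ n ⊆ N` -/
def resid {R : Type*} [Ring R] (N₁ N : TwoSidedIdeal R) : TwoSidedIdeal R :=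
  TwoSidedIdeal.mk' {n | ∀ m ∈ N₁, m * n ∈ N}
    (by intro m _; rw [mul_zero]; exact N.zero_mem)
    (by intro a b ha hb m hm; rw [mul_add]; exact N.add_mem (ha m hm) (hb m hm))
    (by intro a ha m hm; rw [mul_neg]; exact N.neg_mem (ha m hm))
    (by
      intro a b hb m hm
      rw [← mul_assoc]
      exact hb _ (N₁.mul_mem_right _ _ hm))
    (by
      intro a b ha m hm
      rw [← mul_assoc]
      exact N.mul_mem_right _ _ (ha m hm))

theorem mem_resid {R : Type*} [Ring R] {N₁ N : TwoSidedIdeal R} {n : R} :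
    n ∈ resid N₁ N ↔ ∀ m ∈ N₁, m * n ∈ N := by
  unfold resid
  rw [TwoSidedIdeal.mem_mk']
  rfl

/-- Induction on `L` (for all `N`), with `PI_mul`: for `L = N₁ :: L'` and `ProdLe L N` let
`N' = {n | ∀ m ∈ N₁, m * n ∈ N}` (a two-sided ideal); then `ProdLe L' N'` and `N₁ N' ⊆ N`. For
`L = []`: `1 ∈ N`, so `PI N = ⊤`. -/
theorem ProdLe.map_PI {L : List (TwoSidedIdeal (SAlg K d))} {N : TwoSidedIdeal (SAlg K d)}
    (h : ProdLe L N) : ProdLe (L.map (PI K Ω)) (PI K Ω N) := by
  induction L generalizing N with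
  | nil =>
    intro l hl
    rw [List.map_nil, List.forall₂_nil_right_iff] at hl
    subst hl
    have h1 : (1 : SAlg K d) ∈ N := by
      have := h [] List.Forall₂.nil
      rwa [List.prod_nil] at this
    have h2 : N = ⊤ := (TwoSidedIdeal.one_mem_iff _).mp h1
    rw [mem_PI]
    intro a b _ _
    rw [h2]
    trivial
  | cons N₁ L ih =>
    intro l hl
    rw [List.map_cons, List.forall₂_cons_right_iff] at hl
    obtain ⟨y, l', hy, hl', rfl⟩ := hl
    have h1 : ProdLe L (resid N₁ N) := by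
      intro l₁ hl₁
      rw [mem_resid]
      intro m hm
      have := h (m :: l₁) (List.Forall₂.cons hm hl₁)
      rwa [List.prod_cons] at this
    have h2 := ih h1 l' hl'
    rw [List.prod_cons]
    exact PI_mul (fun m hm n hn => mem_resid.mp hn m hm) hy h2

/-- `exists_prodLe` for `N = ⊥` in `K[S_d]`, and `ProdLe.map_PI` -/
theorem exists_prodLe_bot (K : Type*) [Field K] (Ω : Type*) [DecidableEq Ω] (d : ℕ) :
    ∃ L : List (Ideals K Ω), (∀ P ∈ L, ∃ N : TwoSidedIdeal (SAlg K d), IsPrime N ∧ P = PI K Ω N) ∧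
      ProdLe L (PI K Ω (⊥ : TwoSidedIdeal (SAlg K d))) := by
  obtain ⟨L, h1, h2⟩ := exists_prodLe (K := K) (⊥ : TwoSidedIdeal (SAlg K d))
  refine ⟨L.map (PI K Ω), ?_, h2.map_PI⟩
  intro P hP
  obtain ⟨N, hN, rfl⟩ := List.mem_map.mp hP
  exact ⟨N, h1 N hN, rfl⟩

end SmallPrime
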