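import Pool.Agent.Lib.MP_a8d7f7_al.P.U2
import Pool.Agent.Lib.MP_a8d7f7_al.P.U3b
import Pool.Agent.Lib.MP_a8d7f7_al.P.N1b

/-!
# MP_a8d7f7_al, ideals of small growth: elements with vanishing symbols (module N2)
-/

set_option autoImplicit false
set_option linter.unusedSectionVars false
set_option linter.unusedVariables false

namespace SmallPrime

open Finset Equiv FinSym
open ThreeLetter (Ideals)
open Rank2 (On sw e IsDiff)

variable {K : Type*} [Field K] {Ω : Type*} [DecidableEq Ω] {d : ℕ}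

/-- the ideal generated by the products of `m` differences -/
noncomputable def UI (K : Type*) [Field K] (Ω : Type*) [DecidableEq Ω] (m : ℕ) : Ideals K Ω :=
  TwoSidedIdeal.span {u | ∃ S : Finset Ω, IsDiff K m S u}

theorem UI_le {m : ℕ} {I : Ideals K Ω}
    (h : ∀ (S : Finset Ω) (u : MonoidAlgebra K (FSym Ω)), IsDiff K m S u → u ∈ I) : UI K Ω m ≤ I := by
  unfold UI
  rw [TwoSidedIdeal.span_le]
  rintro u ⟨S, hu⟩
  exact h S u hu

/-- Let all symbols of `y` of length `d` vanish and `P` contain the products of `d + 1` differences.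
If `ud b v * y * ud a w ∉ P`, refine on the right (`refine_right`, fresh `w'`) and on the left
(`refine_left`, fresh `v'`): `ud b' v' * y * ud a' w' ∉ P`; but it is in `P` by `reduce_zz`, since
`zz a' v' w' 0 = 0` (`π` by `exists_mv`). -/
theorem ud_mul_mul_ud_mem [Infinite Ω] {P : Ideals K Ω}
    (hP : ∀ (S : Finset Ω) (u : MonoidAlgebra K (FSym Ω)), IsDiff K (d + 1) S u → u ∈ P)
    {y : MonoidAlgebra K (FSym Ω)}
    (hy : ∀ a b : Fin d → Ω, Function.Injective a → Function.Injective b → sym y a b = 0)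
    {a w b v : Fin d → Ω} (haw : Gen a w) (hbv : Gen b v) : ud K b v * y * ud K a w ∈ P := by
  classical
  by_contra hcon
  obtain ⟨F, hF⟩ := exists_support y
  have hyF : On F y := hF
  -- refine on the right
  obtain ⟨w', hw', hw'n⟩ := exists_tuple (Ω := Ω) d (F ∪ lets a w ∪ lets b v)
  have hw1 : ∀ i, w' i ∉ F ∧ w' i ∉ lets a w ∧ w' i ∉ lets b v := by
    intro i
    have := hw'n i
    rw [mem_union, mem_union, not_or, not_or] at this
    exact ⟨this.1.1, this.1.2, this.2⟩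
  obtain ⟨a', ha', hy1⟩ := refine_right (ud K b v * y) haw hcon hw'
    (fun i j hij => (hw1 i).2.1 (mem_lets.mpr (Or.inl ⟨j, hij.symm⟩)))
    (fun i j hij => (hw1 i).2.1 (mem_lets.mpr (Or.inr ⟨j, hij.symm⟩)))
  -- refine on the left
  obtain ⟨v', hv', hv'n⟩ := exists_tuple (Ω := Ω) d (F ∪ lets a w ∪ lets b v ∪ univ.image w')
  have hv1 : ∀ i, v' i ∉ F ∧ v' i ∉ lets a w ∧ v' i ∉ lets b v ∧ v' i ∉ univ.image w' := by
    intro i
    have := hv'n i
    rw [mem_union, mem_union, mem_union, not_or, not_or, not_or] at this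
    exact ⟨this.1.1.1, this.1.1.2, this.1.2, this.2⟩
  rw [mul_assoc] at hy1
  obtain ⟨b', hb', hy2⟩ := refine_left (y * ud K a' w') hbv hy1 hv'
    (fun i j hij => (hv1 i).2.2.1 (mem_lets.mpr (Or.inl ⟨j, hij.symm⟩)))
    (fun i j hij => (hv1 i).2.2.1 (mem_lets.mpr (Or.inr ⟨j, hij.symm⟩)))
  have ha'l : ∀ i, a' i ∈ lets a w := by
    intro i
    rcases ha' i with h | h
    · exact mem_lets.mpr (Or.inl ⟨i, h.symm⟩)
    · exact mem_lets.mpr (Or.inr ⟨i, h.symm⟩)
  have hb'l : ∀ i, b' i ∈ lets b v := by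
    intro i
    rcases hb' i with h | h
    · exact mem_lets.mpr (Or.inl ⟨i, h.symm⟩)
    · exact mem_lets.mpr (Or.inr ⟨i, h.symm⟩)
  have hinj : ∀ {p q p' : Fin d → Ω}, Gen p q → (∀ i, p' i = p i ∨ p' i = q i) →
      Function.Injective p' := by
    intro p q p' hpq hp' i j hij
    rcases hp' i with h1 | h1 <;> rcases hp' j with h2 | h2
    · exact hpq.inj_a (h1.symm.trans (hij.trans h2))
    · exact absurd (h1.symm.trans (hij.trans h2)) (hpq.ne i j)
    · exact absurd (h2.symm.trans (hij.symm.trans h1)) (hpq.ne j i)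
    · exact hpq.inj_w (h1.symm.trans (hij.trans h2))
  have ha'i : Function.Injective a' := hinj haw ha'
  have hb'i : Function.Injective b' := hinj hbv hb'
  have g1 : Gen a' v' := ⟨ha'i, hv', fun i j hij => (hv1 j).2.1 (hij ▸ ha'l i)⟩
  have g2 : Gen a' w' := ⟨ha'i, hw', fun i j hij => (hw1 j).2.1 (hij ▸ ha'l i)⟩
  have g3 : Gen b' v' := ⟨hb'i, hv', fun i j hij => (hv1 j).2.2.1 (hij ▸ hb'l i)⟩
  have g4 : Gen b' w' := ⟨hb'i, hw', fun i j hij => (hw1 j).2.2 (hij ▸ hb'l i)⟩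
  have g5 : ∀ i j, v' i ≠ w' j := fun i j hij =>
    (hv1 i).2.2.2 (mem_image.mpr ⟨j, mem_univ _, hij.symm⟩)
  -- the permutation
  have hf1 : Function.Injective (Sum.elim a' (Sum.elim v' w') : Fin d ⊕ (Fin d ⊕ Fin d) → Ω) := by
    rw [Sum.elim_injective]
    refine ⟨ha'i, ?_, ?_⟩
    · rw [Sum.elim_injective]
      exact ⟨hv', hw', g5⟩
    · rintro i (j | j)
      · exact g1.ne i j
      · exact g2.ne i j
  have hf2 : Function.Injective (Sum.elim b' (Sum.elim v' w') : Fin d ⊕ (Fin d ⊕ Fin d) → Ω) := by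
    rw [Sum.elim_injective]
    refine ⟨hb'i, ?_, ?_⟩
    · rw [Sum.elim_injective]
      exact ⟨hv', hw', g5⟩
    · rintro i (j | j)
      · exact g3.ne i j
      · exact g4.ne i j
  obtain ⟨π, hπ⟩ := exists_mv _ _ hf1 hf2
  have h1 := reduce_zz (a := ⟨a', ha'i⟩) (b := ⟨b', hb'i⟩) hP g1 g2 g3 g4 g5 hyF
    (fun i => (hv1 i).1) (fun i => (hw1 i).1) (π := π) (fun i => hπ (Sum.inl i))
    (fun i => hπ (Sum.inr (Sum.inl i))) (fun i => hπ (Sum.inr (Sum.inr i)))
  have h0 : sym y ((⟨a', ha'i⟩ : Fin d ↪ Ω) : Fin d → Ω) ((⟨b', hb'i⟩ : Fin d ↪ Ω) : Fin d → Ω) = 0 :=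
    hy _ _ ha'i hb'i
  rw [h0] at h1
  unfold zz at h1
  rw [map_zero, mul_zero, zero_mul, mul_zero, sub_zero] at h1
  apply hy2
  rw [← mul_assoc]
  exact h1

end SmallPrime
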