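import Pool.Agent.Lib.MP_a8d7f7_al.P.N2

/-!
# MP_a8d7f7_al, ideals of small growth: the ideals UI contain products of prime ideals (module N2b)
-/

set_option autoImplicit false
set_option linter.unusedSectionVars false
set_option linter.unusedVariables false

namespace SmallPrime

open Finset Equiv FinSym
open ThreeLetter (Ideals)
open Rank2 (On sw e IsDiff)

variable {K : Type*} [Field K] {Ω : Type*} [DecidableEq Ω] {d : ℕ}

/-- the `x` with `x * y * z ∈ J` for all `y ∈ I` and all `z` in a set -/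
noncomputable def leftIdeal (I J : Ideals K Ω) (Z : Set (MonoidAlgebra K (FSym Ω))) : Ideals K Ω :=
  TwoSidedIdeal.mk' {x | ∀ y ∈ I, ∀ z ∈ Z, x * y * z ∈ J}
    (by intro y _ z _; rw [zero_mul, zero_mul]; exact J.zero_mem)
    (by
      intro a b ha hb y hy z hz
      rw [add_mul, add_mul]; exact J.add_mem (ha y hy z hz) (hb y hy z hz))
    (by
      intro a ha y hy z hz
      rw [neg_mul, neg_mul]; exact J.neg_mem (ha y hy z hz))
    (by
      intro a b hb y hy z hz
      rw [mul_assoc a, mul_assoc a]; exact J.mul_mem_left _ _ (hb y hy z hz))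
    (by
      intro a b ha y hy z hz
      rw [mul_assoc a]; exact ha _ (I.mul_mem_left _ _ hy) z hz)

theorem mem_leftIdeal {I J : Ideals K Ω} {Z : Set (MonoidAlgebra K (FSym Ω))}
    {x : MonoidAlgebra K (FSym Ω)} :
    x ∈ leftIdeal I J Z ↔ ∀ y ∈ I, ∀ z ∈ Z, x * y * z ∈ J := by
  unfold leftIdeal
  rw [TwoSidedIdeal.mem_mk']
  rfl

/-- the `z` with `x * y * z ∈ J` for all `x ∈ I'`, `y ∈ I` -/
noncomputable def rightIdeal (I' I J : Ideals K Ω) : Ideals K Ω :=
  TwoSidedIdeal.mk' {z | ∀ x ∈ I', ∀ y ∈ I, x * y * z ∈ J}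
    (by intro x _ y _; rw [mul_zero]; exact J.zero_mem)
    (by
      intro a b ha hb x hx y hy
      rw [mul_add]; exact J.add_mem (ha x hx y hy) (hb x hx y hy))
    (by
      intro a ha x hx y hy
      rw [mul_neg]; exact J.neg_mem (ha x hx y hy))
    (by
      intro a b hb x hx y hy
      rw [← mul_assoc, mul_assoc x]; exact hb x hx _ (I.mul_mem_right _ _ hy))
    (by
      intro a b ha x hx y hy
      rw [← mul_assoc]; exact J.mul_mem_right _ _ (ha x hx y hy))

theorem mem_rightIdeal {I' I J : Ideals K Ω} {z : MonoidAlgebra K (FSym Ω)} :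
    z ∈ rightIdeal I' I J ↔ ∀ x ∈ I', ∀ y ∈ I, x * y * z ∈ J := by
  unfold rightIdeal
  rw [TwoSidedIdeal.mem_mk']
  rfl

/-- `x * y * z ∈ UI (d + 1)` for `x, z ∈ UI d`, `y ∈ PI ⊥`. By span induction (or: the set of the `x`
such that `x * y * z ∈ UI (d + 1)` for all `y ∈ PI ⊥` and all `z` which are products of `d`
differences is a two-sided ideal: closed under right multiplication because `PI ⊥` is an ideal; then
the same for `z`) reduce to products of differences (`exists_gen`) and use `ud_mul_mul_ud_mem`. -/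
theorem UI_mul_mul [Infinite Ω] {x y z : MonoidAlgebra K (FSym Ω)} (hx : x ∈ UI K Ω d)
    (hy : y ∈ PI K Ω (⊥ : TwoSidedIdeal (SAlg K d))) (hz : z ∈ UI K Ω d) :
    x * y * z ∈ UI K Ω (d + 1) := by
  have h0 : ∀ (S : Finset Ω) (u : MonoidAlgebra K (FSym Ω)), IsDiff K (d + 1) S u →
      u ∈ UI K Ω (d + 1) := fun S u hu => TwoSidedIdeal.subset_span ⟨S, hu⟩
  have h1 : UI K Ω d ≤ leftIdeal (PI K Ω (⊥ : TwoSidedIdeal (SAlg K d))) (UI K Ω (d + 1))
      {z | ∃ S : Finset Ω, IsDiff K d S z} := by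
    apply UI_le
    intro S u hu
    rw [mem_leftIdeal]
    rintro y hy z ⟨T, hz⟩
    obtain ⟨b, v, hbv, -, rfl⟩ := exists_gen hu
    obtain ⟨a, w, haw, -, rfl⟩ := exists_gen hz
    apply ud_mul_mul_ud_mem h0 _ haw hbv
    intro a b ha hb
    have := mem_PI.mp hy a b ha hb
    exact (TwoSidedIdeal.mem_bot _).mp this
  have h2 : UI K Ω d ≤ rightIdeal (UI K Ω d) (PI K Ω (⊥ : TwoSidedIdeal (SAlg K d)))
      (UI K Ω (d + 1)) := by
    apply UI_le
    intro S u hu
    rw [mem_rightIdeal]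
    intro x hx y hy
    exact mem_leftIdeal.mp (h1 hx) y hy u ⟨S, hu⟩
  exact mem_rightIdeal.mp (h2 hz) x hx y hy

/-- **`UI m` contains a product of prime ideals.** Induction on `m`: `UI 0 = ⊤` (`IsDiff.zero`), `L = []`.
Step: `L ++ M ++ L` with `M` from `exists_prodLe_bot` (`ProdLe.append` twice, `UI_mul_mul`). -/
theorem exists_prodLe_UI [Infinite Ω] (m : ℕ) :
    ∃ L : List (Ideals K Ω), (∀ P ∈ L, ∃ (d : ℕ) (N : TwoSidedIdeal (SAlg K d)), IsPrime N ∧
      P = PI K Ω N) ∧ ProdLe L (UI K Ω m) := by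
  induction m with
  | zero =>
    refine ⟨[], fun P hP => absurd hP List.not_mem_nil, ?_⟩
    intro l hl
    have h1 : (1 : MonoidAlgebra K (FSym Ω)) ∈ UI K Ω 0 :=
      TwoSidedIdeal.subset_span ⟨∅, IsDiff.zero⟩
    rw [(TwoSidedIdeal.one_mem_iff _).mp h1]
    trivial
  | succ m ih =>
    obtain ⟨L, hL, hL'⟩ := ih
    obtain ⟨M, hM, hM'⟩ := exists_prodLe_bot K Ω m
    refine ⟨L ++ (M ++ L), ?_, ?_⟩
    · intro P hP
      rw [List.mem_append, List.mem_append] at hP
      rcases hP with h | h | h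
      · exact hL P h
      · obtain ⟨N, h1, h2⟩ := hM P h
        exact ⟨m, N, h1, h2⟩
      · exact hL P h
    · have h1 : ProdLe (M ++ L) (resid (UI K Ω m) (UI K Ω (m + 1))) := by
        refine hM'.append hL' ?_
        intro y hy z hz
        rw [mem_resid]
        intro x hx
        rw [← mul_assoc]
        exact UI_mul_mul hx hy hz
      exact hL'.append h1 (fun x hx y hy => mem_resid.mp hy x hx)

end SmallPrime
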