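import Pool.Agent.Lib.MP_a8d7f7_al.P.N3
import Pool.Agent.Lib.MP_a8d7f7_al.P.G3

/-!
# MP_a8d7f7_al, ideals of small growth: ideals of small growth contain products of prime ideals (module N3b)
-/

set_option autoImplicit false
set_option linter.unusedSectionVars false
set_option linter.unusedVariables false

namespace SmallPrime

open Finset Equiv FinSym
open ThreeLetter (Ideals)
open Rank2 (On sw e IsDiff)

variable {K : Type*} [Field K] {Ω : Type*} [DecidableEq Ω] {d : ℕ}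

/-- **Ideals of small growth contain a product of prime ideals of the list.** (`mem_of_codim_lt`,
`mul_mem_of_split`, `UI_mul_tw`, `exists_prodLe_UI` twice, `ProdLe.map_tw`, `ProdLe.append` if `2 ≠ 0`;
`mem_of_codim_lt_two`, `isDiff_mem_of`, `UI_le` if `2 = 0`.) -/
theorem exists_prodLe_small [Infinite Ω] {I : Ideals K Ω} {D : Finset Ω}
    (h : codimIn I D < 2 ^ (D.card / 3)) :
    ∃ L : List (Ideals K Ω), (∀ P ∈ L, ∃ (d : ℕ) (N : TwoSidedIdeal (SAlg K d)), IsPrime N ∧
      (P = PI K Ω N ∨ P = tw (PI K Ω N))) ∧ ProdLe L I := by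
  by_cases h2 : (2 : K) = 0
  · obtain ⟨m, S, u, hu, huI⟩ := mem_of_codim_lt_two h2 h
    obtain ⟨L, hL, hL'⟩ := exists_prodLe_UI (K := K) (Ω := Ω) m
    refine ⟨L, ?_, ?_⟩
    · intro P hP
      obtain ⟨d, N, hN, h3⟩ := hL P hP
      exact ⟨d, N, hN, Or.inl h3⟩
    · intro l hl
      have h3 : UI K Ω m ≤ I := UI_le fun S' u' hu' => isDiff_mem_of hu huI hu'
      exact h3 (hL' l hl)
  · obtain ⟨c, c', S₁, S₂, u, v, hS, hu, hv, huv⟩ := mem_of_codim_lt h2 h
    obtain ⟨L, hL, hL'⟩ := exists_prodLe_UI (K := K) (Ω := Ω) (c + 2 * c')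
    obtain ⟨M, hM, hM'⟩ := exists_prodLe_UI (K := K) (Ω := Ω) c'
    refine ⟨L ++ M.map tw, ?_, ?_⟩
    · intro P hP
      rw [List.mem_append] at hP
      rcases hP with h3 | h3
      · obtain ⟨d, N, hN, h4⟩ := hL P h3
        exact ⟨d, N, hN, Or.inl h4⟩
      · obtain ⟨Q, hQ, rfl⟩ := List.mem_map.mp h3
        obtain ⟨d, N, hN, h4⟩ := hM Q hQ
        exact ⟨d, N, hN, Or.inr (by rw [h4])⟩
    · exact hL'.append hM'.map_tw (fun x hx y hy => UI_mul_tw
        (fun S T X w g hX hw => mul_mem_of_split hS hu hv huv hX hw g) hx hy)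

end SmallPrime
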