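import Pool.Agent.Lib.MP_a8d7f7_al.P.U1c
import Pool.Agent.Lib.MP_a8d7f7_al.P.S2b

/-!
# MP_a8d7f7_al, prime ideals of small growth: the order, the induction (module O1)
-/

set_option autoImplicit false
set_option linter.unusedSectionVars false
set_option linter.unusedVariables false

namespace SmallPrime

open Finset Equiv FinSym
open ThreeLetter (Ideals)
open Rank2 (On sw e IsDiff)

variable {K : Type*} [Field K] {Ω : Type*} [DecidableEq Ω] {d k : ℕ}

theorem O1_letters [Infinite Ω] (d : ℕ) : ∃ (a : Fin d ↪ Ω) (w w' : Fin d → Ω),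
    Gen a w ∧ Gen a w' ∧ ∀ i j, w i ≠ w' j := by
  obtain ⟨a, ha, -⟩ := exists_tuple (Ω := Ω) d ∅
  obtain ⟨w, hw, hw2⟩ := exists_tuple (Ω := Ω) d (univ.image a)
  obtain ⟨w', hw', hw2'⟩ := exists_tuple (Ω := Ω) d (univ.image a ∪ univ.image w)
  refine ⟨⟨a, ha⟩, w, w', ⟨ha, hw, ?_⟩, ⟨ha, hw', ?_⟩, ?_⟩
  · intro i j hij
    exact hw2 j (mem_image.2 ⟨i, mem_univ _, hij⟩)
  · intro i j hij
    exact hw2' j (mem_union_left _ (mem_image.2 ⟨i, mem_univ _, hij⟩))
  · intro i j hij
    exact hw2' j (mem_union_right _ (mem_image.2 ⟨i, mem_univ _, hij⟩))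

theorem O1_zz_on (a : Fin d ↪ Ω) (w w' : Fin d → Ω) (n : SAlg K d) :
    On (univ.image a ∪ (univ.image w ∪ univ.image w')) (zz a w w' n) := by
  unfold zz
  refine Rank2.On.mul (Rank2.On.mul ((ud_on (a : Fin d → Ω) w).mono ?_) ((emb_on a n).mono ?_))
    ((ud_on (a : Fin d → Ω) w').mono ?_)
  · intro z hz
    rcases mem_union.1 hz with h | h
    · exact mem_union_left _ h
    · exact mem_union_right _ (mem_union_left _ h)
  · exact subset_union_left
  · intro z hz
    rcases mem_union.1 hz with h | h
    · exact mem_union_left _ h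
    · exact mem_union_right _ (mem_union_right _ h)

/-- **The induction.** `f : Fin d ↪ Fin k`, `incl f n ∈ N` (`N` an ideal of `K[S_k]`), `N'` prime,
`n ∉ N'`. For every `m` there are `x` and injective `a`, `b` with `sym x a b ∉ N'` (symbols of length
`d`) and `m + 1` pairwise disjoint finite sets `W 0, …, W m` disjoint from the letters `a` such that
`sym x c b' ∈ N` (symbols of length `k`) for every injective `c` avoiding at least one of the `W l`.
`m = 0`: `x = zz a w w' n`, `W 0 =` letters of `w` (`sym_zz`, `sym_zz_mem`). Step: let `x`, `a`, `b`,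
`W` be given, let `F` contain the letters moved by `x`, the letters `b` and the `W l`; let
`z = zz a' w w' n` with any letters, `G` the set of its letters. By `IsPrime.exists_perm` choose `τ` with
`sym x a b * τ * n ∉ N'`, and `h` by `exists_conn` (`b' = a'`): `sym (x * h * z) a' b =
sym x a b * τ * n ∉ N'`. The new sets are `h⁻¹ (W l)`, `l ≤ m`, and `W (m+1) =` letters of `w`. They are
pairwise disjoint and disjoint from `a'`, because `h G ⊆ {a i} ∪ (complement of F)` is disjoint from
the `W l`, so `G` is disjoint from the `h⁻¹ (W l)`. If `c` avoids the letters `w`: `sym z c b'' ∈ N` for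
all `b''`, so `sym (x * h * z) c b' ∈ N` (`sym_mul_left_mem`). If `c` avoids `h⁻¹ (W l)`: for `g` in the
support of `z`, `g` fixes `h⁻¹ (W l)`, so `mv (h * g) c` avoids `W l`: `sym_mul_right_mem`. -/
theorem exists_guarded [Infinite Ω] {N : TwoSidedIdeal (SAlg K k)} {N' : TwoSidedIdeal (SAlg K d)}
    (hN' : IsPrime N') {f : Fin d ↪ Fin k} {n : SAlg K d} (hn : incl f n ∈ N) (hn' : n ∉ N') (m : ℕ) :
    ∃ (x : MonoidAlgebra K (FSym Ω)) (a b : Fin d → Ω) (W : Fin (m + 1) → Finset Ω),
      Function.Injective a ∧ Function.Injective b ∧ sym x a b ∉ N' ∧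
      (∀ i l, a i ∉ W l) ∧ (∀ l l', l ≠ l' → Disjoint (W l) (W l')) ∧
      ∀ c b' : Fin k → Ω, Function.Injective c → ∀ l, (∀ i, c i ∉ W l) → sym x c b' ∈ N := by
  classical
  induction m with
  | zero =>
    obtain ⟨a, w, w', h, h', hw⟩ := O1_letters (Ω := Ω) d
    refine ⟨zz a w w' n, a, a, fun _ => univ.image w, a.injective, a.injective, ?_, ?_, ?_, ?_⟩
    · rw [sym_zz h h' hw]
      exact hn'
    · intro i l hi
      obtain ⟨j, -, hj⟩ := mem_image.1 hi
      exact h.ne i j hj.symm
    · intro l l' hl
      exact absurd (Fin.ext (by omega)) hl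
    · intro c b' hc l hcl
      refine sym_zz_mem hn h h' hw hc ?_ b'
      intro i j hij
      exact hcl i (mem_image.2 ⟨j, mem_univ _, hij.symm⟩)
  | succ m ih =>
    obtain ⟨x, a, b, W, ha, hb, hab, haW, hWW, hx⟩ := ih
    obtain ⟨a', w, w', h, h', hw⟩ := O1_letters (Ω := Ω) d
    obtain ⟨F0, hF0⟩ := Rank2.exists_On x
    let F : Finset Ω := F0 ∪ (univ.image b ∪ univ.biUnion W)
    let G : Finset Ω := univ.image a' ∪ (univ.image w ∪ univ.image w')
    have hF : On F x := hF0.mono subset_union_left
    have hG : On G (zz a' w w' n) := O1_zz_on a' w w' n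
    obtain ⟨τ, hτ⟩ := hN'.exists_perm hab hn'
    obtain ⟨g, hg1, hg2, hg3⟩ := exists_conn hF hG ha a'.injective hb a'.injective
      (fun i => mem_union_right _ (mem_union_left _ (mem_image_of_mem _ (mem_univ i))))
      (fun i => mem_union_left _ (mem_image_of_mem _ (mem_univ i)))
      (fun i => mem_union_left _ (mem_image_of_mem _ (mem_univ i))) τ
    rw [sym_zz h h' hw] at hg3
    have hWF : ∀ l, ∀ z ∈ W l, z ∈ F := fun l z hz =>
      mem_union_right _ (mem_union_right _ (mem_biUnion.2 ⟨l, mem_univ _, hz⟩))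
    have hGW : ∀ z ∈ G, ∀ l, (g : Perm Ω) z ∉ W l := by
      intro z hz l hzl
      by_cases hza : ∃ i, z = a' i
      · obtain ⟨i, rfl⟩ := hza
        rw [hg1] at hzl
        exact haW _ l hzl
      · push Not at hza
        exact hg2 z hz hza (hWF l _ hzl)
    have hpre : ∀ l z, z ∈ (W l).image ((g : Perm Ω).symm) ↔ (g : Perm Ω) z ∈ W l := by
      intro l z
      constructor
      · intro hz
        obtain ⟨y, hy, rfl⟩ := mem_image.1 hz
        rw [Equiv.apply_symm_apply]
        exact hy
      · intro hz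
        exact mem_image.2 ⟨_, hz, Equiv.symm_apply_apply _ _⟩
    have hwG : ∀ j, w j ∈ G := fun j =>
      mem_union_right _ (mem_union_left _ (mem_image_of_mem _ (mem_univ j)))
    have hdis : ∀ l, Disjoint ((W l).image ((g : Perm Ω).symm)) (univ.image w) := by
      intro l
      rw [disjoint_left]
      intro z hz hz'
      obtain ⟨j, -, rfl⟩ := mem_image.1 hz'
      exact hGW _ (hwG j) l ((hpre l _).1 hz)
    refine ⟨x * MonoidAlgebra.of K (FSym Ω) g * zz a' w w' n, a', b,
      Fin.snoc (α := fun _ => Finset Ω) (fun l => (W l).image ((g : Perm Ω).symm)) (univ.image w),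
      a'.injective, hb, ?_, ?_, ?_, ?_⟩
    · rw [hg3]
      exact hτ
    · intro i l
      refine Fin.lastCases ?_ (fun l => ?_) l
      · rw [Fin.snoc_last]
        intro hi
        obtain ⟨j, -, hj⟩ := mem_image.1 hi
        exact h.ne i j hj.symm
      · rw [Fin.snoc_castSucc]
        intro hi
        have h1 := (hpre l _).1 hi
        rw [hg1] at h1
        exact haW _ l h1
    · intro l l'
      refine Fin.lastCases ?_ (fun l => ?_) l
      · refine Fin.lastCases ?_ (fun l' => ?_) l'
        · intro hl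
          exact absurd rfl hl
        · intro _
          rw [Fin.snoc_last, Fin.snoc_castSucc]
          exact (hdis l').symm
      · refine Fin.lastCases ?_ (fun l' => ?_) l'
        · intro _
          rw [Fin.snoc_last, Fin.snoc_castSucc]
          exact hdis l
        · intro hl
          rw [Fin.snoc_castSucc, Fin.snoc_castSucc, disjoint_left]
          intro z hz hz'
          have hll : l ≠ l' := fun he => hl (congrArg _ he)
          exact disjoint_left.1 (hWW l l' hll) ((hpre l z).1 hz) ((hpre l' z).1 hz')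
    · intro c b' hc l
      refine Fin.lastCases ?_ (fun l => ?_) l
      · rw [Fin.snoc_last]
        intro hcl
        refine sym_mul_left_mem fun g' _ => ?_
        refine sym_zz_mem hn h h' hw hc ?_ _
        intro i j hij
        exact hcl i (mem_image.2 ⟨j, mem_univ _, hij.symm⟩)
      · rw [Fin.snoc_castSucc]
        intro hcl
        refine sym_mul_right_mem fun g' hg' => ?_
        rw [sym_mul_of]
        refine hx _ b' (mv_inj g (mv_inj g' hc)) l ?_
        intro i hi
        have h1 : (g : Perm Ω) ((g' : Perm Ω) (c i)) ∈ W l := hi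
        have h2 : (g' : Perm Ω) (c i) ∉ G := fun h3 => hGW _ h3 l h1
        have h4 : (g' : Perm Ω) ((g' : Perm Ω) (c i)) = (g' : Perm Ω) (c i) := hG g' hg' _ h2
        have h5 : (g' : Perm Ω) (c i) = c i := (g' : Perm Ω).injective h4
        rw [h5] at h1
        exact hcl i ((hpre l _).2 h1)

end SmallPrime
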