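import Pool.Agent.Lib.MP_a8d7f7_al.P.Stmt
import Pool.Agent.Lib.MP_a8d7f7_al.R2.I4
import Pool.Agent.Lib.MP_a8d7f7_al.R2.X1

/-!
# MP_a8d7f7_al, prime ideals of small growth: symbols, additive rules (module S0)
-/

set_option autoImplicit false
set_option linter.unusedSectionVars false
set_option linter.unusedVariables false

namespace SmallPrime

open Finset Equiv FinSym
open ThreeLetter (Ideals)
open Rank2 (On sw e)

/-- moving a tuple -/
def mv {ι Ω : Type*} (g : FSym Ω) (a : ι → Ω) : ι → Ω := fun i => (g : Perm Ω) (a i)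

variable {K : Type*} [Field K] {Ω : Type*} [DecidableEq Ω] {d : ℕ}

theorem mv_apply {ι : Type*} (g : FSym Ω) (a : ι → Ω) (i : ι) : mv g a i = (g : Perm Ω) (a i) := rfl

theorem mv_one {ι : Type*} (a : ι → Ω) : mv (1 : FSym Ω) a = a := rfl

theorem mv_mul {ι : Type*} (g h : FSym Ω) (a : ι → Ω) : mv (g * h) a = mv g (mv h a) := rfl

theorem mv_inj {ι : Type*} (g : FSym Ω) {a : ι → Ω} (ha : Function.Injective a) :
    Function.Injective (mv g a) := fun _ _ h => ha ((g : Perm Ω).injective h)

theorem mv_inv_mv {ι : Type*} (g : FSym Ω) (a : ι → Ω) : mv g⁻¹ (mv g a) = a := by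
  rw [← mv_mul, inv_mul_cancel, mv_one]

theorem mv_mv_inv {ι : Type*} (g : FSym Ω) (a : ι → Ω) : mv g (mv g⁻¹ a) = a := by
  rw [← mv_mul, mul_inv_cancel, mv_one]

/-- the sum may be taken over any finite set containing the support -/
theorem sym_eq {y : MonoidAlgebra K (FSym Ω)} {S : Finset (FSym Ω)} (hS : y.coeff.support ⊆ S)
    (a b : Fin d → Ω) : sym y a b = ∑ σ : Perm (Fin d), MonoidAlgebra.single σ
      (∑ g ∈ S.filter (fun g : FSym Ω => ∀ i, (g : Perm Ω) (a i) = b (σ i)), y.coeff g) := by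
  unfold sym
  refine Finset.sum_congr rfl fun σ _ => ?_
  congr 1
  refine Finset.sum_subset (Finset.filter_subset_filter _ hS) ?_
  intro g hg hg'
  rw [Finset.mem_filter] at hg hg'
  by_contra hne
  exact hg' ⟨Finsupp.mem_support_iff.mpr hne, hg.2⟩

theorem sym_zero (a b : Fin d → Ω) : sym (0 : MonoidAlgebra K (FSym Ω)) a b = 0 := by
  rw [sym_eq (S := ∅) (by rw [MonoidAlgebra.coeff_zero, Finsupp.support_zero])]
  refine Finset.sum_eq_zero fun σ _ => ?_
  rw [Finset.filter_empty, Finset.sum_empty, MonoidAlgebra.single_zero]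

theorem sym_add (y z : MonoidAlgebra K (FSym Ω)) (a b : Fin d → Ω) :
    sym (y + z) a b = sym y a b + sym z a b := by
  classical
  have h1 : y.coeff.support ⊆ y.coeff.support ∪ z.coeff.support := Finset.subset_union_left
  have h2 : z.coeff.support ⊆ y.coeff.support ∪ z.coeff.support := Finset.subset_union_right
  have h3 : (y + z).coeff.support ⊆ y.coeff.support ∪ z.coeff.support := by
    rw [MonoidAlgebra.coeff_add]; exact Finsupp.support_add
  rw [sym_eq h1, sym_eq h2, sym_eq h3, ← Finset.sum_add_distrib]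
  refine Finset.sum_congr rfl fun σ _ => ?_
  rw [← MonoidAlgebra.single_add, ← Finset.sum_add_distrib]
  congr 1

theorem sym_smul (r : K) (y : MonoidAlgebra K (FSym Ω)) (a b : Fin d → Ω) :
    sym (r • y) a b = r • sym y a b := by
  have h1 : (r • y).coeff.support ⊆ y.coeff.support := by
    rw [MonoidAlgebra.coeff_smul]; exact Finsupp.support_smul
  rw [sym_eq h1, sym_eq (Finset.Subset.refl y.coeff.support), Finset.smul_sum]
  refine Finset.sum_congr rfl fun σ _ => ?_
  rw [MonoidAlgebra.smul_single, Finset.smul_sum]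
  congr 1

theorem sym_sub (y z : MonoidAlgebra K (FSym Ω)) (a b : Fin d → Ω) :
    sym (y - z) a b = sym y a b - sym z a b := by
  have h : y - z = y + (-1 : K) • z := by rw [neg_smul, one_smul, sub_eq_add_neg]
  rw [h, sym_add, sym_smul, neg_smul, one_smul, sub_eq_add_neg]

theorem sym_sum {ι : Type*} (s : Finset ι) (y : ι → MonoidAlgebra K (FSym Ω)) (a b : Fin d → Ω) :
    sym (∑ i ∈ s, y i) a b = ∑ i ∈ s, sym (y i) a b := by
  classical
  induction s using Finset.induction_on with
  | empty => rw [Finset.sum_empty, Finset.sum_empty, sym_zero]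
  | insert i s hi ih => rw [Finset.sum_insert hi, Finset.sum_insert hi, sym_add, ih]

private theorem s0_support (g : FSym Ω) :
    (MonoidAlgebra.of K (FSym Ω) g).coeff.support ⊆ {g} := by
  rw [MonoidAlgebra.of_apply, MonoidAlgebra.coeff_single]
  exact Finsupp.support_single_subset

private theorem s0_coeff (g : FSym Ω) : (MonoidAlgebra.of K (FSym Ω) g).coeff g = 1 := by
  rw [MonoidAlgebra.of_apply, MonoidAlgebra.coeff_single, Finsupp.single_eq_same]

/-- the symbol of a permutation -/
theorem sym_of {g : FSym Ω} {a b : Fin d → Ω} (hb : Function.Injective b) {σ : Perm (Fin d)}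
    (h : ∀ i, (g : Perm Ω) (a i) = b (σ i)) :
    sym (MonoidAlgebra.of K (FSym Ω) g) a b = MonoidAlgebra.of K (Perm (Fin d)) σ := by
  rw [sym_eq (s0_support g), Finset.sum_eq_single σ]
  · rw [Finset.filter_singleton, if_pos h, Finset.sum_singleton, s0_coeff, MonoidAlgebra.of_apply]
  · intro τ _ hτ
    have h1 : ¬ ∀ i, (g : Perm Ω) (a i) = b (τ i) := by
      intro h2
      apply hτ
      refine Equiv.ext fun i => hb ?_
      rw [← h2 i, h i]
    rw [Finset.filter_singleton, if_neg h1, Finset.sum_empty, MonoidAlgebra.single_zero]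
  · intro h1
    exact absurd (Finset.mem_univ σ) h1

theorem sym_of_eq_zero {g : FSym Ω} {a b : Fin d → Ω}
    (h : ∀ σ : Perm (Fin d), ∃ i, (g : Perm Ω) (a i) ≠ b (σ i)) :
    sym (MonoidAlgebra.of K (FSym Ω) g) a b = 0 := by
  rw [sym_eq (s0_support g)]
  refine Finset.sum_eq_zero fun τ _ => ?_
  have h1 : ¬ ∀ i, (g : Perm Ω) (a i) = b (τ i) := by
    intro h2
    obtain ⟨i, hi⟩ := h τ
    exact hi (h2 i)
  rw [Finset.filter_singleton, if_neg h1, Finset.sum_empty, MonoidAlgebra.single_zero]

theorem sym_one {a : Fin d → Ω} (ha : Function.Injective a) :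
    sym (1 : MonoidAlgebra K (FSym Ω)) a a = 1 := by
  rw [← map_one (MonoidAlgebra.of K (FSym Ω)), sym_of (σ := 1) ha (fun i => rfl), map_one]

end SmallPrime
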