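import Pool.Agent.Lib.MP_a8d7f7_al.P.S0

/-!
# MP_a8d7f7_al, prime ideals of small growth: symbols, multiplicative rules (module S0b)
-/

set_option autoImplicit false
set_option linter.unusedSectionVars false
set_option linter.unusedVariables false

namespace SmallPrime

open Finset Equiv FinSym
open ThreeLetter (Ideals)
open Rank2 (On sw e)

variable {K : Type*} [Field K] {Ω : Type*} [DecidableEq Ω] {d : ℕ}

open Classical in
private theorem s0b_coeff_of (g : FSym Ω) (h : FSym Ω) :
    (MonoidAlgebra.of K (FSym Ω) g).coeff h = if g = h then 1 else 0 := by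
  rw [MonoidAlgebra.of_apply, MonoidAlgebra.coeff_single, Finsupp.single_apply]

private theorem s0b_sum (y : MonoidAlgebra K (FSym Ω)) :
    y = ∑ g ∈ y.coeff.support, y.coeff g • MonoidAlgebra.of K (FSym Ω) g := by
  classical
  apply MonoidAlgebra.coeff_injective
  rw [MonoidAlgebra.coeff_sum]
  refine Finsupp.ext fun h => ?_
  rw [Finsupp.finsetSum_apply]
  by_cases h0 : h ∈ y.coeff.support
  · rw [Finset.sum_eq_single_of_mem h h0]
    · rw [MonoidAlgebra.coeff_smul, Finsupp.smul_apply, s0b_coeff_of, if_pos rfl, smul_eq_mul,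
        mul_one]
    · intro g _ hg
      rw [MonoidAlgebra.coeff_smul, Finsupp.smul_apply, s0b_coeff_of, if_neg hg, smul_zero]
  · rw [Finset.sum_eq_zero]
    · exact Finsupp.notMem_support_iff.mp h0
    · intro g hg
      have hne : g ≠ h := fun h1 => h0 (h1 ▸ hg)
      rw [MonoidAlgebra.coeff_smul, Finsupp.smul_apply, s0b_coeff_of, if_neg hne, smul_zero]

/-- reduction of a linear statement to group elements -/
private theorem s0b_lin {M : Type*} [AddCommGroup M] [Module K M]
    (F G : MonoidAlgebra K (FSym Ω) →ₗ[K] M)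
    (h : ∀ g : FSym Ω, F (MonoidAlgebra.of K (FSym Ω) g) = G (MonoidAlgebra.of K (FSym Ω) g))
    (y : MonoidAlgebra K (FSym Ω)) : F y = G y := by
  rw [s0b_sum y, map_sum, map_sum]
  exact Finset.sum_congr rfl fun g _ => by rw [map_smul, map_smul, h]

/-- the symbol as a linear map -/
private noncomputable def s0b_symL (a b : Fin d → Ω) :
    MonoidAlgebra K (FSym Ω) →ₗ[K] MonoidAlgebra K (Perm (Fin d)) where
  toFun y := sym y a b
  map_add' y z := sym_add y z a b
  map_smul' r y := sym_smul r y a b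

private theorem s0b_sym_of (g : FSym Ω) (a b : Fin d → Ω) :
    sym (MonoidAlgebra.of K (FSym Ω) g) a b = ∑ σ : Perm (Fin d), MonoidAlgebra.single σ
      (if ∀ i, (g : Perm Ω) (a i) = b (σ i) then (1 : K) else 0) := by
  have h0 : (MonoidAlgebra.of K (FSym Ω) g).coeff.support ⊆ {g} := by
    rw [MonoidAlgebra.of_apply, MonoidAlgebra.coeff_single]
    exact Finsupp.support_single_subset
  rw [sym_eq h0]
  refine Finset.sum_congr rfl fun σ _ => ?_
  congr 1
  by_cases h1 : ∀ i, (g : Perm Ω) (a i) = b (σ i)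
  · rw [Finset.filter_singleton, if_pos h1, if_pos h1, Finset.sum_singleton, s0b_coeff_of,
      if_pos rfl]
  · rw [Finset.filter_singleton, if_neg h1, if_neg h1, Finset.sum_empty]

/-- reindexing of the sum over `g` -/
theorem sym_of_mul (g : FSym Ω) (y : MonoidAlgebra K (FSym Ω)) (a b : Fin d → Ω) :
    sym (MonoidAlgebra.of K (FSym Ω) g * y) a b = sym y a (mv g⁻¹ b) := by
  refine s0b_lin ((s0b_symL a b).comp (LinearMap.mulLeft K (MonoidAlgebra.of K (FSym Ω) g)))
    (s0b_symL a (mv g⁻¹ b)) (fun h => ?_) y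
  change sym (MonoidAlgebra.of K (FSym Ω) g * MonoidAlgebra.of K (FSym Ω) h) a b
    = sym (MonoidAlgebra.of K (FSym Ω) h) a (mv g⁻¹ b)
  rw [← map_mul, s0b_sym_of, s0b_sym_of]
  refine Finset.sum_congr rfl fun σ _ => ?_
  congr 1
  refine if_congr (forall_congr' fun i => ?_) rfl rfl
  change (g : Perm Ω) ((h : Perm Ω) (a i)) = b (σ i) ↔ (h : Perm Ω) (a i) = (g : Perm Ω)⁻¹ (b (σ i))
  rw [Equiv.Perm.eq_inv_iff_eq]

theorem sym_mul_of (y : MonoidAlgebra K (FSym Ω)) (g : FSym Ω) (a b : Fin d → Ω) :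
    sym (y * MonoidAlgebra.of K (FSym Ω) g) a b = sym y (mv g a) b := by
  refine s0b_lin ((s0b_symL a b).comp (LinearMap.mulRight K (MonoidAlgebra.of K (FSym Ω) g)))
    (s0b_symL (mv g a) b) (fun h => ?_) y
  change sym (MonoidAlgebra.of K (FSym Ω) h * MonoidAlgebra.of K (FSym Ω) g) a b
    = sym (MonoidAlgebra.of K (FSym Ω) h) (mv g a) b
  rw [← map_mul, s0b_sym_of, s0b_sym_of]
  rfl

theorem sym_comp_right (y : MonoidAlgebra K (FSym Ω)) (a b : Fin d → Ω) (τ : Perm (Fin d)) :
    sym y (a ∘ τ) b = sym y a b * MonoidAlgebra.of K (Perm (Fin d)) τ := by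
  rw [sym_eq (Finset.Subset.refl y.coeff.support), sym_eq (Finset.Subset.refl y.coeff.support),
    Finset.sum_mul]
  refine (Fintype.sum_equiv (Equiv.mulRight τ) _ _ fun σ => ?_).symm
  rw [MonoidAlgebra.of_apply, MonoidAlgebra.single_mul_single, mul_one]
  change MonoidAlgebra.single (σ * τ) _ = MonoidAlgebra.single (σ * τ) _
  congr 1
  refine Finset.sum_congr (Finset.filter_congr fun g _ => ?_) fun _ _ => rfl
  constructor
  · intro h i
    exact h (τ i)
  · intro h i
    obtain ⟨j, hj⟩ := τ.surjective i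
    rw [← hj]
    exact h j

theorem sym_comp_left (y : MonoidAlgebra K (FSym Ω)) (a b : Fin d → Ω) (τ : Perm (Fin d)) :
    sym y a (b ∘ τ) = MonoidAlgebra.of K (Perm (Fin d)) τ⁻¹ * sym y a b := by
  rw [sym_eq (Finset.Subset.refl y.coeff.support), sym_eq (Finset.Subset.refl y.coeff.support),
    Finset.mul_sum]
  refine (Fintype.sum_equiv (Equiv.mulLeft τ⁻¹) _ _ fun σ => ?_).symm
  rw [MonoidAlgebra.of_apply, MonoidAlgebra.single_mul_single, one_mul]
  change MonoidAlgebra.single (τ⁻¹ * σ) _ = MonoidAlgebra.single (τ⁻¹ * σ) _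
  congr 1
  refine Finset.sum_congr (Finset.filter_congr fun g _ => forall_congr' fun i => ?_) fun _ _ => rfl
  change (g : Perm Ω) (a i) = b (σ i) ↔ (g : Perm Ω) (a i) = b (τ (τ.symm (σ i)))
  rw [Equiv.apply_symm_apply]

/-- expansion of a product along the second factor -/
theorem sym_mul_right (y z : MonoidAlgebra K (FSym Ω)) (a b : Fin d → Ω) :
    sym (y * z) a b = ∑ g ∈ z.coeff.support, z.coeff g • sym y (mv g a) b := by
  conv_lhs => rw [s0b_sum z]
  rw [Finset.mul_sum, sym_sum]
  refine Finset.sum_congr rfl fun g _ => ?_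
  rw [mul_smul_comm, sym_smul, sym_mul_of]

/-- expansion of a product along the first factor -/
theorem sym_mul_left (y z : MonoidAlgebra K (FSym Ω)) (a b : Fin d → Ω) :
    sym (y * z) a b = ∑ g ∈ y.coeff.support, y.coeff g • sym z a (mv g⁻¹ b) := by
  conv_lhs => rw [s0b_sum y]
  rw [Finset.sum_mul, sym_sum]
  refine Finset.sum_congr rfl fun g _ => ?_
  rw [smul_mul_assoc, sym_smul, sym_of_mul]

end SmallPrime
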