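import Pool.Agent.Lib.MP_a8d7f7_al.P.S0b

/-!
# MP_a8d7f7_al, prime ideals of small growth: vanishing symbols (module S0c)
-/

set_option autoImplicit false
set_option linter.unusedSectionVars false
set_option linter.unusedVariables false

namespace SmallPrime

open Finset Equiv FinSym
open ThreeLetter (Ideals)
open Rank2 (On sw e)

variable {K : Type*} [Field K] {Ω : Type*} [DecidableEq Ω] {d : ℕ}

/-- a letter of `a` which is neither moved by `y` nor in `b` -/
theorem sym_eq_zero_right {D : Finset Ω} {y : MonoidAlgebra K (FSym Ω)} (hy : On D y)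
    {a b : Fin d → Ω} (i : Fin d) (hi : a i ∉ D) (hb : ∀ j, b j ≠ a i) : sym y a b = 0 := by
  refine On.induction (D := D) (q := fun y => sym y a b = 0) ?_ ?_ ?_ ?_ hy
  · exact sym_zero a b
  · intro y z h1 h2
    rw [sym_add, h1, h2, add_zero]
  · intro r y h1
    rw [sym_smul, h1, smul_zero]
  · intro g hg
    apply sym_of_eq_zero
    intro σ
    refine ⟨i, ?_⟩
    rw [hg _ hi]
    exact fun h => hb _ h.symm

/-- a letter of `b` which is neither moved by `y` nor in `a` -/
theorem sym_eq_zero_left {D : Finset Ω} {y : MonoidAlgebra K (FSym Ω)} (hy : On D y)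
    {a b : Fin d → Ω} (j : Fin d) (hj : b j ∉ D) (ha : ∀ i, a i ≠ b j) : sym y a b = 0 := by
  refine On.induction (D := D) (q := fun y => sym y a b = 0) ?_ ?_ ?_ ?_ hy
  · exact sym_zero a b
  · intro y z h1 h2
    rw [sym_add, h1, h2, add_zero]
  · intro r y h1
    rw [sym_smul, h1, smul_zero]
  · intro g hg
    apply sym_of_eq_zero
    intro σ
    refine ⟨σ.symm j, ?_⟩
    rw [apply_symm_apply]
    intro h
    have h1 := hg _ hj
    exact ha _ ((g : Perm Ω).injective (h.trans h1.symm))

/-- the tuple is fixed by `y` -/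
theorem sym_fix {D : Finset Ω} {y : MonoidAlgebra K (FSym Ω)} (hy : On D y)
    {a : Fin d → Ω} (ha : Function.Injective a) (h : ∀ i, a i ∉ D) :
    sym y a a = Rank2.aug K Ω y • 1 := by
  refine On.induction (D := D) (q := fun y => sym y a a = Rank2.aug K Ω y • 1) ?_ ?_ ?_ ?_ hy
  · rw [sym_zero, map_zero, zero_smul]
  · intro y z h1 h2
    rw [sym_add, h1, h2, map_add, add_smul]
  · intro r y h1
    rw [sym_smul, h1, map_smul, smul_assoc]
  · intro g hg
    have h0 : sym (MonoidAlgebra.of K (FSym Ω) g) a a = MonoidAlgebra.of K (Perm (Fin d)) 1 :=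
      sym_of ha (σ := 1) (fun i => hg _ (h i))
    rw [Rank2.aug_of, one_smul, h0, map_one]

end SmallPrime
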