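import Pool.Agent.Lib.MP_a8d7f7_al.R2.Stmt
import Pool.Agent.Lib.MP_a8d7f7_al.Growth

/-!
# MP_a8d7f7_al: the definitions for the ideals of small growth (helper24)
-/

set_option autoImplicit false
set_option linter.unusedSectionVars false
set_option linter.unusedVariables false

namespace SmallPrime

open Finset Equiv FinSym
open ThreeLetter (Ideals twist)

/-- a two-sided ideal `P` is prime if it is proper and `x R y ⊆ P` implies `x ∈ P` or `y ∈ P` -/
def IsPrime {R : Type*} [Ring R] (P : TwoSidedIdeal R) : Prop :=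
  P ≠ ⊤ ∧ ∀ x y : R, (∀ r : R, x * r * y ∈ P) → x ∈ P ∨ y ∈ P

/-- a two-sided ideal `I` is semiprime if `x R x ⊆ I` implies `x ∈ I` -/
def IsSemiprime {R : Type*} [Ring R] (I : TwoSidedIdeal R) : Prop :=
  ∀ x : R, (∀ r : R, x * r * x ∈ I) → x ∈ I

/-- the group algebra of the symmetric group on `d` letters -/
abbrev SAlg (K : Type*) [Field K] (d : ℕ) : Type _ := MonoidAlgebra K (Perm (Fin d))

section

variable {K : Type*} [Field K] {Ω : Type*} [DecidableEq Ω]

/-- the symbol of `y` at the tuples `a`, `b`: the coefficient of `σ` is the sum of the coefficients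
of `y` at the permutations `g` with `g ∘ a = b ∘ σ` -/
noncomputable def sym {d : ℕ} (y : MonoidAlgebra K (FSym Ω)) (a b : Fin d → Ω) : SAlg K d :=
  ∑ σ : Perm (Fin d), MonoidAlgebra.single σ
    (∑ g ∈ y.coeff.support.filter (fun g : FSym Ω => ∀ i, (g : Perm Ω) (a i) = b (σ i)), y.coeff g)

/-- the ideal `PI N` of `K[FSym(Ω)]` attached to an ideal `N` of `K[S_d]`: all symbols lie in `N` -/
noncomputable def PI (K : Type*) [Field K] (Ω : Type*) [DecidableEq Ω] {d : ℕ}
    (N : TwoSidedIdeal (SAlg K d)) : Ideals K Ω :=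
  TwoSidedIdeal.span {y | ∀ a b : Fin d ↪ Ω, sym y a b ∈ N}

/-- `P` is `PI N` or its sign twist, for a prime ideal `N` of some `K[S_d]` -/
def Listed (P : Ideals K Ω) : Prop :=
  ∃ (d : ℕ) (N : TwoSidedIdeal (SAlg K d)), IsPrime N ∧ (P = PI K Ω N ∨ P = twist (PI K Ω N))

/-- for one finite set `D`, the codimension of `I ∩ K[Sym D]` in `K[Sym D]` is below `2 ^ (#D / 3)` -/
def SmallGrowth (I : Ideals K Ω) : Prop := ∃ D : Finset Ω, codimIn I D < 2 ^ (D.card / 3)

/-- the codimension of `I ∩ K[Sym D]` in `K[Sym D]` is at most `(#D + s) ^ s`, for every `D` -/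
def PolyGrowth (s : ℕ) (I : Ideals K Ω) : Prop :=
  ∀ D : Finset Ω, codimIn I D ≤ (D.card + s) ^ s

/-- the product of the ideals of the list `L` is contained in `I` -/
def ProductLe (L : List (Ideals K Ω)) (I : Ideals K Ω) : Prop :=
  ∀ l : List (MonoidAlgebra K (FSym Ω)), List.Forall₂ (fun y P => y ∈ P) l L → l.prod ∈ I

end

/-- the map `K[S_e] → K[S_d]` of an embedding of the letters -/
noncomputable def incl {K : Type*} [Field K] {e d : ℕ} (f : Fin e ↪ Fin d) (n : SAlg K e) :
    SAlg K d :=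
  ∑ σ : Perm (Fin e), MonoidAlgebra.single (σ.viaFintypeEmbedding f) (n.coeff σ)

end SmallPrime
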