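import Pool.Agent.Lib.MP_a8d7f7_al.P.S0c

/-!
# MP_a8d7f7_al, prime ideals of small growth: products of differences along tuples (module U0)
-/

set_option autoImplicit false
set_option linter.unusedSectionVars false
set_option linter.unusedVariables false

namespace SmallPrime

open Finset Equiv FinSym
open ThreeLetter (Ideals)
open Rank2 (On sw e IsDiff)

variable {K : Type*} [Field K] {Ω : Type*} [DecidableEq Ω] {d : ℕ}

/-- the product of the differences `1 - (a i, w i)` -/
noncomputable def ud (K : Type*) [Field K] {Ω : Type*} [DecidableEq Ω] {d : ℕ} (a w : Fin d → Ω) :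
    MonoidAlgebra K (FSym Ω) := (List.ofFn fun i => e K (a i) (w i)).prod

/-- the `2 d` letters are different -/
structure Gen {Ω : Type*} {d : ℕ} (a w : Fin d → Ω) : Prop where
  inj_a : Function.Injective a
  inj_w : Function.Injective w
  ne : ∀ i j, a i ≠ w j

/-- the letters of two tuples -/
def lets {Ω : Type*} [DecidableEq Ω] {d : ℕ} (a w : Fin d → Ω) : Finset Ω :=
  univ.image a ∪ univ.image w

theorem mem_lets {a w : Fin d → Ω} {z : Ω} : z ∈ lets a w ↔ (∃ i, a i = z) ∨ ∃ i, w i = z := by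
  simp [lets]

theorem Gen.symm {a w : Fin d → Ω} (h : Gen a w) : Gen w a :=
  ⟨h.inj_w, h.inj_a, fun i j => (h.ne j i).symm⟩

theorem Gen.tail {a w : Fin (d + 1) → Ω} (h : Gen a w) : Gen (Fin.tail a) (Fin.tail w) :=
  ⟨fun i j hij => Fin.succ_injective _ (h.inj_a hij),
    fun i j hij => Fin.succ_injective _ (h.inj_w hij), fun i j => h.ne i.succ j.succ⟩

theorem Gen.mv {a w : Fin d → Ω} (h : Gen a w) (g : FSym Ω) : Gen (mv g a) (mv g w) :=
  ⟨mv_inj g h.inj_a, mv_inj g h.inj_w, fun i j hij => h.ne i j ((g : Perm Ω).injective hij)⟩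

theorem ud_zero (a w : Fin 0 → Ω) : ud K a w = 1 := by
  simp [ud]

theorem ud_succ (a w : Fin (d + 1) → Ω) :
    ud K a w = e K (a 0) (w 0) * ud K (Fin.tail a) (Fin.tail w) := by
  unfold ud
  rw [List.ofFn_succ, List.prod_cons]
  rfl

theorem U0_lets_succ (a w : Fin (d + 1) → Ω) :
    lets a w = insert (a 0) (insert (w 0) (lets (Fin.tail a) (Fin.tail w))) := by
  ext z
  rw [mem_insert, mem_insert, mem_lets, mem_lets, Fin.exists_fin_succ, Fin.exists_fin_succ]
  constructor
  · rintro ((h | h) | (h | h))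
    · exact Or.inl h.symm
    · exact Or.inr (Or.inr (Or.inl h))
    · exact Or.inr (Or.inl h.symm)
    · exact Or.inr (Or.inr (Or.inr h))
  · rintro (h | h | h | h)
    · exact Or.inl (Or.inl h.symm)
    · exact Or.inr (Or.inl h.symm)
    · exact Or.inl (Or.inr h)
    · exact Or.inr (Or.inr h)

theorem U0_a_notMem {a w : Fin (d + 1) → Ω} (h : Gen a w) :
    a 0 ∉ lets (Fin.tail a) (Fin.tail w) := by
  rw [mem_lets]
  rintro (⟨i, hi⟩ | ⟨i, hi⟩)
  · exact Fin.succ_ne_zero i (h.inj_a hi)
  · exact h.ne 0 i.succ hi.symm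

theorem U0_w_notMem {a w : Fin (d + 1) → Ω} (h : Gen a w) :
    w 0 ∉ lets (Fin.tail a) (Fin.tail w) := by
  rw [mem_lets]
  rintro (⟨i, hi⟩ | ⟨i, hi⟩)
  · exact h.ne i.succ 0 hi
  · exact Fin.succ_ne_zero i (h.inj_w hi)

theorem ud_on (a w : Fin d → Ω) : On (lets a w) (ud K a w) := by
  induction d with
  | zero =>
    rw [ud_zero]
    exact Rank2.On.one _
  | succ d ih =>
    rw [ud_succ]
    refine Rank2.On.mul (Rank2.e_On ?_ ?_) ((ih (Fin.tail a) (Fin.tail w)).mono ?_)
    · exact mem_lets.2 (Or.inl ⟨0, rfl⟩)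
    · exact mem_lets.2 (Or.inr ⟨0, rfl⟩)
    · rw [U0_lets_succ]
      exact (subset_insert _ _).trans (subset_insert _ _)

theorem card_lets {a w : Fin d → Ω} (h : Gen a w) : (lets a w).card = 2 * d := by
  unfold lets
  rw [card_union_of_disjoint, card_image_of_injective _ h.inj_a,
    card_image_of_injective _ h.inj_w, card_univ, Fintype.card_fin]
  · ring
  · rw [disjoint_left]
    intro z hz hz'
    rw [mem_image] at hz hz'
    obtain ⟨i, _, hi⟩ := hz
    obtain ⟨j, _, hj⟩ := hz'
    exact h.ne i j (hi.trans hj.symm)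

/-- induction on `d` -/
theorem ud_isDiff {a w : Fin d → Ω} (h : Gen a w) : IsDiff K d (lets a w) (ud K a w) := by
  induction d with
  | zero =>
    have e1 : lets a w = ∅ := by simp [lets]
    rw [ud_zero, e1]
    exact IsDiff.zero
  | succ d ih =>
    rw [ud_succ, U0_lets_succ]
    exact IsDiff.succ _ _ _ _ _ (h.ne 0 0) (U0_a_notMem h) (U0_w_notMem h) (ih h.tail)

/-- induction on `d`: `e (a 0) (w 0)` commutes with the other factors (`Rank2.e_mul_comm`) -/
theorem ud_factor {a w : Fin d → Ω} (h : Gen a w) (i : Fin d) :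
    ∃ r : MonoidAlgebra K (FSym Ω), On (lets a w \ {a i, w i}) r ∧
      ud K a w = e K (a i) (w i) * r ∧ ud K a w = r * e K (a i) (w i) := by
  induction d with
  | zero => exact i.elim0
  | succ d ih =>
    have hsub : lets (Fin.tail a) (Fin.tail w) ⊆ lets a w := by
      rw [U0_lets_succ a w]
      exact (subset_insert _ _).trans (subset_insert _ _)
    refine Fin.cases ?_ (fun j => ?_) i
    · refine ⟨ud K (Fin.tail a) (Fin.tail w), (ud_on _ _).mono ?_, ud_succ a w, ?_⟩
      · intro z hz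
        rw [mem_sdiff, mem_insert, mem_singleton]
        refine ⟨hsub hz, ?_⟩
        rintro (h1 | h1)
        · exact U0_a_notMem h (h1 ▸ hz)
        · exact U0_w_notMem h (h1 ▸ hz)
      · rw [ud_succ]
        exact Rank2.e_mul_comm (ud_on _ _) (U0_a_notMem h) (U0_w_notMem h)
    · obtain ⟨r, hr, h1, h2⟩ := ih h.tail j
      have ha : Fin.tail a j = a j.succ := rfl
      have hw : Fin.tail w j = w j.succ := rfl
      rw [ha, hw] at hr h1 h2
      have n1 : a 0 ≠ a j.succ := fun hh => Fin.succ_ne_zero j (h.inj_a hh).symm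
      have n2 : a 0 ≠ w j.succ := h.ne _ _
      have n3 : w 0 ≠ a j.succ := (h.ne _ _).symm
      have n4 : w 0 ≠ w j.succ := fun hh => Fin.succ_ne_zero j (h.inj_w hh).symm
      refine ⟨e K (a 0) (w 0) * r, ?_, ?_, ?_⟩
      · refine Rank2.On.mul (Rank2.e_On ?_ ?_) (hr.mono (sdiff_subset_sdiff hsub (subset_refl _)))
        · rw [mem_sdiff, mem_insert, mem_singleton, not_or]
          exact ⟨mem_lets.2 (Or.inl ⟨0, rfl⟩), n1, n2⟩
        · rw [mem_sdiff, mem_insert, mem_singleton, not_or]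
          exact ⟨mem_lets.2 (Or.inr ⟨0, rfl⟩), n3, n4⟩
      · have hc : e K (a 0) (w 0) * e K (a j.succ) (w j.succ) =
            e K (a j.succ) (w j.succ) * e K (a 0) (w 0) :=
          Rank2.e_mul_comm (Rank2.e_On' (a j.succ) (w j.succ)) (by simp [n1, n2])
            (by simp [n3, n4])
        rw [ud_succ, h1, ← mul_assoc, hc, mul_assoc]
      · rw [ud_succ, h2, mul_assoc]

theorem U0_of_mul_e (g : FSym Ω) (x y : Ω) :
    MonoidAlgebra.of K (FSym Ω) g * e K x y =
      e K ((g : Perm Ω) x) ((g : Perm Ω) y) * MonoidAlgebra.of K (FSym Ω) g := by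
  rw [← Rank2.conj_e, mul_assoc, ← map_mul, inv_mul_cancel, map_one, mul_one]

/-- `Rank2.conj_e` -/
theorem of_mul_ud (g : FSym Ω) (a w : Fin d → Ω) :
    MonoidAlgebra.of K (FSym Ω) g * ud K a w =
      ud K (mv g a) (mv g w) * MonoidAlgebra.of K (FSym Ω) g := by
  induction d with
  | zero => rw [ud_zero, ud_zero, mul_one, one_mul]
  | succ d ih =>
    have e1 : Fin.tail (mv g a) = mv g (Fin.tail a) := rfl
    have e2 : Fin.tail (mv g w) = mv g (Fin.tail w) := rfl
    rw [ud_succ, ud_succ, ← mul_assoc, U0_of_mul_e, mul_assoc, ih, ← mul_assoc, e1, e2]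
    rfl

end SmallPrime
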