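import Pool.Agent.Lib.MP_a8d7f7_al.P.U0b
import Pool.Agent.Lib.MP_a8d7f7_al.P.S1

/-!
# MP_a8d7f7_al, prime ideals of small growth: products of differences kill tuples (module U1)
-/

set_option autoImplicit false
set_option linter.unusedSectionVars false
set_option linter.unusedVariables false

namespace SmallPrime

open Finset Equiv FinSym
open ThreeLetter (Ideals)
open Rank2 (On sw e IsDiff)

variable {K : Type*} [Field K] {Ω : Type*} [DecidableEq Ω] {d : ℕ}

theorem U1_mul_e {k : ℕ} (z : MonoidAlgebra K (FSym Ω)) (c b : Fin k → Ω) {p q : Ω}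
    (hp : ∀ j, c j ≠ p) (hq : ∀ j, c j ≠ q) : sym (z * e K p q) c b = 0 := by
  have h : mv (sw p q) c = c := by
    funext j
    exact swap_apply_of_ne_of_ne (hp j) (hq j)
  unfold Rank2.e
  rw [mul_sub, mul_one, sym_sub, sym_mul_of, h, sub_self]

theorem U1_e_mul {k : ℕ} (z : MonoidAlgebra K (FSym Ω)) (c b : Fin k → Ω) {p q : Ω}
    (hp : ∀ j, b j ≠ p) (hq : ∀ j, b j ≠ q) : sym (e K p q * z) c b = 0 := by
  have h : mv (sw p q)⁻¹ b = b := by
    rw [Rank2.sw_inv]
    funext j
    exact swap_apply_of_ne_of_ne (hp j) (hq j)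
  unfold Rank2.e
  rw [sub_mul, one_mul, sym_sub, sym_of_mul, h, sub_self]

/-- `c` misses a pair: `ud a w = r * (1 - t)`, `t` fixes `c`, and `sym (y r t) c b = sym (y r) (t c) b`
(`sym_mul_of`) -/
theorem sym_mul_ud {k : ℕ} {a w : Fin d → Ω} (h : Gen a w) (y : MonoidAlgebra K (FSym Ω))
    (c b : Fin k → Ω) (i : Fin d) (hi : ∀ j, c j ≠ a i) (hi' : ∀ j, c j ≠ w i) :
    sym (y * ud K a w) c b = 0 := by
  obtain ⟨r, -, -, hr⟩ := ud_factor (K := K) h i
  rw [hr, ← mul_assoc]
  exact U1_mul_e _ c b hi hi'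

/-- the same on the left (`sym_of_mul`) -/
theorem sym_ud_mul {k : ℕ} {a w : Fin d → Ω} (h : Gen a w) (y : MonoidAlgebra K (FSym Ω))
    (c b : Fin k → Ω) (i : Fin d) (hi : ∀ j, b j ≠ a i) (hi' : ∀ j, b j ≠ w i) :
    sym (ud K a w * y) c b = 0 := by
  obtain ⟨r, -, hr, -⟩ := ud_factor (K := K) h i
  rw [hr, mul_assoc]
  exact U1_e_mul _ c b hi hi'

/-- A product of more differences than letters kills the tuple. Induction on `IsDiff`, for all `y`, of:
if at most `m < c` letters of the tuple are in `S` then `sym (y * u) c b = 0`. Step `u = (1 - t) u₀`: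
if the tuple misses the pair of `t`, commute `1 - t` to the right (`Rank2.e_mul_comm`) and argue as in
`sym_mul_ud`; otherwise one letter less is in `S₀`, use the induction hypothesis for `y * (1 - t)`. -/
theorem sym_mul_isDiff {k m : ℕ} {S : Finset Ω} {u : MonoidAlgebra K (FSym Ω)} (h : IsDiff K m S u)
    (y : MonoidAlgebra K (FSym Ω)) (c b : Fin k → Ω)
    (hc : (S.filter (fun z => ∃ j, c j = z)).card < m) : sym (y * u) c b = 0 := by
  induction h generalizing y with
  | zero => exact absurd hc (Nat.not_lt_zero _)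
  | succ m S u p q hpq hp hq hu ih =>
    by_cases hmiss : (∀ j, c j ≠ p) ∧ ∀ j, c j ≠ q
    · rw [Rank2.e_mul_comm hu.on hp hq, ← mul_assoc]
      exact U1_mul_e _ c b hmiss.1 hmiss.2
    · rw [← mul_assoc]
      apply ih
      have h1 : S.filter (fun z => ∃ j, c j = z) ⊂
          (insert p (insert q S)).filter (fun z => ∃ j, c j = z) := by
        rw [Finset.ssubset_iff_subset_ne]
        refine ⟨Finset.filter_subset_filter _ ((subset_insert _ _).trans (subset_insert _ _)), ?_⟩
        intro heq
        apply hmiss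
        constructor
        · intro j hj
          have h2 : p ∈ (insert p (insert q S)).filter (fun z => ∃ j, c j = z) :=
            mem_filter.2 ⟨mem_insert_self _ _, j, hj⟩
          rw [← heq] at h2
          exact hp (mem_filter.1 h2).1
        · intro j hj
          have h2 : q ∈ (insert p (insert q S)).filter (fun z => ∃ j, c j = z) :=
            mem_filter.2 ⟨mem_insert_of_mem (mem_insert_self _ _), j, hj⟩
          rw [← heq] at h2
          exact hq (mem_filter.1 h2).1
      have h2 := Finset.card_lt_card h1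
      omega

theorem isDiff_mem_PI {m : ℕ} (hm : d < m) {S : Finset Ω} {u : MonoidAlgebra K (FSym Ω)}
    (h : IsDiff K m S u) (N : TwoSidedIdeal (SAlg K d)) : u ∈ PI K Ω N := by
  rw [mem_PI]
  intro a b _ _
  have h1 : (S.filter (fun z => ∃ j, a j = z)).card < m := by
    refine lt_of_le_of_lt ?_ hm
    have h2 : S.filter (fun z => ∃ j, a j = z) ⊆ univ.image a := by
      intro z hz
      obtain ⟨-, j, hj⟩ := mem_filter.1 hz
      exact mem_image.2 ⟨j, mem_univ _, hj⟩
    refine (card_le_card h2).trans (card_image_le.trans ?_)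
    rw [card_univ, Fintype.card_fin]
  have h3 := sym_mul_isDiff h 1 a b h1
  rw [one_mul] at h3
  rw [h3]
  exact N.zero_mem

end SmallPrime
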